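import Pool.Agent.Lib.MP_729182_ag.Det2

/-!
Finite determinacy, third part: assembly.
-/

set_option autoImplicit false
set_option linter.unusedSectionVars false

namespace Pool.Agent.Lib.MP_729182_ag

open Filter Topology Asymptotics
open scoped ContDiff

noncomputable section

/-- The germ of the counterexample. -/
def Phi (z : C2) : C3 := (z.1, z.2 ^ 3 - z.1 * z.2, z.2 ^ 4 - z.1 * z.2 ^ 2 + z.1 ^ 2 * z.2 ^ 2)

theorem contDiff_Phi : ContDiff ℂ ω Phi := by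
  unfold Phi; fun_prop

theorem isBigO_prod {E F G : Type*} [NormedAddCommGroup E] [NormedAddCommGroup F]
    [NormedAddCommGroup G] {f : E → F} {g : E → G} {n : ℕ}
    (hf : f =O[𝓝 0] (fun z => ‖z‖ ^ n)) (hg : g =O[𝓝 0] (fun z => ‖z‖ ^ n)) :
    (fun z => (f z, g z)) =O[𝓝 0] (fun z => ‖z‖ ^ n) :=
  hf.prod_left hg

theorem det_aux {Ψ2 Ψ3 : ℂ × ℂ → ℂ} (h2a : AnalyticAt ℂ Ψ2 0) (h3a : AnalyticAt ℂ Ψ3 0)
    (h2O : (fun z : ℂ × ℂ => Ψ2 z - (z.2 ^ 3 - z.1 * z.2)) =O[𝓝 0] (fun z => ‖z‖ ^ 20))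
    (h3O : (fun z : ℂ × ℂ => Ψ3 z - q3 z.1 z.2) =O[𝓝 0] (fun z => ‖z‖ ^ 20)) :
    ∃ (φ : C2 → C2) (ψ : C3 → C3), Tang φ ∧ Tang ψ ∧
      ∀ᶠ z in 𝓝 (0 : C2), (z.1, Ψ2 z, Ψ3 z) = ψ (Phi (φ z)) := by
  have q3c : ContDiff ℂ ω (fun z : ℂ × ℂ => q3 z.1 z.2) := by unfold q3; fun_prop
  have qc : ContDiff ℂ ω (fun z : ℂ × ℂ => (z.2 ^ 3 - z.1 * z.2)) := by fun_prop
  obtain ⟨γ, α, a, hγa, hαa, haa, hγO, hαO, haO, hstep1⟩ :=
    step1 (h2a.sub qc.contDiffAt.analyticAt) h2O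
  obtain ⟨c0, m1, m2, c0a, m1a, m2a, c0O, m1O, m2O, hstep2⟩ :=
    step2 (h3a.sub q3c.contDiffAt.analyticAt) h3O hγa hαa hγO hαO
  obtain ⟨b, C, u, w, ba, Ca, ua, wa, b0, C0, u0, w0, hstep3⟩ := step3 m1a m2a m1O m2O
  have cγ : ContDiffAt ℂ ω γ 0 := hγa.contDiffAt
  have cα : ContDiffAt ℂ ω α 0 := hαa.contDiffAt
  have ca : ContDiffAt ℂ ω a 0 := haa.contDiffAt
  have cb : ContDiffAt ℂ ω b 0 := ba.contDiffAt
  have cC : ContDiffAt ℂ ω C 0 := Ca.contDiffAt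
  have cu : ContDiffAt ℂ ω u 0 := ua.contDiffAt
  have cw : ContDiffAt ℂ ω w 0 := wa.contDiffAt
  have cc0 : ContDiffAt ℂ ω c0 0 := c0a.contDiffAt
  have cm2 : ContDiffAt ℂ ω m2 0 := m2a.contDiffAt
  have m20 := eq_zero_of_isBigO_pow (by norm_num) m2O
  -- `pz (x, y) = (x, y³ - x y)`
  set pz : ℂ × ℂ → ℂ × ℂ := fun v => (v.1, v.2 ^ 3 - v.1 * v.2) with hpz
  have pzc : ContDiff ℂ ω pz := by rw [hpz]; fun_prop
  have pza : AnalyticAt ℂ pz 0 := pzc.contDiffAt.analyticAt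
  have pz0 : pz 0 = 0 := by simp [hpz, Prod.ext_iff]
  have pzO := AnalyticAt.isBigO_id pza pz0
  have pzt : Tendsto pz (𝓝 0) (𝓝 0) := pzc.continuous.tendsto' 0 0 pz0
  -- coordinate functions
  have x1 : (fun z : ℂ × ℂ => z.1) =O[𝓝 0] (fun z => ‖z‖ ^ 1) :=
    AnalyticAt.isBigO_id analyticAt_fst rfl
  have y1 : (fun z : ℂ × ℂ => z.2) =O[𝓝 0] (fun z => ‖z‖ ^ 1) :=
    AnalyticAt.isBigO_id analyticAt_snd rfl
  -- `φ1`
  set φ1 : C2 → C2 := fun v => (v.1 + α (pz v), v.2 + γ (pz v)) with hφ1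
  have hφ1T : Tang φ1 := by
    refine ⟨?_, ?_⟩
    · have h1 : AnalyticAt ℂ (fun v => α (pz v)) 0 := hαa.comp_of_eq pza pz0
      have h2 : AnalyticAt ℂ (fun v => γ (pz v)) 0 := hγa.comp_of_eq pza pz0
      exact (analyticAt_fst.add h1).prod (analyticAt_snd.add h2)
    · have h1 := isBigO_pow_comp one_ne_zero hαO pzO
      have h2 := isBigO_pow_comp one_ne_zero hγO pzO
      have h3 := isBigO_prod (isBigO_pow_mono (m := 2) (by norm_num) h1)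
        (isBigO_pow_mono (m := 2) (by norm_num) h2)
      refine h3.congr_left fun v => ?_
      simp only [hφ1, Prod.ext_iff, Prod.fst_sub, Prod.snd_sub]
      constructor <;> ring
  -- the functions of `z = (x, P)`
  set c : ℂ × ℂ → ℂ := fun z => z.1 ^ 2 * C z with hc
  have cc : ContDiffAt ℂ ω c 0 := by rw [hc]; fun_prop
  have cz : c 0 = 0 := by simp [hc]
  set X' : ℂ × ℂ → ℂ := fun z => Xp z.1 z.2 (b z) (c z) with hX'
  set P' : ℂ × ℂ → ℂ := fun z => Pp z.1 z.2 (b z) (c z) with hP'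
  have cX : ContDiffAt ℂ ω X' 0 := by
    simp only [hX', Xp]; fun_prop
  have cP : ContDiffAt ℂ ω P' 0 := by
    simp only [hP', Pp]; fun_prop
  have X'0 : X' 0 = 0 := by simp [hX', Xp]
  have P'0 : P' 0 = 0 := by simp [hP', Pp]
  have X'O : (fun z => X' z - z.1) =O[𝓝 0] (fun z => ‖z‖ ^ 2) := by
    have hs : ContDiffAt ℂ ω (fun z : ℂ × ℂ => (b z ^ 2 - 1) + 3 * b z * z.1 * C z * z.2
        + z.1 ^ 5 * C z ^ 2 / 3) 0 := by fun_prop
    have h1 := isBigO_pow_mul x1 (AnalyticAt.isBigO_id hs.analyticAt (by simp [b0]))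
    refine h1.congr_left fun z => ?_
    simp only [hX', Xp, hc]; ring
  have P'O : (fun z => P' z - z.2) =O[𝓝 0] (fun z => ‖z‖ ^ 2) := by
    have hs : ContDiffAt ℂ ω (fun z : ℂ × ℂ => b z ^ 3 - 1) 0 := by fun_prop
    have hs' : ContDiffAt ℂ ω (fun z : ℂ × ℂ => (2 * z.1 / 3) * b z ^ 2 * c z
        + b z * c z ^ 2 * z.2 + z.1 * C z * c z ^ 2 * (z.2 ^ 2 - 2 * z.1 ^ 3 / 27)) 0 := by
      fun_prop
    have h1 := isBigO_pow_mul y1 (AnalyticAt.isBigO_id hs.analyticAt (by simp [b0]))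
    have h2 := isBigO_pow_mul x1 (AnalyticAt.isBigO_id hs'.analyticAt (by simp [cz]))
    refine (h1.add h2).congr_left fun z => ?_
    simp only [hP', Pp, hc]; ring
  set g2 : C2 → C2 := fun z => (X' z, P' z) with hg2
  have hg2T : Tang g2 := by
    refine ⟨cX.analyticAt.prod cP.analyticAt, ?_⟩
    refine (isBigO_prod X'O P'O).congr_left fun z => ?_
    simp only [hg2, Prod.ext_iff, Prod.fst_sub, Prod.snd_sub, and_self]
  -- `φ2`
  set φ2 : C2 → C2 := fun v => (X' (pz v), yp v.1 v.2 (b (pz v)) (c (pz v))) with hφ2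
  have hbp : ContDiffAt ℂ ω (fun v => b (pz v)) 0 := (ba.comp_of_eq pza pz0).contDiffAt
  have hCp : ContDiffAt ℂ ω (fun v => C (pz v)) 0 := (Ca.comp_of_eq pza pz0).contDiffAt
  have hcp : ContDiffAt ℂ ω (fun v => c (pz v)) 0 :=
    (cc.analyticAt.comp_of_eq pza pz0).contDiffAt
  have cb' : ContDiffAt ℂ ω b (pz 0) := by rw [pz0]; exact cb
  have cC' : ContDiffAt ℂ ω C (pz 0) := by rw [pz0]; exact cC
  have cc' : ContDiffAt ℂ ω c (pz 0) := by rw [pz0]; exact cc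
  have hφ2T : Tang φ2 := by
    refine ⟨?_, ?_⟩
    · have h1 : AnalyticAt ℂ (fun v => X' (pz v)) 0 := cX.analyticAt.comp_of_eq pza pz0
      have h2 : ContDiffAt ℂ ω (fun v : ℂ × ℂ => yp v.1 v.2 (b (pz v)) (c (pz v))) 0 := by
        simp only [yp]; fun_prop
      exact h1.prod h2.analyticAt
    · have h1 := isBigO_pow_comp one_ne_zero X'O pzO
      have hs : ContDiffAt ℂ ω (fun v : ℂ × ℂ => b (pz v) - 1) 0 := by fun_prop
      have hs' : ContDiffAt ℂ ω (fun v : ℂ × ℂ => v.1 * C (pz v) * (v.2 ^ 2 - 2 * v.1 / 3)) 0 := by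
        fun_prop
      have h2 := isBigO_pow_mul y1 (AnalyticAt.isBigO_id hs.analyticAt (by simp [b0, pz0]))
      have h3 := isBigO_pow_mul x1 (AnalyticAt.isBigO_id hs'.analyticAt (by simp))
      refine (isBigO_prod h1 (h2.add h3)).congr_left fun v => ?_
      simp only [hφ2, Prod.ext_iff, Prod.fst_sub, Prod.snd_sub, yp, hc, hpz]
      refine ⟨trivial, ?_⟩
      ring
  -- target map
  set k0 : ℂ × ℂ → ℂ := fun z => K0 z.1 z.2 (b z) (c z) with hk0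
  set k1 : ℂ × ℂ → ℂ := fun z => K1 z.1 z.2 (b z) (c z) with hk1
  set k2 : ℂ × ℂ → ℂ := fun z => K2 z.1 z.2 (b z) (c z) with hk2
  have ck0 : ContDiffAt ℂ ω k0 0 := by simp only [hk0, K0, Xp]; fun_prop
  have ck1 : ContDiffAt ℂ ω k1 0 := by simp only [hk1, K1, Pp, Xp]; fun_prop
  have ck2 : ContDiffAt ℂ ω k2 0 := by simp only [hk2, K2, Pp, Xp]; fun_prop
  have k00 : k0 0 = 0 := by simp [hk0, K0, Xp]
  have k10 : k1 0 = 0 := by simp [hk1, K1, Pp, Xp]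
  have k20 : k2 0 = 0 := by simp [hk2, K2, Pp, Xp]
  set r : ℂ × ℂ → ℂ := fun z => c0 z + (2 * z.1 / 3) * (z.1 ^ 2 + m2 z)
    - w z * ((2 * z.1 / 3) * k1 z ^ 2 + 2 * z.2 * k1 z * k2 z + (2 * z.1 ^ 2 / 9) * k2 z ^ 2)
    with hr
  have cr : ContDiffAt ℂ ω r 0 := by rw [hr]; fun_prop
  have rO : r =O[𝓝 0] (fun z => ‖z‖ ^ 2) := by
    have hs : ContDiffAt ℂ ω (fun z : ℂ × ℂ => (2 / 3) * (z.1 ^ 2 + m2 z)) 0 := by fun_prop
    have hs' : ContDiffAt ℂ ω (fun z : ℂ × ℂ => -((2 * z.1 / 3) * k1 z ^ 2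
      + 2 * z.2 * k1 z * k2 z + (2 * z.1 ^ 2 / 9) * k2 z ^ 2)) 0 := by fun_prop
    have h1 := isBigO_pow_mul x1 (AnalyticAt.isBigO_id hs.analyticAt (by simp [m20]))
    have h2 := isBigO_pow_mul (AnalyticAt.isBigO_id wa w0)
      (AnalyticAt.isBigO_id hs'.analyticAt (by simp))
    refine (((isBigO_pow_mono (m := 2) (by norm_num) c0O).add h1).add h2).congr_left fun z => ?_
    simp only [hr]; ring
  have k0O : k0 =O[𝓝 0] (fun z => ‖z‖ ^ 2) := by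
    have hX := AnalyticAt.isBigO_id cX.analyticAt X'0
    have h1 := (isBigO_pow_mul (isBigO_pow_mul hX hX) (AnalyticAt.isBigO_zero cX.analyticAt))
    have h2 := h1.const_mul_left (2 / 3)
    refine h2.congr_left fun z => ?_
    simp only [hk0, K0, hX']; ring
  -- projection `ℂ³ → ℂ²`
  set pr : ℂ × ℂ × ℂ → ℂ × ℂ := fun t => (t.1, t.2.1) with hpr
  have prc : ContDiff ℂ ω pr := by rw [hpr]; fun_prop
  have pra : AnalyticAt ℂ pr 0 := prc.contDiffAt.analyticAt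
  have pr0 : pr 0 = 0 := rfl
  have prO := AnalyticAt.isBigO_id pra pr0
  set Θ : C3 → C3 := fun t => (t.1 + α (pr t), t.2.1 + a (pr t),
    r (pr t) + u (pr t) * (t.2.2 - k0 (pr t)) + w (pr t) * (t.2.2 - k0 (pr t)) ^ 2) with hΘ
  have cpα : ContDiffAt ℂ ω (fun t => α (pr t)) 0 := (hαa.comp_of_eq pra pr0).contDiffAt
  have cpa : ContDiffAt ℂ ω (fun t => a (pr t)) 0 := (haa.comp_of_eq pra pr0).contDiffAt
  have cpr : ContDiffAt ℂ ω (fun t => r (pr t)) 0 := (cr.analyticAt.comp_of_eq pra pr0).contDiffAt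
  have cpu : ContDiffAt ℂ ω (fun t => u (pr t)) 0 := (ua.comp_of_eq pra pr0).contDiffAt
  have cpw : ContDiffAt ℂ ω (fun t => w (pr t)) 0 := (wa.comp_of_eq pra pr0).contDiffAt
  have cpk : ContDiffAt ℂ ω (fun t => k0 (pr t)) 0 :=
    (ck0.analyticAt.comp_of_eq pra pr0).contDiffAt
  have hΘT : Tang Θ := by
    refine ⟨?_, ?_⟩
    · have : ContDiffAt ℂ ω Θ 0 := by rw [hΘ]; fun_prop
      exact this.analyticAt
    · have h1 := isBigO_pow_mono (m := 2) (by norm_num) (isBigO_pow_comp one_ne_zero hαO prO)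
      have h2 := isBigO_pow_mono (m := 2) (by norm_num) (isBigO_pow_comp one_ne_zero haO prO)
      have h3 := isBigO_pow_comp one_ne_zero rO prO
      have h4 := isBigO_pow_comp one_ne_zero k0O prO
      rw [one_mul] at h3 h4
      have z1 : (fun t : ℂ × ℂ × ℂ => t.2.2) =O[𝓝 0] (fun t => ‖t‖ ^ 1) := by
        have : ContDiffAt ℂ ω (fun t : ℂ × ℂ × ℂ => t.2.2) 0 := by fun_prop
        exact AnalyticAt.isBigO_id this.analyticAt rfl
      have s1 : ContDiffAt ℂ ω (fun t : ℂ × ℂ × ℂ => u (pr t) - 1) 0 := by fun_prop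
      have h5 := isBigO_pow_mul z1 (AnalyticAt.isBigO_id s1.analyticAt (by simp [u0, pr0]))
      have h6 := isBigO_pow_mul (AnalyticAt.isBigO_zero cpu.analyticAt) h4
      have s2 : ContDiffAt ℂ ω (fun t : ℂ × ℂ × ℂ => t.2.2 - k0 (pr t)) 0 := by fun_prop
      have s2O := AnalyticAt.isBigO_id s2.analyticAt (by simp [pr0, k00])
      have h7 := isBigO_pow_mul (AnalyticAt.isBigO_zero cpw.analyticAt) (isBigO_pow_mul s2O s2O)
      have h8 := ((h3.add h5).sub h6).add h7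
      refine (isBigO_prod h1 (isBigO_prod h2 h8)).congr_left fun t => ?_
      simp only [hΘ, Prod.ext_iff, Prod.fst_sub, Prod.snd_sub]
      refine ⟨?_, ?_, ?_⟩ <;> ring
  obtain ⟨ζ, hζT, hζ1, hζ2⟩ := hg2T.exists_inv
  obtain ⟨χ1, hχT, hχ1, hχ2⟩ := hφ1T.exists_inv
  set ζ3 : C3 → C3 := fun t => ((ζ (pr t)).1, (ζ (pr t)).2, t.2.2) with hζ3
  have hζ3T : Tang ζ3 := by
    have h0 : AnalyticAt ℂ (fun t => ζ (pr t)) 0 := hζT.1.comp_of_eq pra pr0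
    refine ⟨?_, ?_⟩
    · have c1 : ContDiffAt ℂ ω ζ (pr 0) := by rw [pr0]; exact hζT.1.contDiffAt
      have : ContDiffAt ℂ ω ζ3 0 := by rw [hζ3]; fun_prop
      exact this.analyticAt
    · have h1 := isBigO_pow_comp one_ne_zero hζT.2 prO
      rw [one_mul] at h1
      have h2 : (fun t => (ζ (pr t) - pr t).1) =O[𝓝 0] (fun t : C3 => ‖t‖ ^ 2) :=
        IsBigO.trans (IsBigO.of_bound 1 (Eventually.of_forall fun t => by
          rw [one_mul]; exact norm_fst_le _)) h1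
      have h3 : (fun t => (ζ (pr t) - pr t).2) =O[𝓝 0] (fun t : C3 => ‖t‖ ^ 2) :=
        IsBigO.trans (IsBigO.of_bound 1 (Eventually.of_forall fun t => by
          rw [one_mul]; exact norm_snd_le _)) h1
      have h4 : (fun _ => (0 : ℂ)) =O[𝓝 0] (fun t : C3 => ‖t‖ ^ 2) := isBigO_zero _ _
      refine (isBigO_prod h2 (isBigO_prod h3 h4)).congr_left fun t => ?_
      simp [hζ3, hpr, Prod.ext_iff]
  refine ⟨fun z => φ2 (χ1 z), fun t => Θ (ζ3 t), hφ2T.comp hχT, hΘT.comp hζ3T, ?_⟩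
  -- the identity near `0`, in terms of `v = χ1 z`
  have key : ∀ᶠ v in 𝓝 (0 : C2), ((φ1 v).1, Ψ2 (φ1 v), Ψ3 (φ1 v)) = Θ (ζ3 (Phi (φ2 v))) := by
    filter_upwards [hstep1, hstep2, pzt.eventually hstep3, pzt.eventually hζ1] with v e1 e2 e3 e4
    have hpv : (v.1, v.2 ^ 3 - v.1 * v.2) = pz v := rfl
    simp only [hpv, Pi.sub_apply] at e1 e2
    have hp1 : (pz v).1 = v.1 := rfl
    have hp2 : (pz v).2 = v.2 ^ 3 - v.1 * v.2 := rfl
    -- Phi (φ2 v)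
    have hyA := idA v.1 v.2 (b (pz v)) (c (pz v))
    have hyB := idB v.1 v.2 (b (pz v)) (c (pz v))
    have hX'v : Xp v.1 (v.2 ^ 3 - v.1 * v.2) (b (pz v)) (c (pz v)) = X' (pz v) := rfl
    have hP'v : Pp v.1 (v.2 ^ 3 - v.1 * v.2) (b (pz v)) (c (pz v)) = P' (pz v) := rfl
    have hk0v : K0 v.1 (v.2 ^ 3 - v.1 * v.2) (b (pz v)) (c (pz v)) = k0 (pz v) := rfl
    have hk1v : K1 v.1 (v.2 ^ 3 - v.1 * v.2) (b (pz v)) (c (pz v)) = k1 (pz v) := rfl
    have hk2v : K2 v.1 (v.2 ^ 3 - v.1 * v.2) (b (pz v)) (c (pz v)) = k2 (pz v) := rfl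
    rw [hX'v, hP'v] at hyA
    rw [hX'v, hk0v, hk1v, hk2v] at hyB
    have hPhi : Phi (φ2 v) = (X' (pz v), P' (pz v),
        k0 (pz v) + k1 (pz v) * v.2 + k2 (pz v) * (v.2 ^ 2 - 2 * v.1 / 3)) := by
      simp only [Phi, hφ2, Prod.mk.injEq]
      exact ⟨trivial, hyA, hyB⟩
    have hζv : ζ3 (Phi (φ2 v)) = (v.1, v.2 ^ 3 - v.1 * v.2,
        k0 (pz v) + k1 (pz v) * v.2 + k2 (pz v) * (v.2 ^ 2 - 2 * v.1 / 3)) := by
      rw [hPhi]
      simp only [hζ3, hpr]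
      have : ζ (X' (pz v), P' (pz v)) = pz v := e4
      rw [this]
    rw [hζv]
    have hpr' : ∀ t : ℂ, pr (v.1, v.2 ^ 3 - v.1 * v.2, t) = pz v := fun t => rfl
    simp only [hΘ, hpr', hφ1]
    obtain ⟨e31, e32⟩ := e3
    have f31 : u (pz v) * k1 (pz v) + w (pz v) * ((2 * v.1 / 3) * k1 (pz v) * k2 (pz v)
        + (v.2 ^ 3 - v.1 * v.2) * k2 (pz v) ^ 2) = (v.2 ^ 3 - v.1 * v.2) + m1 (pz v) := e31
    have f32 : u (pz v) * k2 (pz v) + w (pz v) * (k1 (pz v) ^ 2 - (v.1 / 3) * k2 (pz v) ^ 2)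
        = v.1 ^ 2 + m2 (pz v) := e32
    have e1' : Ψ2 (v.1 + α (pz v), v.2 + γ (pz v)) = v.2 ^ 3 - v.1 * v.2 + a (pz v) := by
      have hcomm : v.2 + γ (pz v) = γ (pz v) + v.2 := add_comm _ _
      rw [hcomm]
      linear_combination e1
    have e2' : Ψ3 (v.1 + α (pz v), v.2 + γ (pz v)) = c0 (pz v)
        + ((v.2 ^ 3 - v.1 * v.2) + m1 (pz v)) * v.2 + (v.1 ^ 2 + m2 (pz v)) * v.2 ^ 2 := by
      have hcomm : v.2 + γ (pz v) = γ (pz v) + v.2 := add_comm _ _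
      rw [hcomm]
      linear_combination e2
    have hC := idC v.1 v.2 (k1 (pz v)) (k2 (pz v))
    rw [e1', e2']
    simp only [Prod.mk.injEq]
    refine ⟨trivial, trivial, ?_⟩
    simp only [hr, hp1, hp2]
    have hsq : (k0 (pz v) + k1 (pz v) * v.2 + k2 (pz v) * (v.2 ^ 2 - 2 * v.1 / 3) - k0 (pz v))
        = k1 (pz v) * v.2 + k2 (pz v) * (v.2 ^ 2 - 2 * v.1 / 3) := by ring
    rw [hsq, hC]
    linear_combination (-v.2) * f31 - (v.2 ^ 2 - 2 * v.1 / 3) * f32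
  have hχt : Tendsto χ1 (𝓝 0) (𝓝 0) := hχT.tendsto
  filter_upwards [hχt.eventually key, hχ2] with z hz1 hz2
  rw [← hz1, hz2]

/-- The germ `Phi` is finitely determined (indeed `19`-determined). -/
theorem finitelyDetermined_Phi : FinitelyDetermined Phi := by
  refine ⟨19, fun Ψ hΨ hjet => ?_⟩
  have hjet' : (fun z => Ψ z - Phi z) =O[𝓝 0] (fun z => ‖z‖ ^ 20) := hjet
  -- straighten the first component
  set φ0 : C2 → C2 := fun z => ((Ψ z).1, z.2) with hφ0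
  have hφ0T : Tang φ0 := by
    refine ⟨(analyticAt_fst.comp hΨ).prod analyticAt_snd, ?_⟩
    have h1 : (fun z => (Ψ z - Phi z).1) =O[𝓝 0] (fun z : C2 => ‖z‖ ^ 20) :=
      IsBigO.trans (IsBigO.of_bound 1 (Eventually.of_forall fun t => by
        rw [one_mul]; exact norm_fst_le _)) hjet'
    have h2 := isBigO_pow_mono (m := 2) (by norm_num) h1
    have h4 : (fun _ => (0 : ℂ)) =O[𝓝 0] (fun t : C2 => ‖t‖ ^ 2) := isBigO_zero _ _
    refine (isBigO_prod h2 h4).congr_left fun z => ?_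
    simp [hφ0, Phi, Prod.ext_iff]
  obtain ⟨χ0, hχT, hχ1, hχ2⟩ := hφ0T.exists_inv
  have hχO := hχT.isBigO_id
  have h1 : (fun z => φ0 z - z) =O[𝓝 0] (fun z => ‖z‖ ^ 20) := by
    have h1 : (fun z => (Ψ z - Phi z).1) =O[𝓝 0] (fun z : C2 => ‖z‖ ^ 20) :=
      IsBigO.trans (IsBigO.of_bound 1 (Eventually.of_forall fun t => by
        rw [one_mul]; exact norm_fst_le _)) hjet'
    have h4 : (fun _ => (0 : ℂ)) =O[𝓝 0] (fun t : C2 => ‖t‖ ^ 20) := isBigO_zero _ _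
    refine (isBigO_prod h1 h4).congr_left fun z => ?_
    simp [hφ0, Phi, Prod.ext_iff]
  have hχ20 : (fun z => χ0 z - z) =O[𝓝 0] (fun z => ‖z‖ ^ 20) := by
    have h2 := isBigO_pow_comp one_ne_zero h1 hχO
    rw [one_mul] at h2
    refine h2.neg_left.congr' ?_ EventuallyEq.rfl
    filter_upwards [hχ2] with z hz
    rw [hz]; abel
  -- the new map
  have hΨ' : AnalyticAt ℂ (fun z => Ψ (χ0 z)) 0 := hΨ.comp_of_eq hχT.1 hχT.zero
  have hdiff : (fun z => Ψ (χ0 z) - Phi z) =O[𝓝 0] (fun z => ‖z‖ ^ 20) := by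
    have a1 := isBigO_pow_comp one_ne_zero hjet' hχO
    rw [one_mul] at a1
    have a2 : (fun z => Phi (χ0 z) - Phi z) =O[𝓝 0] (fun z => ‖z‖ ^ 20) := by
      have hs : HasStrictFDerivAt Phi (fderiv ℂ Phi 0) 0 :=
        contDiff_Phi.contDiffAt.hasStrictFDerivAt (by simp)
      have ht : Tendsto (fun z => (χ0 z, z)) (𝓝 0) (𝓝 ((0 : C2), (0 : C2))) :=
        hχT.tendsto.prodMk_nhds tendsto_id
      have h2 := (hs.isBigO_sub).comp_tendsto ht
      exact h2.trans hχ20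
    refine (a1.add a2).congr_left fun z => ?_
    abel
  have hfst : ∀ᶠ z in 𝓝 (0 : C2), (Ψ (χ0 z)).1 = z.1 := by
    filter_upwards [hχ2] with z hz
    have := congrArg Prod.fst hz
    exact this
  have d2 : (fun z => (Ψ (χ0 z) - Phi z).2) =O[𝓝 0] (fun z : C2 => ‖z‖ ^ 20) :=
    IsBigO.trans (IsBigO.of_bound 1 (Eventually.of_forall fun t => by
      rw [one_mul]; exact norm_snd_le _)) hdiff
  have d21 : (fun z => (Ψ (χ0 z) - Phi z).2.1) =O[𝓝 0] (fun z : C2 => ‖z‖ ^ 20) :=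
    IsBigO.trans (IsBigO.of_bound 1 (Eventually.of_forall fun t => by
      rw [one_mul]; exact norm_fst_le _)) d2
  have d22 : (fun z => (Ψ (χ0 z) - Phi z).2.2) =O[𝓝 0] (fun z : C2 => ‖z‖ ^ 20) :=
    IsBigO.trans (IsBigO.of_bound 1 (Eventually.of_forall fun t => by
      rw [one_mul]; exact norm_snd_le _)) d2
  have A2 : AnalyticAt ℂ (fun z => (Ψ (χ0 z)).2.1) 0 :=
    analyticAt_fst.comp (analyticAt_snd.comp hΨ')
  have A3 : AnalyticAt ℂ (fun z => (Ψ (χ0 z)).2.2) 0 :=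
    analyticAt_snd.comp (analyticAt_snd.comp hΨ')
  obtain ⟨φ, ψ, hφ, hψ, hid⟩ := det_aux A2 A3 d21 d22
  refine ⟨fun z => φ (φ0 z), ψ, (hφ.comp hφ0T).isBiholGerm, hψ.isBiholGerm, ?_⟩
  have ht := hφ0T.tendsto
  filter_upwards [ht.eventually hid, ht.eventually hfst, hχ1] with z e1 e2 e3
  rw [← e1, e3]

end

end Pool.Agent.Lib.MP_729182_ag
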