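import Pool.Agent.Lib.MP_729182_ag.Top
import Pool.Agent.Lib.MP_729182_ag.Det3

/-!
The double point set of `Phi`, its components, and the involution.
-/

set_option autoImplicit false
set_option linter.unusedSectionVars false

namespace Pool.Agent.Lib.MP_729182_ag

open Filter Topology Asymptotics
open scoped ContDiff

noncomputable section

/-! ### Square roots -/

theorem exists_sqrt {f : ℂ → ℂ} (hf : AnalyticAt ℂ f 0) (h0 : f 0 = 1) :
    ∃ g : ℂ → ℂ, AnalyticAt ℂ g 0 ∧ g 0 = 1 ∧ ∀ᶠ x in 𝓝 0, g x ^ 2 = f x := by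
  refine ⟨fun x => Complex.exp (Complex.log (f x) / 2), ?_, ?_, ?_⟩
  · have h1 : AnalyticAt ℂ (fun x => Complex.log (f x)) 0 :=
      hf.clog (by rw [h0]; exact Complex.one_mem_slitPlane)
    exact (h1.div_const).cexp
  · simp [h0]
  · have hne : ∀ᶠ x in 𝓝 (0 : ℂ), f x ≠ 0 :=
      hf.continuousAt.eventually_ne (by rw [h0]; exact one_ne_zero)
    filter_upwards [hne] with x hx
    rw [← Complex.exp_nat_mul]
    have : ((2 : ℕ) : ℂ) * (Complex.log (f x) / 2) = Complex.log (f x) := by push_cast; ring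
    rw [this, Complex.exp_log hx]

/-- The unit `a` with `α = a²` and `α² - (1 - x) α + x² = 0`. -/
theorem exists_a : ∃ a : ℂ → ℂ, AnalyticAt ℂ a 0 ∧ a 0 = 1 ∧
    ∀ᶠ x in 𝓝 (0 : ℂ), a x ^ 4 - (1 - x) * a x ^ 2 + x ^ 2 = 0 := by
  have h1 : AnalyticAt ℂ (fun x : ℂ => 1 - 2 * x - 3 * x ^ 2) 0 := by
    have : ContDiff ℂ ω (fun x : ℂ => 1 - 2 * x - 3 * x ^ 2) := by fun_prop
    exact this.contDiffAt.analyticAt
  obtain ⟨s, hs, hs0, hss⟩ := exists_sqrt h1 (by norm_num)
  have cs : ContDiffAt ℂ ω s 0 := hs.contDiffAt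
  have h2 : AnalyticAt ℂ (fun x : ℂ => ((1 - x) + s x) / 2) 0 :=
    (by fun_prop : ContDiffAt ℂ ω (fun x : ℂ => ((1 - x) + s x) / 2) 0).analyticAt
  obtain ⟨a, ha, ha0, haa⟩ := exists_sqrt h2 (by rw [hs0]; norm_num)
  refine ⟨a, ha, ha0, ?_⟩
  filter_upwards [hss, haa] with x h1 h2
  have e : a x ^ 4 = (a x ^ 2) ^ 2 := by ring
  rw [e, h2]
  linear_combination (1 / 4) * h1

/-! ### Analytic set germs -/

theorem isAnalyticGerm_zero {f : C2 → ℂ} (hf : AnalyticAt ℂ f 0) :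
    IsAnalyticGerm {z | f z = 0} := by
  refine ⟨1, fun z _ => f z, ?_, ?_⟩
  · exact analyticAt_pi_iff.2 fun _ => hf
  · filter_upwards with z
    rw [funext_iff]
    simp

theorem IsAnalyticGerm.inter_zero {X : Set C2} (hX : IsAnalyticGerm X) {f : C2 → ℂ}
    (hf : AnalyticAt ℂ f 0) : IsAnalyticGerm (X ∩ {z | f z = 0}) := by
  obtain ⟨n, F, hF, hFX⟩ := hX
  refine ⟨n + 1, fun z => Fin.cons (f z) (F z), ?_, ?_⟩
  · refine analyticAt_pi_iff.2 fun i => ?_
    refine Fin.cases ?_ (fun j => ?_) i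
    · simpa using hf
    · simpa using analyticAt_pi_iff.1 hF j
  · filter_upwards [hFX] with z hz
    constructor
    · rintro ⟨h1, h2⟩
      have h3 := hz.1 h1
      funext i
      refine Fin.cases ?_ (fun j => ?_) i
      · simpa using h2
      · simp [h3]
    · intro h
      constructor
      · refine hz.2 ?_
        funext j
        have := congrFun h j.succ
        simpa using this
      · have := congrFun h 0
        simpa using this

/-- A germ parametrized by an analytic arc is irreducible. -/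
theorem isIrreducibleGerm_of_param {X : Set C2} (hX : IsAnalyticGerm X) {γ : ℂ → C2}
    (hγ : AnalyticAt ℂ γ 0) (hγ0 : γ 0 = 0) (h1 : ∀ᶠ t in 𝓝 (0 : ℂ), γ t ∈ X)
    (h2 : ∀ V ∈ 𝓝 (0 : ℂ), ∀ᶠ z in 𝓝 (0 : C2), z ∈ X → ∃ t ∈ V, γ t = z) :
    IsIrreducibleGerm X := by
  refine ⟨hX, ?_, ?_⟩
  · have := h1.self_of_nhds
    rwa [hγ0] at this
  · intro Y Z hY hZ hXYZ
    have hγt : Tendsto γ (𝓝 0) (𝓝 0) := by
      have := hγ.continuousAt.tendsto
      rwa [hγ0] at this
    -- the key one-variable fact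
    have key : ∀ W : Set C2, IsAnalyticGerm W → (∀ᶠ z in 𝓝 (0 : C2), z ∈ W → z ∈ X) →
        (X =ᶠ[𝓝 0] W) ∨ (∀ᶠ t in 𝓝[≠] (0 : ℂ), γ t ∉ W) := by
      rintro W ⟨n, F, hF, hFW⟩ hWX
      have hFγ : AnalyticAt ℂ (fun t => F (γ t)) 0 := hF.comp_of_eq hγ hγ0
      rcases hFγ.eventually_eq_zero_or_eventually_ne_zero with h | h
      · left
        filter_upwards [h2 _ h, hFW, hWX] with z hz hzF hzW
        apply propext
        constructor
        · intro hzX
          obtain ⟨t, ht, rfl⟩ := hz hzX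
          exact hzF.2 ht
        · exact hzW
      · right
        have h3 : ∀ᶠ t in 𝓝[≠] (0 : ℂ), (γ t ∈ W ↔ F (γ t) = 0) :=
          (hγt.mono_left nhdsWithin_le_nhds).eventually hFW
        filter_upwards [h, h3] with t ht ht3 hmem
        exact ht (ht3.1 hmem)
    have hYX : ∀ᶠ z in 𝓝 (0 : C2), z ∈ Y → z ∈ X := by
      filter_upwards [hXYZ] with z hz hzY
      have : (z ∈ X) = (z ∈ Y ∪ Z) := hz
      rw [this]; exact Or.inl hzY
    have hZX : ∀ᶠ z in 𝓝 (0 : C2), z ∈ Z → z ∈ X := by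
      filter_upwards [hXYZ] with z hz hzZ
      have : (z ∈ X) = (z ∈ Y ∪ Z) := hz
      rw [this]; exact Or.inr hzZ
    rcases key Y hY hYX with h | hY'
    · exact Or.inl h
    · rcases key Z hZ hZX with h | hZ'
      · exact Or.inr h
      · exfalso
        have h4 : ∀ᶠ t in 𝓝[≠] (0 : ℂ), γ t ∈ X := h1.filter_mono nhdsWithin_le_nhds
        have h5 : ∀ᶠ t in 𝓝[≠] (0 : ℂ), (γ t ∈ X) = (γ t ∈ Y ∪ Z) :=
          (hγt.mono_left nhdsWithin_le_nhds).eventually hXYZ
        obtain ⟨t, ht⟩ := (((hY'.and hZ').and h4).and h5).exists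
        obtain ⟨⟨⟨a1, a2⟩, a3⟩, a4⟩ := ht
        rw [a4] at a3
        rcases a3 with a | a
        · exact a1 a
        · exact a2 a

/-- Criterion for a branch to be a component: `D = C ∪ R` near `0`, where `R` is the zero set of
one analytic function, `C` is parametrized by an arc which stays off `R`. -/
theorem isComponent_of_param {D : Set C2} {f r : C2 → ℂ} (hf : AnalyticAt ℂ f 0)
    (hr : AnalyticAt ℂ r 0) {γ : ℂ → C2} (hγ : AnalyticAt ℂ γ 0) (hγ0 : γ 0 = 0)
    (hD : ∀ᶠ z in 𝓝 (0 : C2), z ∈ D ↔ f z = 0 ∨ r z = 0)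
    (h1 : ∀ᶠ t in 𝓝 (0 : ℂ), f (γ t) = 0)
    (h2 : ∀ V ∈ 𝓝 (0 : ℂ), ∀ᶠ z in 𝓝 (0 : C2), f z = 0 → ∃ t ∈ V, γ t = z)
    (h3 : ∀ᶠ t in 𝓝[≠] (0 : ℂ), r (γ t) ≠ 0) :
    IsComponent D {z | f z = 0} := by
  have hirr : IsIrreducibleGerm {z | f z = 0} :=
    isIrreducibleGerm_of_param (isAnalyticGerm_zero hf) hγ hγ0 h1 h2
  have hγt : Tendsto γ (𝓝 0) (𝓝 0) := by
    have := hγ.continuousAt.tendsto
    rwa [hγ0] at this
  refine ⟨hirr, ?_, ?_⟩
  · filter_upwards [hD] with z hz hzf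
    exact hz.2 (Or.inl hzf)
  · intro C' hC' hsub hC'D
    obtain ⟨hC'a, hC'0, hC'irr⟩ := hC'
    have hsplit : C' =ᶠ[𝓝 0] ((C' ∩ {z | f z = 0}) ∪ (C' ∩ {z | r z = 0}) : Set C2) := by
      filter_upwards [hD, hC'D] with z hz hz'
      apply propext
      constructor
      · intro hzC
        rcases hz.1 (hz' hzC) with h | h
        · exact Or.inl ⟨hzC, h⟩
        · exact Or.inr ⟨hzC, h⟩
      · rintro (h | h)
        · exact h.1
        · exact h.1
    rcases hC'irr _ _ (hC'a.inter_zero hf) (hC'a.inter_zero hr) hsplit with h | h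
    · filter_upwards [h, hsub] with z hz hz'
      apply propext
      constructor
      · intro hzC
        have e : (z ∈ C') = (z ∈ C' ∩ {z | f z = 0}) := hz
        have hzC' : z ∈ C' := hzC
        rw [e] at hzC'
        exact hzC'.2
      · exact hz'
    · exfalso
      have a1 : ∀ᶠ t in 𝓝[≠] (0 : ℂ), γ t ∈ {z | f z = 0} := h1.filter_mono nhdsWithin_le_nhds
      have a2 : ∀ᶠ t in 𝓝[≠] (0 : ℂ), γ t ∈ {z | f z = 0} → γ t ∈ C' :=
        (hγt.mono_left nhdsWithin_le_nhds).eventually hsub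
      have a3 : ∀ᶠ t in 𝓝[≠] (0 : ℂ), (γ t ∈ C') = (γ t ∈ C' ∩ {z | r z = 0}) :=
        (hγt.mono_left nhdsWithin_le_nhds).eventually h
      obtain ⟨t, ⟨⟨⟨b1, b2⟩, b3⟩, b4⟩⟩ := (((a1.and a2).and a3).and h3).exists
      have b5 := b2 b1
      rw [b3] at b5
      exact b4 b5.2

/-! ### The double point set -/

/-- equation of the double point set of `Phi` -/
def DD : Set C2 := {z | (z.2 ^ 2 - z.1) * (z.2 ^ 4 - (z.1 - z.1 ^ 2) * z.2 ^ 2 + z.1 ^ 4) = 0}

theorem mem_DD_of_double {p p' : C2} (hne : p' ≠ p) (h : Phi p' = Phi p) :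
    p'.1 = p.1 ∧ ((p'.2 = -p.2 ∧ p.2 ^ 2 = p.1) ∨
      (p.2 * p'.2 = p.1 ^ 2 ∧ p'.2 ^ 2 = p.1 - p.1 ^ 2 - p.2 ^ 2 ∧
        p.2 ^ 4 - (p.1 - p.1 ^ 2) * p.2 ^ 2 + p.1 ^ 4 = 0)) := by
  obtain ⟨x, y⟩ := p
  obtain ⟨x', y'⟩ := p'
  simp only [Phi, Prod.mk.injEq] at h
  obtain ⟨rfl, h2, h3⟩ := h
  have hy : y' - y ≠ 0 := by
    intro hy
    apply hne
    have : y' = y := sub_eq_zero.1 hy
    rw [this]
  simp only
  refine ⟨trivial, ?_⟩
  have e1 : y' ^ 2 + y * y' + y ^ 2 - x' = 0 := by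
    have : (y' - y) * (y' ^ 2 + y * y' + y ^ 2 - x') = 0 := by linear_combination h2
    rcases mul_eq_zero.1 this with h | h
    · exact absurd h hy
    · exact h
  have e2 : (y' + y) * (y' ^ 2 + y ^ 2 - (x' - x' ^ 2)) = 0 := by
    have : (y' - y) * ((y' + y) * (y' ^ 2 + y ^ 2 - (x' - x' ^ 2))) = 0 := by
      linear_combination h3
    rcases mul_eq_zero.1 this with h | h
    · exact absurd h hy
    · exact h
  rcases mul_eq_zero.1 e2 with h | h
  · left
    have hy' : y' = -y := by linear_combination h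
    refine ⟨hy', ?_⟩
    rw [hy'] at e1
    linear_combination e1
  · right
    have a1 : y * y' = x' ^ 2 := by linear_combination e1 - h
    have a2 : y' ^ 2 = x' - x' ^ 2 - y ^ 2 := by linear_combination h
    refine ⟨a1, a2, ?_⟩
    have a3 : y ^ 2 * y' ^ 2 = x' ^ 4 := by linear_combination (y * y' + x' ^ 2) * a1
    rw [a2] at a3
    linear_combination -a3

theorem Phi_neg {x y : ℂ} (h : y ^ 2 = x) : Phi (x, -y) = Phi (x, y) := by
  simp only [Phi, Prod.mk.injEq]
  refine ⟨trivial, ?_, ?_⟩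
  · linear_combination (-2 * y) * h
  · ring

theorem Phi_partner {x y y' : ℂ} (h1 : y * y' = x ^ 2) (h2 : y' ^ 2 = x - x ^ 2 - y ^ 2) :
    Phi (x, y') = Phi (x, y) := by
  have a3 : y ^ 2 * y' ^ 2 = x ^ 4 := by linear_combination (y * y' + x ^ 2) * h1
  simp only [Phi, Prod.mk.injEq]
  refine ⟨trivial, ?_, ?_⟩
  · linear_combination (y' - y) * (h2 + h1)
  · linear_combination (y' ^ 2 - y ^ 2) * h2

/-- partners of small points are small -/
theorem partner_small {U : Set C2} (hU : U ∈ 𝓝 (0 : C2)) :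
    ∀ᶠ z in 𝓝 (0 : C2), (z.1, -z.2) ∈ U ∧
      ∀ y' : ℂ, y' ^ 2 = z.1 - z.1 ^ 2 - z.2 ^ 2 → (z.1, y') ∈ U := by
  obtain ⟨r, hr, hball⟩ := Metric.mem_nhds_iff.1 hU
  have h1 : ∀ᶠ z in 𝓝 (0 : C2), ‖z‖ < r := by
    have : Tendsto (fun z : C2 => ‖z‖) (𝓝 0) (𝓝 ‖(0 : C2)‖) := continuous_norm.tendsto _
    rw [norm_zero] at this
    exact this.eventually (eventually_lt_nhds hr)
  have h2 : ∀ᶠ z in 𝓝 (0 : C2), ‖z.1 - z.1 ^ 2 - z.2 ^ 2‖ < r ^ 2 := by
    have hc : Continuous (fun z : C2 => ‖z.1 - z.1 ^ 2 - z.2 ^ 2‖) := by fun_prop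
    have : Tendsto (fun z : C2 => ‖z.1 - z.1 ^ 2 - z.2 ^ 2‖) (𝓝 0) (𝓝 0) :=
      hc.tendsto' 0 0 (by simp)
    exact this.eventually (eventually_lt_nhds (by positivity))
  filter_upwards [h1, h2] with z hz1 hz2
  have hz11 : ‖z.1‖ < r := lt_of_le_of_lt (norm_fst_le z) hz1
  have hz12 : ‖z.2‖ < r := lt_of_le_of_lt (norm_snd_le z) hz1
  constructor
  · apply hball
    rw [mem_ball_zero_iff, Prod.norm_def]
    exact max_lt hz11 (by simpa using hz12)
  · intro y' hy'
    apply hball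
    rw [mem_ball_zero_iff, Prod.norm_def]
    refine max_lt hz11 ?_
    simp only
    have : ‖y'‖ ^ 2 < r ^ 2 := by rw [← norm_pow, hy']; exact hz2
    exact lt_of_pow_lt_pow_left₀ 2 hr.le this

theorem isClosed_DD : IsClosed DD := by
  unfold DD
  exact isClosed_eq (by fun_prop) continuous_const

theorem isDoublePointGerm_DD : IsDoublePointGerm Phi DD := by
  refine ⟨Set.univ, univ_mem, fun U hU _ => ?_⟩
  have hsmall := partner_small hU
  have hx : ∀ᶠ z in 𝓝 (0 : C2), z.1 ≠ 1 / 3 := by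
    have : ContinuousAt (fun z : C2 => z.1) 0 := by fun_prop
    exact this.eventually_ne (by simp)
  filter_upwards [hsmall, hx, hU] with z hz hzx hzU
  apply propext
  constructor
  · intro hmem
    have hsub : {p | p ∈ U ∧ ∃ p' ∈ U, p' ≠ p ∧ Phi p' = Phi p} ⊆ DD := by
      rintro p ⟨_, p', _, hne, hPhi⟩
      obtain ⟨_, h | h⟩ := mem_DD_of_double hne hPhi
      · show (p.2 ^ 2 - p.1) * _ = 0
        rw [h.2]; ring
      · show (p.2 ^ 2 - p.1) * _ = 0
        rw [h.2.2]; ring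
    exact closure_minimal hsub isClosed_DD hmem
  · intro hmem
    have hmem' : (z.2 ^ 2 - z.1) * (z.2 ^ 4 - (z.1 - z.1 ^ 2) * z.2 ^ 2 + z.1 ^ 4) = 0 := hmem
    by_cases hz0 : z = 0
    · -- the origin is a limit of double points
      subst hz0
      show (0 : C2) ∈ closure _
      rw [mem_closure_iff_nhds]
      intro W hW
      have hWs := partner_small (Filter.inter_mem hU hW)
      have ht : Tendsto (fun t : ℂ => ((t ^ 2, t) : C2)) (𝓝[≠] 0) (𝓝 0) := by
        have : Continuous (fun t : ℂ => ((t ^ 2, t) : C2)) := by fun_prop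
        exact (this.tendsto' 0 0 (by simp [Prod.ext_iff])).mono_left nhdsWithin_le_nhds
      have hUW : ∀ᶠ z in 𝓝 (0 : C2), z ∈ U ∩ W := Filter.inter_mem hU hW
      obtain ⟨t, ⟨ht1, ht2⟩, ht3⟩ := (((ht.eventually hWs).and (ht.eventually hUW)).and
        self_mem_nhdsWithin).exists
      have ht3 : t ≠ 0 := ht3
      refine ⟨(t ^ 2, t), ht2.2, ht2.1, (t ^ 2, -t), ht1.1.1, ?_, Phi_neg rfl⟩
      intro h
      have h' : -t = t := congrArg Prod.snd h
      apply ht3
      linear_combination (-(1 / 2)) * h'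
    · apply subset_closure
      refine ⟨hzU, ?_⟩
      rcases mul_eq_zero.1 hmem' with h | h
      · -- `y² = x`
        refine ⟨(z.1, -z.2), hz.1, ?_, Phi_neg (by linear_combination h)⟩
        intro h'
        have h2 : -z.2 = z.2 := congrArg Prod.snd h'
        have h3 : z.2 = 0 := by linear_combination (-(1 / 2)) * h2
        apply hz0
        have h4 : z.1 = 0 := by
          have : z.2 ^ 2 = z.1 := by linear_combination h
          rw [← this, h3]; ring
        exact Prod.ext h4 h3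
      · -- `y ≠ 0`
        have hy : z.2 ≠ 0 := by
          intro hy
          rw [hy] at h
          have : z.1 ^ 4 = 0 := by linear_combination h
          exact hz0 (Prod.ext (pow_eq_zero_iff (by norm_num) |>.1 this) hy)
        have e1 : z.2 * (z.1 ^ 2 / z.2) = z.1 ^ 2 := mul_div_cancel₀ _ hy
        have e2 : (z.1 ^ 2 / z.2) ^ 2 = z.1 - z.1 ^ 2 - z.2 ^ 2 := by
          field_simp
          linear_combination h
        refine ⟨(z.1, z.1 ^ 2 / z.2), hz.2 _ e2, ?_, Phi_partner e1 e2⟩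
        intro h'
        have h2 : z.1 ^ 2 / z.2 = z.2 := congrArg Prod.snd h'
        rw [h2] at e1
        have e3 : z.2 ^ 2 = z.1 ^ 2 := by linear_combination e1
        have e4 : z.1 ^ 3 * (3 * z.1 - 1) = 0 := by
          have : z.2 ^ 4 = z.1 ^ 4 := by linear_combination (z.2 ^ 2 + z.1 ^ 2) * e3
          rw [this, e3] at h
          linear_combination h
        rcases mul_eq_zero.1 e4 with h5 | h5
        · have hx0 : z.1 = 0 := pow_eq_zero_iff (by norm_num) |>.1 h5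
          apply hy
          rw [hx0] at e3
          have : z.2 ^ 2 = 0 := by linear_combination e3
          exact pow_eq_zero_iff (by norm_num) |>.1 this
        · apply hzx
          linear_combination (1 / 3) * h5

end

end Pool.Agent.Lib.MP_729182_ag
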