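import Pool.Agent.Lib.MP_729182_ag.PS

/-!
Coefficients of an analytic germ on `ℂ × ℂ`.
-/

set_option autoImplicit false
set_option linter.unusedSectionVars false

namespace Pool.Agent.Lib.MP_729182_ag

open Filter Topology Asymptotics

noncomputable section

/-- The coefficient of `x ^ i y ^ (n - i)` of a formal series. -/
def coefAux (p : FormalMultilinearSeries ℂ (ℂ × ℂ) ℂ) (n i : ℕ) : ℂ :=
  ∑ s ∈ (Finset.univ : Finset (Finset (Fin n))).filter (fun s => s.card = i),
    p n (s.piecewise (fun _ => ((1 : ℂ), (0 : ℂ))) (fun _ => ((0 : ℂ), (1 : ℂ))))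

theorem apply_eq_coefAux (p : FormalMultilinearSeries ℂ (ℂ × ℂ) ℂ) (n : ℕ) (z : ℂ × ℂ) :
    p n (fun _ => z)
      = ∑ i ∈ Finset.range (n + 1), coefAux p n i * (z.1 ^ i * z.2 ^ (n - i)) := by
  classical
  have hz : (fun _ : Fin n => z)
      = (fun _ : Fin n => z.1 • ((1 : ℂ), (0 : ℂ))) + (fun _ : Fin n => z.2 • ((0 : ℂ), (1 : ℂ))) := by
    funext k; ext <;> simp
  rw [hz, ContinuousMultilinearMap.map_add_univ]
  have hterm : ∀ s : Finset (Fin n),
      p n (s.piecewise (fun _ : Fin n => z.1 • ((1 : ℂ), (0 : ℂ)))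
        (fun _ : Fin n => z.2 • ((0 : ℂ), (1 : ℂ))))
      = z.1 ^ s.card * z.2 ^ (n - s.card) *
        p n (s.piecewise (fun _ => ((1 : ℂ), (0 : ℂ))) (fun _ => ((0 : ℂ), (1 : ℂ)))) := by
    intro s
    have h1 : (s.piecewise (fun _ : Fin n => z.1 • ((1 : ℂ), (0 : ℂ)))
        (fun _ : Fin n => z.2 • ((0 : ℂ), (1 : ℂ))))
        = fun k => (s.piecewise (fun _ => z.1) (fun _ => z.2) k : ℂ) •
          (s.piecewise (fun _ => ((1 : ℂ), (0 : ℂ))) (fun _ => ((0 : ℂ), (1 : ℂ))) k) := by
      funext k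
      by_cases hk : k ∈ s <;> simp [Finset.piecewise, hk]
    rw [h1, ContinuousMultilinearMap.map_smul_univ, smul_eq_mul]
    congr 1
    rw [Finset.prod_piecewise]
    simp [Finset.card_sdiff, Finset.inter_univ]
  simp only [hterm]
  rw [← Finset.sum_fiberwise_of_maps_to (s := (Finset.univ : Finset (Finset (Fin n))))
    (t := Finset.range (n + 1)) (g := fun s => s.card)]
  · refine Finset.sum_congr rfl fun i _ => ?_
    rw [coefAux, Finset.sum_mul]
    refine Finset.sum_congr rfl fun s hs => ?_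
    rw [(Finset.mem_filter.1 hs).2]
    ring
  · intro s _
    have := Finset.card_le_univ s
    simp only [Fintype.card_fin] at this
    exact Finset.mem_range.2 (by omega)

theorem norm_coefAux_le (p : FormalMultilinearSeries ℂ (ℂ × ℂ) ℂ) (n i : ℕ) :
    ‖coefAux p n i‖ ≤ 2 ^ n * ‖p n‖ := by
  classical
  refine (norm_sum_le _ _).trans ?_
  have hb : ∀ s ∈ (Finset.univ : Finset (Finset (Fin n))).filter (fun s => s.card = i),
      ‖p n (s.piecewise (fun _ => ((1 : ℂ), (0 : ℂ))) (fun _ => ((0 : ℂ), (1 : ℂ))))‖ ≤ ‖p n‖ := by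
    intro s _
    refine ((p n).le_opNorm _).trans ?_
    have : ∏ k : Fin n, ‖(s.piecewise (fun _ => ((1 : ℂ), (0 : ℂ)))
        (fun _ => ((0 : ℂ), (1 : ℂ))) k : ℂ × ℂ)‖ = 1 := by
      refine Finset.prod_eq_one fun k _ => ?_
      by_cases hk : k ∈ s <;> simp [Finset.piecewise, hk, Prod.norm_def]
    rw [this, mul_one]
  refine (Finset.sum_le_card_nsmul _ _ _ hb).trans ?_
  rw [nsmul_eq_mul]
  refine mul_le_mul_of_nonneg_right ?_ (norm_nonneg _)
  have h1 : ((Finset.univ : Finset (Finset (Fin n))).filter (fun s => s.card = i)).card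
      ≤ Fintype.card (Finset (Fin n)) := Finset.card_le_univ _
  rw [Fintype.card_finset, Fintype.card_fin] at h1
  exact_mod_cast h1

/-- Expansion of an analytic germ as a double power series; if the germ is `O(‖z‖ ^ N)` then
the coefficients of total degree less than `N` vanish. -/
theorem exists_coeff {f : ℂ × ℂ → ℂ} (hf : AnalyticAt ℂ f 0) :
    ∃ (c : ℕ × ℕ → ℂ) (C R : ℝ), 0 < R ∧ (∀ ij, ‖c ij‖ ≤ C * R ^ (ij.1 + ij.2)) ∧
      (∀ᶠ z in 𝓝 (0 : ℂ × ℂ), HasSum (fun n : ℕ => ∑ ij ∈ Finset.HasAntidiagonal.antidiagonal n,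
        c ij * (z.1 ^ ij.1 * z.2 ^ ij.2)) (f z)) ∧
      (∀ N : ℕ, f =O[𝓝 0] (fun z => ‖z‖ ^ N) → ∀ i j, i + j < N → c (i, j) = 0) := by
  obtain ⟨p, hp⟩ := hf
  obtain ⟨r, hr⟩ := hp
  obtain ⟨ρ, hρ0, hρ⟩ := ENNReal.lt_iff_exists_nnreal_btwn.1 hr.r_pos
  have hρ0' : (0 : ℝ) < ρ := by exact_mod_cast hρ0
  obtain ⟨C, hC, hCn⟩ := p.norm_mul_pow_le_of_lt_radius (hρ.trans_le hr.r_le)
  have hcast : ∀ n i, i ≤ n → coefAux p (i + (n - i)) i = coefAux p n i := by
    intro n i hi
    rw [Nat.add_sub_cancel' hi]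
  have hsumeq : ∀ (n : ℕ) (z : ℂ × ℂ), p n (fun _ => z)
      = ∑ ij ∈ Finset.HasAntidiagonal.antidiagonal n,
        coefAux p (ij.1 + ij.2) ij.1 * (z.1 ^ ij.1 * z.2 ^ ij.2) := by
    intro n z
    rw [Finset.Nat.sum_antidiagonal_eq_sum_range_succ_mk, apply_eq_coefAux]
    refine Finset.sum_congr rfl fun i hi => ?_
    have hi' : i ≤ n := by have := Finset.mem_range.1 hi; omega
    simp only [hcast n i hi']
  refine ⟨fun ij => coefAux p (ij.1 + ij.2) ij.1, C, 2 / ρ, by positivity, ?_, ?_, ?_⟩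
  · intro ij
    set n := ij.1 + ij.2
    refine (norm_coefAux_le p n ij.1).trans ?_
    have h1 := hCn n
    have h2 : ‖p n‖ ≤ C / (ρ : ℝ) ^ n := by
      rw [le_div_iff₀ (by positivity)]; exact h1
    calc 2 ^ n * ‖p n‖ ≤ 2 ^ n * (C / (ρ : ℝ) ^ n) := by gcongr
      _ = C * (2 / ρ) ^ n := by rw [div_pow]; ring
  · have := hr.eventually_hasSum
    simp only [zero_add] at this
    filter_upwards [this] with z hz
    simpa only [hsumeq] using hz
  · intro N hN i j hij
    have hall : ∀ n, n < N → ∀ z : ℂ × ℂ, p n (fun _ => z) = 0 := by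
      intro n
      induction n using Nat.strong_induction_on with
      | _ n ih =>
        intro hn z
        have h1 := (hr.hasFPowerSeriesAt).isBigO_sub_partialSum_pow (n + 1)
        simp only [zero_add] at h1
        have h2 : ∀ y : ℂ × ℂ, p.partialSum (n + 1) y = p n (fun _ => y) := by
          intro y
          rw [FormalMultilinearSeries.partialSum, Finset.sum_range_succ, Finset.sum_eq_zero,
            zero_add]
          intro k hk
          have hk' := Finset.mem_range.1 hk
          exact ih k hk' (hk'.trans hn) y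
        have h3 : (fun y : ℂ × ℂ => p n (fun _ => y)) =O[𝓝 0] fun y => ‖y‖ ^ (n + 1) := by
          have h4 : f =O[𝓝 0] fun y : ℂ × ℂ => ‖y‖ ^ (n + 1) := by
            refine hN.trans ?_
            refine IsBigO.of_bound 1 ?_
            have : ∀ᶠ y : ℂ × ℂ in 𝓝 0, ‖y‖ < 1 := by
              have : Tendsto (fun y : ℂ × ℂ => ‖y‖) (𝓝 0) (𝓝 ‖(0 : ℂ × ℂ)‖) :=
                continuous_norm.tendsto _
              rw [norm_zero] at this
              exact this.eventually (eventually_lt_nhds one_pos)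
            filter_upwards [this] with y hy
            rw [one_mul, Real.norm_of_nonneg (by positivity), Real.norm_of_nonneg (by positivity)]
            exact pow_le_pow_of_le_one (norm_nonneg _) hy.le (by omega)
          have h5 := h4.sub h1
          refine h5.congr' ?_ EventuallyEq.rfl
          filter_upwards with y
          rw [h2]; ring
        exact h3.continuousMultilinearMap_apply_eq_zero z
    have h0 : ∀ x : ℂ, ∑ i' ∈ Finset.range (i + j + 1), coefAux p (i + j) i' * x ^ i' = 0 := by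
      intro x
      have := hall (i + j) hij (x, 1)
      rw [apply_eq_coefAux] at this
      simpa using this
    set P : Polynomial ℂ :=
      ∑ i' ∈ Finset.range (i + j + 1), Polynomial.C (coefAux p (i + j) i') * Polynomial.X ^ i'
      with hP
    have hP0 : P = 0 := by
      refine Polynomial.funext fun x => ?_
      rw [hP, Polynomial.eval_finset_sum]
      simpa using h0 x
    have hc : P.coeff i = coefAux p (i + j) i := by
      rw [hP, Polynomial.finset_sum_coeff]
      rw [Finset.sum_eq_single i]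
      · simp
      · intro b _ hb
        simp [Polynomial.coeff_X_pow, hb.symm]
      · intro hi
        exact absurd (Finset.mem_range.2 (by omega)) hi
    show coefAux p (i + j) i = 0
    rw [← hc, hP0, Polynomial.coeff_zero]

end

end Pool.Agent.Lib.MP_729182_ag
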