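import Mathlib

/-!
Definitions for problem MP_729182_ag: finitely determined map germs `(ℂ², 0) → (ℂ³, 0)`, their
double point sets, branches, and topological equivalence of plane curve germs.
Germs at `0` are represented by functions or sets, considered up to equality near `0`.
-/

set_option autoImplicit false

namespace Pool.Agent.Lib.MP_729182_ag

open Filter Topology Asymptotics

/-- The plane `ℂ²`. -/
abbrev C2 : Type := ℂ × ℂ

/-- The space `ℂ³`. -/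
abbrev C3 : Type := ℂ × ℂ × ℂ

/-- `φ` represents a biholomorphic germ `(E, 0) → (E, 0)`: it is analytic at `0`, fixes `0`, and
has an analytic two-sided inverse germ. -/
def IsBiholGerm {E : Type*} [NormedAddCommGroup E] [NormedSpace ℂ E] (φ : E → E) : Prop :=
  AnalyticAt ℂ φ 0 ∧ φ 0 = 0 ∧ ∃ χ : E → E, AnalyticAt ℂ χ 0 ∧ χ 0 = 0 ∧
    (∀ᶠ z in 𝓝 0, χ (φ z) = z) ∧ (∀ᶠ z in 𝓝 0, φ (χ z) = z)

/-- `Ψ` has the same `k`-jet at `0` as `Φ` (for analytic germs: their Taylor expansions agree up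
to and including order `k`). -/
def SameJet (k : ℕ) (Φ Ψ : C2 → C3) : Prop :=
  (fun z => Ψ z - Φ z) =O[𝓝 0] (fun z => ‖z‖ ^ (k + 1))

/-- `Φ` is finitely `𝒜`-determined: for some `k`, every analytic germ with the same `k`-jet
equals `ψ ∘ Φ ∘ φ` for biholomorphic germs `φ`, `ψ`. -/
def FinitelyDetermined (Φ : C2 → C3) : Prop :=
  ∃ k : ℕ, ∀ Ψ : C2 → C3, AnalyticAt ℂ Ψ 0 → SameJet k Φ Ψ →
    ∃ (φ : C2 → C2) (ψ : C3 → C3), IsBiholGerm φ ∧ IsBiholGerm ψ ∧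
      ∀ᶠ z in 𝓝 0, Ψ z = ψ (Φ (φ z))

/-- The double point set of the representative of `Φ` on `U`. -/
def doublePointSet (Φ : C2 → C3) (U : Set C2) : Set C2 :=
  closure {p | p ∈ U ∧ ∃ p' ∈ U, p' ≠ p ∧ Φ p' = Φ p}

/-- The set `D` represents the germ at `0` of the double point set of `Φ`: it agrees near `0`
with the double point set of every sufficiently small representative. -/
def IsDoublePointGerm (Φ : C2 → C3) (D : Set C2) : Prop :=
  ∃ U₀ ∈ 𝓝 (0 : C2), ∀ U ∈ 𝓝 (0 : C2), U ⊆ U₀ → doublePointSet Φ U =ᶠ[𝓝 0] D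

/-- `X` represents an analytic set germ at `0`: near `0` it is the set of common zeros of finitely
many analytic functions. -/
def IsAnalyticGerm (X : Set C2) : Prop :=
  ∃ (n : ℕ) (F : C2 → (Fin n → ℂ)), AnalyticAt ℂ F 0 ∧ ∀ᶠ z in 𝓝 0, z ∈ X ↔ F z = 0

/-- `X` represents an irreducible analytic set germ at `0`. -/
def IsIrreducibleGerm (X : Set C2) : Prop :=
  IsAnalyticGerm X ∧ (0 : C2) ∈ X ∧
    ∀ Y Z : Set C2, IsAnalyticGerm Y → IsAnalyticGerm Z → X =ᶠ[𝓝 0] (Y ∪ Z : Set C2) →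
      X =ᶠ[𝓝 0] Y ∨ X =ᶠ[𝓝 0] Z

/-- `C` represents an irreducible component of the analytic set germ `D`: a maximal irreducible
analytic subgerm. -/
def IsComponent (D C : Set C2) : Prop :=
  IsIrreducibleGerm C ∧ (∀ᶠ z in 𝓝 0, z ∈ C → z ∈ D) ∧
    ∀ C' : Set C2, IsIrreducibleGerm C' → (∀ᶠ z in 𝓝 0, z ∈ C → z ∈ C') →
      (∀ᶠ z in 𝓝 0, z ∈ C' → z ∈ D) → C' =ᶠ[𝓝 0] C

/-- The involution of the double point set sends the germ `C` into the germ `C'`: for every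
neighbourhood `U` of `0`, every point `p ≠ 0` of `C` close enough to `0` has exactly one partner
`p' ≠ p` in `U` with `Φ p' = Φ p`, and `p'` lies in `C'`. -/
def InvolutionMaps (Φ : C2 → C3) (C C' : Set C2) : Prop :=
  ∃ U₀ ∈ 𝓝 (0 : C2), ∀ U ∈ 𝓝 (0 : C2), U ⊆ U₀ → ∀ᶠ p in 𝓝 0, p ∈ C → p ≠ 0 →
    (∃! p', p' ∈ U ∧ p' ≠ p ∧ Φ p' = Φ p) ∧ ∀ p' ∈ U, p' ≠ p → Φ p' = Φ p → p' ∈ C'

/-- Topological equivalence of the plane set germs `(C, 0)` and `(C', 0)`: some homeomorphism germ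
`h` of `(ℂ², 0)` satisfies `h(C) = C'`. -/
def TopEquiv (C C' : Set C2) : Prop :=
  ∃ h : OpenPartialHomeomorph C2 C2, (0 : C2) ∈ h.source ∧ h 0 = 0 ∧
    ∀ᶠ z in 𝓝 0, z ∈ C ↔ h z ∈ C'

end Pool.Agent.Lib.MP_729182_ag
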