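import Pool.Agent.Lib.MP_729182_ag.Defs

/-!
Analytic germs tangent to the identity, and an analytic implicit function theorem.
-/

set_option autoImplicit false
set_option linter.unusedSectionVars false

namespace Pool.Agent.Lib.MP_729182_ag

open Filter Topology Asymptotics
open scoped ContDiff

section Tang

variable {E : Type*} [NormedAddCommGroup E] [NormedSpace ℂ E]
variable {F : Type*} [NormedAddCommGroup F] [NormedSpace ℂ F]
variable {G : Type*} [NormedAddCommGroup G] [NormedSpace ℂ G]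

theorem eq_zero_of_isBigO_pow {f : E → F} {n : ℕ} (hn : n ≠ 0)
    (h : f =O[𝓝 0] (fun z => ‖z‖ ^ n)) : f 0 = 0 := by
  obtain ⟨C, hC⟩ := h.bound
  have := hC.self_of_nhds
  simp [hn] at this
  exact this

theorem isBigO_pow_mono {f : E → F} {m n : ℕ} (hmn : m ≤ n)
    (h : f =O[𝓝 0] (fun z => ‖z‖ ^ n)) : f =O[𝓝 0] (fun z => ‖z‖ ^ m) := by
  refine h.trans ?_
  refine IsBigO.of_bound 1 ?_
  have : ∀ᶠ y : E in 𝓝 0, ‖y‖ < 1 := by
    have : Tendsto (fun y : E => ‖y‖) (𝓝 0) (𝓝 ‖(0 : E)‖) := continuous_norm.tendsto _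
    rw [norm_zero] at this
    exact this.eventually (eventually_lt_nhds one_pos)
  filter_upwards [this] with y hy
  rw [one_mul, Real.norm_of_nonneg (by positivity), Real.norm_of_nonneg (by positivity)]
  exact pow_le_pow_of_le_one (norm_nonneg _) hy.le hmn

theorem AnalyticAt.isBigO_id {f : E → F} (hf : AnalyticAt ℂ f 0) (h0 : f 0 = 0) :
    f =O[𝓝 0] (fun z => ‖z‖ ^ 1) := by
  have := hf.differentiableAt.isBigO_sub
  simp only [h0, sub_zero] at this
  simpa using this.norm_right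

theorem AnalyticAt.isBigO_zero {f : E → F} (hf : AnalyticAt ℂ f 0) :
    f =O[𝓝 0] (fun z => ‖z‖ ^ 0) := by
  simpa using hf.continuousAt.tendsto.isBigO_one ℝ

theorem isBigO_pow_mul {f g : E → ℂ} {m n : ℕ} (hf : f =O[𝓝 0] (fun z => ‖z‖ ^ m))
    (hg : g =O[𝓝 0] (fun z => ‖z‖ ^ n)) :
    (fun z => f z * g z) =O[𝓝 0] (fun z => ‖z‖ ^ (m + n)) := by
  have := hf.mul hg
  simpa only [← pow_add] using this

theorem isBigO_pow_comp {f : F → G} {g : E → F} {m n : ℕ} (hm : m ≠ 0)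
    (hf : f =O[𝓝 0] (fun z => ‖z‖ ^ n)) (hg : g =O[𝓝 0] (fun z => ‖z‖ ^ m)) :
    (fun z => f (g z)) =O[𝓝 0] (fun z => ‖z‖ ^ (m * n)) := by
  have ht : Tendsto g (𝓝 0) (𝓝 0) := by
    refine hg.trans_tendsto ?_
    have : Tendsto (fun y : E => ‖y‖ ^ m) (𝓝 0) (𝓝 (‖(0 : E)‖ ^ m)) :=
      (continuous_norm.pow m).tendsto _
    simpa [hm] using this
  have h1 := hf.comp_tendsto ht
  refine h1.trans ?_
  have h2 := hg.norm_left.pow n
  simpa only [Function.comp_def, ← pow_mul] using h2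

theorem hasFDerivAt_of_isBigO {f : E → F} {L : E →L[ℂ] F}
    (h : (fun z => f z - L z) =O[𝓝 0] (fun z => ‖z‖ ^ 2)) : HasFDerivAt f L 0 := by
  have h0 : f 0 = 0 := by
    have := eq_zero_of_isBigO_pow two_ne_zero h
    simpa using this
  rw [hasFDerivAt_iff_isLittleO_nhds_zero]
  simp only [zero_add, h0, sub_zero]
  refine h.trans_isLittleO ?_
  exact isLittleO_norm_pow_id one_lt_two

/-- analytic germ tangent to the identity -/
def Tang (φ : E → E) : Prop :=
  AnalyticAt ℂ φ 0 ∧ (fun z => φ z - z) =O[𝓝 0] (fun z => ‖z‖ ^ 2)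

theorem Tang.zero {φ : E → E} (h : Tang φ) : φ 0 = 0 := by
  simpa using eq_zero_of_isBigO_pow two_ne_zero h.2

theorem Tang.isBigO_id {φ : E → E} (h : Tang φ) : φ =O[𝓝 0] (fun z => ‖z‖ ^ 1) :=
  AnalyticAt.isBigO_id h.1 h.zero

theorem Tang.tendsto {φ : E → E} (h : Tang φ) : Tendsto φ (𝓝 0) (𝓝 0) := by
  have := h.1.continuousAt.tendsto
  rwa [h.zero] at this

theorem Tang.hasFDerivAt {φ : E → E} (h : Tang φ) :
    HasFDerivAt φ (ContinuousLinearMap.id ℂ E) 0 :=
  hasFDerivAt_of_isBigO (by simpa using h.2)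

theorem Tang.comp {φ χ : E → E} (hφ : Tang φ) (hχ : Tang χ) : Tang (fun z => φ (χ z)) := by
  refine ⟨hφ.1.comp_of_eq hχ.1 hχ.zero, ?_⟩
  have h1 : (fun z => φ (χ z) - χ z) =O[𝓝 0] (fun z => ‖z‖ ^ 2) := by
    have := isBigO_pow_comp (f := fun z => φ z - z) (g := χ) one_ne_zero hφ.2 hχ.isBigO_id
    simpa using this
  refine (h1.add hχ.2).congr_left fun z => ?_
  abel

theorem Tang.exists_inv [CompleteSpace E] {φ : E → E} (h : Tang φ) :
    ∃ χ : E → E, Tang χ ∧ (∀ᶠ z in 𝓝 0, χ (φ z) = z) ∧ (∀ᶠ z in 𝓝 0, φ (χ z) = z) := by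
  have hcd : ContDiffAt ℂ ω φ 0 := h.1.contDiffAt
  have hfd : HasFDerivAt φ ((ContinuousLinearEquiv.refl ℂ E : E ≃L[ℂ] E) : E →L[ℂ] E) 0 := by
    simpa using h.hasFDerivAt
  set e := hcd.toOpenPartialHomeomorph φ hfd (by simp) with he
  have he0 : (0 : E) ∈ e.source := hcd.mem_toOpenPartialHomeomorph_source hfd (by simp)
  have hecoe : (e : E → E) = φ := rfl
  have ht0 : (0 : E) ∈ e.target := by
    have := e.map_source he0
    rwa [hecoe, h.zero] at this
  have hs0 : e.symm 0 = 0 := by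
    have := e.left_inv he0
    rwa [hecoe, h.zero] at this
  have hana : AnalyticAt ℂ e.symm 0 := by
    refine e.analyticAt_symm (i := ContinuousLinearEquiv.refl ℂ E) ht0 ?_ ?_
    · rw [hs0, hecoe]; exact h.1
    · rw [hs0, hecoe]; exact hfd.fderiv
  have hl : ∀ᶠ z in 𝓝 0, e.symm (φ z) = z := e.eventually_left_inverse he0
  have hr : ∀ᶠ z in 𝓝 0, φ (e.symm z) = z := e.eventually_right_inverse ht0
  refine ⟨e.symm, ⟨hana, ?_⟩, hl, hr⟩
  have h1 : (fun z => φ (e.symm z) - e.symm z) =O[𝓝 0] (fun z => ‖z‖ ^ 2) := by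
    have := isBigO_pow_comp (f := fun z => φ z - z) (g := e.symm) one_ne_zero h.2
      (AnalyticAt.isBigO_id hana hs0)
    simpa using this
  refine h1.neg_left.congr' ?_ EventuallyEq.rfl
  filter_upwards [hr] with z hz
  rw [hz]; abel

theorem Tang.isBiholGerm [CompleteSpace E] {φ : E → E} (h : Tang φ) : IsBiholGerm φ := by
  obtain ⟨χ, hχ, h1, h2⟩ := h.exists_inv
  exact ⟨h.1, h.zero, χ, hχ.1, hχ.zero, h1, h2⟩

/-- Analytic implicit function theorem at the origin. -/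
theorem ift [CompleteSpace E] [FiniteDimensional ℂ F] {H : E × F → F} (hH : AnalyticAt ℂ H 0)
    (h0 : H 0 = 0) (hinj : ∀ v : F, HasDerivAt (fun t : ℂ => H (0, t • v)) 0 0 → v = 0) :
    ∃ V : E → F, AnalyticAt ℂ V 0 ∧ V 0 = 0 ∧ ∀ᶠ z in 𝓝 0, H (z, V z) = 0 := by
  have : CompleteSpace F := FiniteDimensional.complete ℂ F
  have hcd : ContDiffAt ℂ ω H (0 : E × F) := hH.contDiffAt
  have hdiff : HasFDerivAt H (fderiv ℂ H 0) 0 := hH.differentiableAt.hasFDerivAt
  set A : F →L[ℂ] F := (fderiv ℂ H 0).comp (ContinuousLinearMap.inr ℂ E F) with hA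
  have hAinj : Function.Injective A := by
    rw [injective_iff_map_eq_zero]
    intro v hv
    refine hinj v ?_
    have h1 : HasDerivAt (fun t : ℂ => ((0 : E), t • v)) ((0 : E), v) 0 := by
      have := (hasDerivAt_const (0 : ℂ) (0 : E)).prodMk ((hasDerivAt_id (0 : ℂ)).smul_const v)
      simpa using this
    have h2 : HasFDerivAt H (fderiv ℂ H 0) ((fun t : ℂ => ((0 : E), t • v)) 0) := by
      have e : (fun t : ℂ => ((0 : E), t • v)) 0 = 0 := by
        simp only [zero_smul]; rfl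
      rw [e]; exact hdiff
    have h3 := h2.comp_hasDerivAt (0 : ℂ) h1
    have h4 : (fderiv ℂ H 0) ((0 : E), v) = 0 := hv
    rw [h4] at h3
    exact h3
  have hinv : A.IsInvertible := by
    refine ⟨(LinearEquiv.ofInjectiveEndo (A : F →ₗ[ℂ] F) hAinj).toContinuousLinearEquiv, ?_⟩
    ext v
    rfl
  refine ⟨hcd.implicitFunction (by simp) hinv, ?_, ?_, ?_⟩
  · exact (hcd.contDiffAt_implicitFunction (by simp) hinv).analyticAt
  · exact hcd.implicitFunction_apply_self (by simp) hinv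
  · have := hcd.eventually_apply_implicitFunction (by simp) hinv
    rw [h0] at this
    exact this

end Tang

end Pool.Agent.Lib.MP_729182_ag
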