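import Pool.Agent.Lib.MP_729182_ag.Div
import Pool.Agent.Lib.MP_729182_ag.Tang

/-!
Finite determinacy of the germ `(x, y) ↦ (x, y³ - x y, y⁴ - x y² + x² y²)`.
-/

set_option autoImplicit false
set_option linter.unusedSectionVars false

namespace Pool.Agent.Lib.MP_729182_ag

open Filter Topology Asymptotics
open scoped ContDiff

noncomputable section

/-! ### Polynomial identities -/

/-- first component of a liftable map -/
def Xp (x P b c : ℂ) : ℂ := x * b ^ 2 + 3 * b * c * P + x ^ 2 * c ^ 2 / 3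

/-- second component of a liftable map -/
def Pp (x P b c : ℂ) : ℂ :=
  b ^ 3 * P + (2 * x ^ 2 / 3) * b ^ 2 * c + x * b * c ^ 2 * P + c ^ 3 * (P ^ 2 - 2 * x ^ 3 / 27)

/-- source component of a liftable map -/
def yp (x y b c : ℂ) : ℂ := b * y + c * (y ^ 2 - 2 * x / 3)

def K0 (x P b c : ℂ) : ℂ := (2 / 3) * Xp x P b c ^ 3

def K1 (x P b c : ℂ) : ℂ :=
  b * Pp x P b c + (2 * b * c * x / 3 + c ^ 2 * P) * Xp x P b c ^ 2

def K2 (x P b c : ℂ) : ℂ := c * Pp x P b c + (b ^ 2 - c ^ 2 * x / 3) * Xp x P b c ^ 2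

theorem idA (x y b c : ℂ) :
    yp x y b c ^ 3 - Xp x (y ^ 3 - x * y) b c * yp x y b c = Pp x (y ^ 3 - x * y) b c := by
  simp only [yp, Xp, Pp]; ring

theorem idSq (x y b c : ℂ) :
    yp x y b c ^ 2 = (2 * b * c * x / 3 + c ^ 2 * (y ^ 3 - x * y)) * y
      + (b ^ 2 - c ^ 2 * x / 3) * (y ^ 2 - 2 * x / 3) + (2 / 3) * Xp x (y ^ 3 - x * y) b c := by
  simp only [yp, Xp]; ring

theorem idB (x y b c : ℂ) :
    yp x y b c ^ 4 - Xp x (y ^ 3 - x * y) b c * yp x y b c ^ 2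
        + Xp x (y ^ 3 - x * y) b c ^ 2 * yp x y b c ^ 2
      = K0 x (y ^ 3 - x * y) b c + K1 x (y ^ 3 - x * y) b c * y
        + K2 x (y ^ 3 - x * y) b c * (y ^ 2 - 2 * x / 3) := by
  have hA := idA x y b c
  have hS := idSq x y b c
  have e : yp x y b c ^ 4 - Xp x (y ^ 3 - x * y) b c * yp x y b c ^ 2
        + Xp x (y ^ 3 - x * y) b c ^ 2 * yp x y b c ^ 2
      = (yp x y b c ^ 3 - Xp x (y ^ 3 - x * y) b c * yp x y b c) * yp x y b c
        + Xp x (y ^ 3 - x * y) b c ^ 2 * yp x y b c ^ 2 := by ring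
  rw [e, hA, hS]
  simp only [K0, K1, K2]
  simp only [yp]
  ring

theorem idC (x y k1 k2 : ℂ) :
    (k1 * y + k2 * (y ^ 2 - 2 * x / 3)) ^ 2
      = y * ((2 * x / 3) * k1 * k2 + (y ^ 3 - x * y) * k2 ^ 2)
        + (y ^ 2 - 2 * x / 3) * (k1 ^ 2 - (x / 3) * k2 ^ 2)
        + ((2 * x / 3) * k1 ^ 2 + 2 * (y ^ 3 - x * y) * k1 * k2 + (2 * x ^ 2 / 9) * k2 ^ 2) := by
  ring

/-! ### Step 1 -/

theorem an_fst {E F : Type*} [NormedAddCommGroup E] [NormedSpace ℂ E] [NormedAddCommGroup F]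
    [NormedSpace ℂ F] (x : E × F) : AnalyticAt ℂ (Prod.fst : E × F → E) x := analyticAt_fst

theorem step1 {h : ℂ × ℂ → ℂ} (ha : AnalyticAt ℂ h 0) (hO : h =O[𝓝 0] (fun z => ‖z‖ ^ 20)) :
    ∃ γ α a : ℂ × ℂ → ℂ, AnalyticAt ℂ γ 0 ∧ AnalyticAt ℂ α 0 ∧ AnalyticAt ℂ a 0 ∧
      γ =O[𝓝 0] (fun z => ‖z‖ ^ 5) ∧ α =O[𝓝 0] (fun z => ‖z‖ ^ 5) ∧
      a =O[𝓝 0] (fun z => ‖z‖ ^ 5) ∧
      ∀ᶠ w in 𝓝 (0 : ℂ × ℂ),
        (w.2 + γ (w.1, w.2 ^ 3 - w.1 * w.2)) ^ 3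
          - (w.1 + α (w.1, w.2 ^ 3 - w.1 * w.2)) * (w.2 + γ (w.1, w.2 ^ 3 - w.1 * w.2))
          + h (w.1 + α (w.1, w.2 ^ 3 - w.1 * w.2), γ (w.1, w.2 ^ 3 - w.1 * w.2) + w.2)
        = (w.2 ^ 3 - w.1 * w.2) + a (w.1, w.2 ^ 3 - w.1 * w.2) := by
  obtain ⟨v0, v1, v2, v0a, v1a, v2a, v0O, v1O, v2O, hdiv⟩ := division ha hO
  -- the map to which the implicit function theorem is applied; `w = ((x, P), (γ, α, a))`
  set T : (ℂ × ℂ) × (ℂ × ℂ × ℂ) → ℂ × ℂ × ℂ × ℂ :=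
    fun w => (w.1.1 + w.2.2.1, w.2.1, w.1.1, w.1.2) with hT
  have hTc : ContDiff ℂ ω T := by rw [hT]; fun_prop
  have hT0 : T 0 = 0 := by simp [hT]
  have hTa : AnalyticAt ℂ T 0 := hTc.contDiffAt.analyticAt
  have v0z := eq_zero_of_isBigO_pow (by norm_num) v0O
  have v1z := eq_zero_of_isBigO_pow (by norm_num) v1O
  have v2z := eq_zero_of_isBigO_pow (by norm_num) v2O
  have V0a : ContDiffAt ℂ ω (fun w => v0 (T w)) 0 := (v0a.comp_of_eq hTa hT0).contDiffAt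
  have V1a : ContDiffAt ℂ ω (fun w => v1 (T w)) 0 := (v1a.comp_of_eq hTa hT0).contDiffAt
  have V2a : ContDiffAt ℂ ω (fun w => v2 (T w)) 0 := (v2a.comp_of_eq hTa hT0).contDiffAt
  set H : (ℂ × ℂ) × (ℂ × ℂ × ℂ) → ℂ × ℂ × ℂ := fun w =>
    (3 * w.2.1 + v2 (T w), 3 * w.2.1 ^ 2 - w.2.2.1 + v1 (T w),
      w.2.1 ^ 3 - w.1.1 * w.2.1 - w.2.2.1 * w.2.1 - w.2.2.2 + v0 (T w)) with hH
  have hHa : AnalyticAt ℂ H 0 := by
    have p1 : ContDiffAt ℂ ω (fun w : (ℂ × ℂ) × (ℂ × ℂ × ℂ) => 3 * w.2.1) 0 := by fun_prop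
    have p2 : ContDiffAt ℂ ω (fun w : (ℂ × ℂ) × (ℂ × ℂ × ℂ) => 3 * w.2.1 ^ 2 - w.2.2.1) 0 := by
      fun_prop
    have p3 : ContDiffAt ℂ ω (fun w : (ℂ × ℂ) × (ℂ × ℂ × ℂ) =>
        w.2.1 ^ 3 - w.1.1 * w.2.1 - w.2.2.1 * w.2.1 - w.2.2.2) 0 := by fun_prop
    have : ContDiffAt ℂ ω H 0 := (p1.add V2a).prodMk ((p2.add V1a).prodMk (p3.add V0a))
    exact this.analyticAt
  have hH0 : H 0 = 0 := by
    simp [hH, hT0, v0z, v1z, v2z]
  -- derivative of `v (T (0, t • v))`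
  have hder : ∀ (f : ℂ × ℂ × ℂ × ℂ → ℂ), f =O[𝓝 0] (fun θ => ‖θ‖ ^ 5) → ∀ v : ℂ × ℂ × ℂ,
      HasDerivAt (fun t : ℂ => f (T (0, t • v))) 0 0 := by
    intro f hf v
    have h1 : (fun t : ℂ => T (0, t • v)) =O[𝓝 0] (fun t => ‖t‖ ^ 1) := by
      refine AnalyticAt.isBigO_id ?_ ?_
      · have : ContDiff ℂ ω (fun t : ℂ => T (0, t • v)) := by rw [hT]; fun_prop
        exact this.contDiffAt.analyticAt
      · simp [hT]
    have h2 := isBigO_pow_comp one_ne_zero hf h1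
    have h3 := isBigO_pow_mono (m := 2) (by norm_num) h2
    have h4 : HasFDerivAt (fun t : ℂ => f (T (0, t • v))) (0 : ℂ →L[ℂ] ℂ) 0 :=
      hasFDerivAt_of_isBigO (by simpa using h3)
    simpa using h4.hasDerivAt
  have hinj : ∀ v : ℂ × ℂ × ℂ, HasDerivAt (fun t : ℂ => H (0, t • v)) 0 0 → v = 0 := by
    rintro ⟨g, al, aa⟩ hv
    have d1 : HasDerivAt (fun t : ℂ => 3 * (t * g) + v2 (T (0, t • (g, al, aa)))) (3 * g + 0) 0 := by
      refine HasDerivAt.add ?_ (hder v2 v2O _)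
      simpa using ((hasDerivAt_id (0 : ℂ)).mul_const g).const_mul 3
    have d2 : HasDerivAt (fun t : ℂ => 3 * (t * g) ^ 2 - t * al + v1 (T (0, t • (g, al, aa))))
        (0 - al + 0) 0 := by
      refine HasDerivAt.add (HasDerivAt.sub ?_ ?_) (hder v1 v1O _)
      · simpa using (((hasDerivAt_id (0 : ℂ)).mul_const g).fun_pow 2).const_mul 3
      · simpa using ((hasDerivAt_id (0 : ℂ)).mul_const al)
    have d3 : HasDerivAt (fun t : ℂ => (t * g) ^ 3 - 0 * (t * g) - (t * al) * (t * g) - t * aa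
        + v0 (T (0, t • (g, al, aa)))) (0 - 0 - 0 - aa + 0) 0 := by
      refine HasDerivAt.add (HasDerivAt.sub (HasDerivAt.sub (HasDerivAt.sub ?_ ?_) ?_) ?_)
        (hder v0 v0O _)
      · simpa using (((hasDerivAt_id (0 : ℂ)).mul_const g).fun_pow 3)
      · simpa using (hasDerivAt_const (0 : ℂ) (0 : ℂ))
      · simpa using (((hasDerivAt_id (0 : ℂ)).mul_const al).fun_mul
          ((hasDerivAt_id (0 : ℂ)).mul_const g))
      · simpa using ((hasDerivAt_id (0 : ℂ)).mul_const aa)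
    have d := d1.prodMk (d2.prodMk d3)
    have e : (fun t : ℂ => H (0, t • (g, al, aa))) = fun t : ℂ =>
        (3 * (t * g) + v2 (T (0, t • (g, al, aa))),
          3 * (t * g) ^ 2 - t * al + v1 (T (0, t • (g, al, aa))),
          (t * g) ^ 3 - 0 * (t * g) - (t * al) * (t * g) - t * aa
        + v0 (T (0, t • (g, al, aa)))) := by
      funext t
      simp [hH]
    rw [e] at hv
    have hu := d.unique hv
    simp only [Prod.ext_iff, Prod.fst_zero, Prod.snd_zero] at hu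
    obtain ⟨hu1, hu2, hu3⟩ := hu
    have g0 : g = 0 := by simpa using hu1
    have al0 : al = 0 := by simpa using hu2
    have aa0 : aa = 0 := by simpa using hu3
    rw [g0, al0, aa0]; rfl
  obtain ⟨V, hVa, hV0, hV⟩ := ift hHa hH0 hinj
  have hVO := AnalyticAt.isBigO_id hVa hV0
  -- components
  set γ : ℂ × ℂ → ℂ := fun z => (V z).1 with hγ
  set α : ℂ × ℂ → ℂ := fun z => (V z).2.1 with hα
  set a : ℂ × ℂ → ℂ := fun z => (V z).2.2 with ha'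
  have hγa : AnalyticAt ℂ γ 0 := analyticAt_fst.comp hVa
  have hαa : AnalyticAt ℂ α 0 := analyticAt_fst.comp (analyticAt_snd.comp hVa)
  have haa : AnalyticAt ℂ a 0 := analyticAt_snd.comp (analyticAt_snd.comp hVa)
  have hγ0 : γ 0 = 0 := by simp [hγ, hV0]
  have hα0 : α 0 = 0 := by simp [hα, hV0]
  have ha0 : a 0 = 0 := by simp [ha', hV0]
  set θ : ℂ × ℂ → ℂ × ℂ × ℂ × ℂ := fun z => T (z, V z) with hθ
  have hidV : AnalyticAt ℂ (fun z : ℂ × ℂ => (z, V z)) 0 := analyticAt_id.prod hVa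
  have hθa : AnalyticAt ℂ θ 0 := hTa.comp_of_eq hidV (by rw [hV0]; rfl)
  have hθ0 : θ 0 = 0 := by simp only [hθ]; rw [hV0]; exact hT0
  have hθO := AnalyticAt.isBigO_id hθa hθ0
  have w0O := isBigO_pow_comp one_ne_zero v0O hθO
  have w1O := isBigO_pow_comp one_ne_zero v1O hθO
  have w2O := isBigO_pow_comp one_ne_zero v2O hθO
  rw [one_mul] at w0O w1O w2O
  have heq : ∀ᶠ z in 𝓝 (0 : ℂ × ℂ), 3 * γ z + v2 (θ z) = 0 ∧
      3 * γ z ^ 2 - α z + v1 (θ z) = 0 ∧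
      γ z ^ 3 - z.1 * γ z - α z * γ z - a z + v0 (θ z) = 0 := by
    filter_upwards [hV] with z hz
    simp only [hH, Prod.ext_iff, Prod.fst_zero, Prod.snd_zero] at hz
    exact hz
  have hγO : γ =O[𝓝 0] (fun z => ‖z‖ ^ 5) := by
    refine (w2O.const_mul_left (-(1 / 3))).congr' ?_ EventuallyEq.rfl
    filter_upwards [heq] with z hz
    linear_combination (-(1 / 3)) * hz.1
  have hγO1 := AnalyticAt.isBigO_id hγa hγ0
  have hαO1 := AnalyticAt.isBigO_id hαa hα0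
  have hαO : α =O[𝓝 0] (fun z => ‖z‖ ^ 5) := by
    have h1 : (fun z => 3 * (γ z * γ z) + v1 (θ z)) =O[𝓝 0] (fun z => ‖z‖ ^ 5) :=
      ((isBigO_pow_mono (by norm_num) (isBigO_pow_mul hγO hγO1)).const_mul_left 3).add w1O
    refine h1.congr' ?_ EventuallyEq.rfl
    filter_upwards [heq] with z hz
    linear_combination hz.2.1
  have haO : a =O[𝓝 0] (fun z => ‖z‖ ^ 5) := by
    have h1 : (fun z => γ z * (γ z * γ z - z.1 - α z) + v0 (θ z)) =O[𝓝 0] (fun z => ‖z‖ ^ 5) := by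
      refine IsBigO.add ?_ w0O
      have : (fun z : ℂ × ℂ => γ z * γ z - z.1 - α z) =O[𝓝 0] (fun z => ‖z‖ ^ 0) :=
        AnalyticAt.isBigO_zero (((hγa.mul hγa).sub analyticAt_fst).sub hαa)
      exact isBigO_pow_mul hγO this
    refine h1.congr' ?_ EventuallyEq.rfl
    filter_upwards [heq] with z hz
    linear_combination hz.2.2
  refine ⟨γ, α, a, hγa, hαa, haa, hγO, hαO, haO, ?_⟩
  -- the identity
  have tz : Tendsto (fun w : ℂ × ℂ => (w.1, w.2 ^ 3 - w.1 * w.2)) (𝓝 0) (𝓝 0) := by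
    have : Continuous (fun w : ℂ × ℂ => (w.1, w.2 ^ 3 - w.1 * w.2)) := by fun_prop
    exact this.tendsto' 0 0 (by simp [Prod.ext_iff])
  have tθ : Tendsto (fun w : ℂ × ℂ => (θ (w.1, w.2 ^ 3 - w.1 * w.2), w.2)) (𝓝 0) (𝓝 0) := by
    have h1 : Tendsto θ (𝓝 0) (𝓝 0) := by
      have := hθa.continuousAt.tendsto
      rwa [hθ0] at this
    have h2 : Tendsto (fun w : ℂ × ℂ => w.2) (𝓝 0) (𝓝 0) := by
      have := (continuous_snd (X := ℂ) (Y := ℂ)).tendsto 0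
      simpa using this
    have := (h1.comp tz).prodMk_nhds h2
    exact this
  filter_upwards [tz.eventually heq, tθ.eventually hdiv] with w hw hd
  obtain ⟨e1, e2, e3⟩ := hw
  set P := w.2 ^ 3 - w.1 * w.2 with hP
  have hd' := hd (by simp only [hθ, hT]; rw [hP]; ring)
  have hθ1 : (θ (w.1, P)).1 = w.1 + α (w.1, P) := rfl
  have hθ2 : (θ (w.1, P)).2.1 = γ (w.1, P) := rfl
  simp only [hθ1, hθ2] at hd'
  rw [hd']
  linear_combination e3 + w.2 * e2 + w.2 ^ 2 * e1 - hP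

end

end Pool.Agent.Lib.MP_729182_ag
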