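import Pool.Agent.Lib.MP_729182_ag.Det

/-!
Finite determinacy, second part.
-/

set_option autoImplicit false
set_option linter.unusedSectionVars false

namespace Pool.Agent.Lib.MP_729182_ag

open Filter Topology Asymptotics
open scoped ContDiff

noncomputable section

/-- third component of the germ -/
def q3 (X Y : ℂ) : ℂ := Y ^ 4 - X * Y ^ 2 + X ^ 2 * Y ^ 2

theorem step2 {h : ℂ × ℂ → ℂ} (ha : AnalyticAt ℂ h 0) (hO : h =O[𝓝 0] (fun z => ‖z‖ ^ 20))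
    {γ α : ℂ × ℂ → ℂ} (hγa : AnalyticAt ℂ γ 0) (hαa : AnalyticAt ℂ α 0)
    (hγO : γ =O[𝓝 0] (fun z => ‖z‖ ^ 5)) (hαO : α =O[𝓝 0] (fun z => ‖z‖ ^ 5)) :
    ∃ c0 m1 m2 : ℂ × ℂ → ℂ, AnalyticAt ℂ c0 0 ∧ AnalyticAt ℂ m1 0 ∧ AnalyticAt ℂ m2 0 ∧
      c0 =O[𝓝 0] (fun z => ‖z‖ ^ 5) ∧ m1 =O[𝓝 0] (fun z => ‖z‖ ^ 5) ∧
      m2 =O[𝓝 0] (fun z => ‖z‖ ^ 5) ∧
      ∀ᶠ w in 𝓝 (0 : ℂ × ℂ),
        q3 (w.1 + α (w.1, w.2 ^ 3 - w.1 * w.2)) (γ (w.1, w.2 ^ 3 - w.1 * w.2) + w.2)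
          + h (w.1 + α (w.1, w.2 ^ 3 - w.1 * w.2), γ (w.1, w.2 ^ 3 - w.1 * w.2) + w.2)
        = c0 (w.1, w.2 ^ 3 - w.1 * w.2)
          + ((w.2 ^ 3 - w.1 * w.2) + m1 (w.1, w.2 ^ 3 - w.1 * w.2)) * w.2
          + (w.1 ^ 2 + m2 (w.1, w.2 ^ 3 - w.1 * w.2)) * w.2 ^ 2 := by
  obtain ⟨v0, v1, v2, v0a, v1a, v2a, v0O, v1O, v2O, hdiv⟩ := division ha hO
  have hγ0 := eq_zero_of_isBigO_pow (by norm_num) hγO
  have hα0 := eq_zero_of_isBigO_pow (by norm_num) hαO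
  set θ : ℂ × ℂ → ℂ × ℂ × ℂ × ℂ := fun z => (z.1 + α z, γ z, z.1, z.2) with hθ
  have hθa : AnalyticAt ℂ θ 0 :=
    (analyticAt_fst.add hαa).prod (hγa.prod (analyticAt_fst.prod analyticAt_snd))
  have hθ0 : θ 0 = 0 := by simp [hθ, hγ0, hα0]
  have hθO := AnalyticAt.isBigO_id hθa hθ0
  have w0O := isBigO_pow_comp one_ne_zero v0O hθO
  have w1O := isBigO_pow_comp one_ne_zero v1O hθO
  have w2O := isBigO_pow_comp one_ne_zero v2O hθO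
  rw [one_mul] at w0O w1O w2O
  have w0a : AnalyticAt ℂ (fun z => v0 (θ z)) 0 := v0a.comp_of_eq hθa hθ0
  have w1a : AnalyticAt ℂ (fun z => v1 (θ z)) 0 := v1a.comp_of_eq hθa hθ0
  have w2a : AnalyticAt ℂ (fun z => v2 (θ z)) 0 := v2a.comp_of_eq hθa hθ0
  have cγ : ContDiffAt ℂ ω γ 0 := hγa.contDiffAt
  have cα : ContDiffAt ℂ ω α 0 := hαa.contDiffAt
  -- cofactors
  have b0 : AnalyticAt ℂ (fun z : ℂ × ℂ => γ z ^ 3 + 4 * z.2 + ((z.1 + α z) ^ 2 - (z.1 + α z)) * γ z)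
      0 := by
    have : ContDiffAt ℂ ω (fun z : ℂ × ℂ => γ z ^ 3 + 4 * z.2 +
      ((z.1 + α z) ^ 2 - (z.1 + α z)) * γ z) 0 := by fun_prop
    exact this.analyticAt
  have b1 : AnalyticAt ℂ (fun z : ℂ × ℂ => 4 * γ z ^ 2 + 4 * z.1 +
      ((z.1 + α z) ^ 2 - (z.1 + α z)) * 2) 0 := by
    have : ContDiffAt ℂ ω (fun z : ℂ × ℂ => 4 * γ z ^ 2 + 4 * z.1 +
      ((z.1 + α z) ^ 2 - (z.1 + α z)) * 2) 0 := by fun_prop
    exact this.analyticAt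
  have b2 : AnalyticAt ℂ (fun z : ℂ × ℂ => 6 * γ z) 0 := by
    have : ContDiffAt ℂ ω (fun z : ℂ × ℂ => 6 * γ z) 0 := by fun_prop
    exact this.analyticAt
  have b3 : AnalyticAt ℂ (fun z : ℂ × ℂ => 2 * z.1 + α z - 1) 0 := by
    have : ContDiffAt ℂ ω (fun z : ℂ × ℂ => 2 * z.1 + α z - 1) 0 := by fun_prop
    exact this.analyticAt
  have B0 := isBigO_pow_mul hγO (AnalyticAt.isBigO_zero b0)
  have B1 := isBigO_pow_mul hγO (AnalyticAt.isBigO_zero b1)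
  have B2 := isBigO_pow_mul hγO (AnalyticAt.isBigO_zero b2)
  have B3 := isBigO_pow_mul hαO (AnalyticAt.isBigO_zero b3)
  refine ⟨fun z => γ z * (γ z ^ 3 + 4 * z.2 + ((z.1 + α z) ^ 2 - (z.1 + α z)) * γ z) + v0 (θ z),
    fun z => γ z * (4 * γ z ^ 2 + 4 * z.1 + ((z.1 + α z) ^ 2 - (z.1 + α z)) * 2) + v1 (θ z),
    fun z => γ z * (6 * γ z) + α z * (2 * z.1 + α z - 1) + v2 (θ z),
    (hγa.mul b0).add w0a, (hγa.mul b1).add w1a, ((hγa.mul b2).add (hαa.mul b3)).add w2a,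
    B0.add w0O, B1.add w1O, (B2.add B3).add w2O, ?_⟩
  have tz : Tendsto (fun w : ℂ × ℂ => (w.1, w.2 ^ 3 - w.1 * w.2)) (𝓝 0) (𝓝 0) := by
    have : Continuous (fun w : ℂ × ℂ => (w.1, w.2 ^ 3 - w.1 * w.2)) := by fun_prop
    exact this.tendsto' 0 0 (by simp [Prod.ext_iff])
  have tθ : Tendsto (fun w : ℂ × ℂ => (θ (w.1, w.2 ^ 3 - w.1 * w.2), w.2)) (𝓝 0) (𝓝 0) := by
    have h1 : Tendsto θ (𝓝 0) (𝓝 0) := by
      have := hθa.continuousAt.tendsto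
      rwa [hθ0] at this
    have h2 : Tendsto (fun w : ℂ × ℂ => w.2) (𝓝 0) (𝓝 0) := by
      have := (continuous_snd (X := ℂ) (Y := ℂ)).tendsto 0
      simpa using this
    exact (h1.comp tz).prodMk_nhds h2
  filter_upwards [tθ.eventually hdiv] with w hd
  set P := w.2 ^ 3 - w.1 * w.2 with hP
  have hd' := hd (by simp only [hθ]; rw [hP]; ring)
  have hθ1 : (θ (w.1, P)).1 = w.1 + α (w.1, P) := rfl
  have hθ2 : (θ (w.1, P)).2.1 = γ (w.1, P) := rfl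
  simp only [hθ1, hθ2] at hd'
  rw [hd']
  simp only [q3]
  generalize γ (w.1, P) = g
  generalize α (w.1, P) = al
  generalize θ (w.1, P) = t
  rw [hP]
  ring

theorem step3 {m1 m2 : ℂ × ℂ → ℂ} (m1a : AnalyticAt ℂ m1 0) (m2a : AnalyticAt ℂ m2 0)
    (m1O : m1 =O[𝓝 0] (fun z => ‖z‖ ^ 5)) (m2O : m2 =O[𝓝 0] (fun z => ‖z‖ ^ 5)) :
    ∃ b C u w : ℂ × ℂ → ℂ, AnalyticAt ℂ b 0 ∧ AnalyticAt ℂ C 0 ∧ AnalyticAt ℂ u 0 ∧
      AnalyticAt ℂ w 0 ∧ b 0 = 1 ∧ C 0 = 0 ∧ u 0 = 1 ∧ w 0 = 0 ∧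
      ∀ᶠ z in 𝓝 (0 : ℂ × ℂ),
        (u z * K1 z.1 z.2 (b z) (z.1 ^ 2 * C z)
          + w z * ((2 * z.1 / 3) * K1 z.1 z.2 (b z) (z.1 ^ 2 * C z)
              * K2 z.1 z.2 (b z) (z.1 ^ 2 * C z)
            + z.2 * K2 z.1 z.2 (b z) (z.1 ^ 2 * C z) ^ 2) = z.2 + m1 z) ∧
        (u z * K2 z.1 z.2 (b z) (z.1 ^ 2 * C z)
          + w z * (K1 z.1 z.2 (b z) (z.1 ^ 2 * C z) ^ 2
            - (z.1 / 3) * K2 z.1 z.2 (b z) (z.1 ^ 2 * C z) ^ 2) = z.1 ^ 2 + m2 z) := by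
  obtain ⟨m12, m11, m12a, m11a, m120, m110, hm1⟩ :=
    hadamard (a := 4) (b := 1) m1a m1O (by norm_num) (by norm_num) (by norm_num)
  obtain ⟨m21, m22, m21a, m22a, m210, m220, hm2⟩ :=
    hadamard (a := 2) (b := 2) m2a m2O (by norm_num) (by norm_num) (by norm_num)
  -- the explicit polynomials in `(x, P, b, C)`
  let Xh : ℂ → ℂ → ℂ → ℂ → ℂ := fun x P b C => b ^ 2 + 3 * b * x * P * C + x ^ 5 * C ^ 2 / 3
  let p1 : ℂ → ℂ → ℂ → ℂ → ℂ := fun x P b C => b ^ 3 + x ^ 5 * b * C ^ 2 + x ^ 6 * C ^ 3 * P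
  let p2 : ℂ → ℂ → ℂ → ℂ → ℂ := fun x _ b C => (2 / 3) * b ^ 2 * C - (2 / 27) * x ^ 5 * C ^ 3
  let k11 : ℂ → ℂ → ℂ → ℂ → ℂ := fun x P b C => b * p1 x P b C + x ^ 6 * Xh x P b C ^ 2 * C ^ 2
  let k12 : ℂ → ℂ → ℂ → ℂ → ℂ := fun x P b C =>
    b * p2 x P b C + (2 / 3) * x * b * C * Xh x P b C ^ 2
  let k2 : ℂ → ℂ → ℂ → ℂ → ℂ := fun x P b C =>
    C * (P * p1 x P b C + x ^ 4 * p2 x P b C) + (b ^ 2 - x ^ 5 * C ^ 2 / 3) * Xh x P b C ^ 2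
  have hK1 : ∀ x P b C : ℂ, K1 x P b (x ^ 2 * C) = P * k11 x P b C + x ^ 4 * k12 x P b C := by
    intro x P b C
    simp only [K1, Pp, Xp, k11, k12, p1, p2, Xh]; ring
  have hK2 : ∀ x P b C : ℂ, K2 x P b (x ^ 2 * C) = x ^ 2 * k2 x P b C := by
    intro x P b C
    simp only [K2, Pp, Xp, k2, p1, p2, Xh]; ring
  -- the system; `s = (z, (b', C, u', w))`
  let E1 : ℂ → ℂ → ℂ → ℂ → ℂ → ℂ → ℂ := fun x P b C u w =>
    u * k11 x P b C + w * ((2 / 3) * x ^ 3 * k2 x P b C * k11 x P b C + x ^ 4 * k2 x P b C ^ 2)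
  let E2 : ℂ → ℂ → ℂ → ℂ → ℂ → ℂ → ℂ := fun x P b C u w =>
    u * k12 x P b C + (2 / 3) * w * x ^ 3 * k2 x P b C * k12 x P b C
  let E3 : ℂ → ℂ → ℂ → ℂ → ℂ → ℂ → ℂ := fun x P b C u w =>
    u * k2 x P b C + w * (2 * P * x ^ 2 * k11 x P b C * k12 x P b C + x ^ 6 * k12 x P b C ^ 2
      - (x ^ 3 / 3) * k2 x P b C ^ 2)
  let E4 : ℂ → ℂ → ℂ → ℂ → ℂ → ℂ → ℂ := fun x P b C _ w => w * k11 x P b C ^ 2
  let H : (ℂ × ℂ) × (ℂ × ℂ × ℂ × ℂ) → ℂ × ℂ × ℂ × ℂ := fun s =>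
    (E1 s.1.1 s.1.2 (1 + s.2.1) s.2.2.1 (1 + s.2.2.2.1) s.2.2.2.2 - 1 - m11 s.1,
     E2 s.1.1 s.1.2 (1 + s.2.1) s.2.2.1 (1 + s.2.2.2.1) s.2.2.2.2 - m12 s.1,
     E3 s.1.1 s.1.2 (1 + s.2.1) s.2.2.1 (1 + s.2.2.2.1) s.2.2.2.2 - 1 - m21 s.1,
     E4 s.1.1 s.1.2 (1 + s.2.1) s.2.2.1 (1 + s.2.2.2.1) s.2.2.2.2 - m22 s.1)
  have hfst : AnalyticAt ℂ (fun s : (ℂ × ℂ) × (ℂ × ℂ × ℂ × ℂ) => s.1) 0 := analyticAt_fst
  have M11 : ContDiffAt ℂ ω (fun s : (ℂ × ℂ) × (ℂ × ℂ × ℂ × ℂ) => m11 s.1) 0 :=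
    (m11a.comp_of_eq hfst rfl).contDiffAt
  have M12 : ContDiffAt ℂ ω (fun s : (ℂ × ℂ) × (ℂ × ℂ × ℂ × ℂ) => m12 s.1) 0 :=
    (m12a.comp_of_eq hfst rfl).contDiffAt
  have M21 : ContDiffAt ℂ ω (fun s : (ℂ × ℂ) × (ℂ × ℂ × ℂ × ℂ) => m21 s.1) 0 :=
    (m21a.comp_of_eq hfst rfl).contDiffAt
  have M22 : ContDiffAt ℂ ω (fun s : (ℂ × ℂ) × (ℂ × ℂ × ℂ × ℂ) => m22 s.1) 0 :=
    (m22a.comp_of_eq hfst rfl).contDiffAt
  have hHa : AnalyticAt ℂ H 0 := by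
    have h1 : ContDiff ℂ ω (fun s : (ℂ × ℂ) × (ℂ × ℂ × ℂ × ℂ) =>
        E1 s.1.1 s.1.2 (1 + s.2.1) s.2.2.1 (1 + s.2.2.2.1) s.2.2.2.2 - 1) := by
      simp only [E1, k11, k2, p1, p2, Xh]; fun_prop
    have h2 : ContDiff ℂ ω (fun s : (ℂ × ℂ) × (ℂ × ℂ × ℂ × ℂ) =>
        E2 s.1.1 s.1.2 (1 + s.2.1) s.2.2.1 (1 + s.2.2.2.1) s.2.2.2.2) := by
      simp only [E2, k12, k2, p1, p2, Xh]; fun_prop
    have h3 : ContDiff ℂ ω (fun s : (ℂ × ℂ) × (ℂ × ℂ × ℂ × ℂ) =>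
        E3 s.1.1 s.1.2 (1 + s.2.1) s.2.2.1 (1 + s.2.2.2.1) s.2.2.2.2 - 1) := by
      simp only [E3, k11, k12, k2, p1, p2, Xh]; fun_prop
    have h4 : ContDiff ℂ ω (fun s : (ℂ × ℂ) × (ℂ × ℂ × ℂ × ℂ) =>
        E4 s.1.1 s.1.2 (1 + s.2.1) s.2.2.1 (1 + s.2.2.2.1) s.2.2.2.2) := by
      simp only [E4, k11, p1, Xh]; fun_prop
    have : ContDiffAt ℂ ω H 0 := (h1.contDiffAt.sub M11).prodMk ((h2.contDiffAt.sub M12).prodMk
      ((h3.contDiffAt.sub M21).prodMk (h4.contDiffAt.sub M22)))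
    exact this.analyticAt
  have hHz : ∀ b C u w : ℂ, H (0, (b, C, u, w)) =
      ((1 + u) * (1 + b) ^ 4 - 1, (2 / 3) * (1 + u) * (1 + b) ^ 3 * C,
        (1 + u) * (1 + b) ^ 6 - 1, w * (1 + b) ^ 8) := by
    intro b C u w
    simp only [H, E1, E2, E3, E4, k11, k12, k2, p1, p2, Xh, m110, m120, m210, m220,
      Prod.fst_zero, Prod.snd_zero, Prod.mk.injEq]
    refine ⟨?_, ?_, ?_, ?_⟩ <;> ring
  have hH0 : H 0 = 0 := by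
    have := hHz 0 0 0 0
    have e : (0 : (ℂ × ℂ) × (ℂ × ℂ × ℂ × ℂ)) = (0, (0, 0, 0, 0)) := rfl
    rw [e, this]
    simp [Prod.ext_iff]
  have hinj : ∀ v : ℂ × ℂ × ℂ × ℂ, HasDerivAt (fun t : ℂ => H (0, t • v)) 0 0 → v = 0 := by
    rintro ⟨b, C, u, w⟩ hv
    have db : HasDerivAt (fun t : ℂ => 1 + t * b) b 0 := by
      simpa using ((hasDerivAt_id (0 : ℂ)).mul_const b).const_add 1
    have du : HasDerivAt (fun t : ℂ => 1 + t * u) u 0 := by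
      simpa using ((hasDerivAt_id (0 : ℂ)).mul_const u).const_add 1
    have dC : HasDerivAt (fun t : ℂ => t * C) C 0 := by
      simpa using ((hasDerivAt_id (0 : ℂ)).mul_const C)
    have dw : HasDerivAt (fun t : ℂ => t * w) w 0 := by
      simpa using ((hasDerivAt_id (0 : ℂ)).mul_const w)
    have d1 : HasDerivAt (fun t : ℂ => (1 + t * u) * (1 + t * b) ^ 4 - 1) (u + 4 * b) 0 := by
      have := (du.fun_mul (db.fun_pow 4)).sub_const 1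
      refine this.congr_deriv ?_
      simp
    have d2 : HasDerivAt (fun t : ℂ => (2 / 3) * (1 + t * u) * (1 + t * b) ^ 3 * (t * C))
        ((2 / 3) * C) 0 := by
      have := (((du.const_mul (2 / 3)).fun_mul (db.fun_pow 3)).fun_mul dC)
      refine this.congr_deriv ?_
      simp
    have d3 : HasDerivAt (fun t : ℂ => (1 + t * u) * (1 + t * b) ^ 6 - 1) (u + 6 * b) 0 := by
      have := (du.fun_mul (db.fun_pow 6)).sub_const 1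
      refine this.congr_deriv ?_
      simp
    have d4 : HasDerivAt (fun t : ℂ => (t * w) * (1 + t * b) ^ 8) w 0 := by
      have := dw.fun_mul (db.fun_pow 8)
      refine this.congr_deriv ?_
      simp
    have d := d1.prodMk (d2.prodMk (d3.prodMk d4))
    have e : (fun t : ℂ => H (0, t • (b, C, u, w))) = fun t : ℂ =>
        ((1 + t * u) * (1 + t * b) ^ 4 - 1, (2 / 3) * (1 + t * u) * (1 + t * b) ^ 3 * (t * C),
          (1 + t * u) * (1 + t * b) ^ 6 - 1, (t * w) * (1 + t * b) ^ 8) := by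
      funext t
      exact hHz (t * b) (t * C) (t * u) (t * w)
    rw [e] at hv
    have hu := d.unique hv
    simp only [Prod.ext_iff, Prod.fst_zero, Prod.snd_zero] at hu
    obtain ⟨hu1, hu2, hu3, hu4⟩ := hu
    have b0 : b = 0 := by linear_combination (1 / 2) * hu3 - (1 / 2) * hu1
    have u0 : u = 0 := by linear_combination hu1 - 4 * b0
    have C0 : C = 0 := by linear_combination (3 / 2) * hu2
    rw [b0, u0, C0, hu4]; rfl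
  obtain ⟨V, hVa, hV0, hV⟩ := ift hHa hH0 hinj
  have cV : ContDiffAt ℂ ω V 0 := hVa.contDiffAt
  refine ⟨fun z => 1 + (V z).1, fun z => (V z).2.1, fun z => 1 + (V z).2.2.1,
    fun z => (V z).2.2.2, ?_, ?_, ?_, ?_, ?_, ?_, ?_, ?_, ?_⟩
  · exact (by fun_prop : ContDiffAt ℂ ω (fun z => 1 + (V z).1) 0).analyticAt
  · exact (by fun_prop : ContDiffAt ℂ ω (fun z => (V z).2.1) 0).analyticAt
  · exact (by fun_prop : ContDiffAt ℂ ω (fun z => 1 + (V z).2.2.1) 0).analyticAt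
  · exact (by fun_prop : ContDiffAt ℂ ω (fun z => (V z).2.2.2) 0).analyticAt
  · simp [hV0]
  · simp [hV0]
  · simp [hV0]
  · simp [hV0]
  · filter_upwards [hV, hm1, hm2] with z hz h1 h2
    simp only [H, Prod.ext_iff, Prod.fst_zero, Prod.snd_zero] at hz
    obtain ⟨g1, g2, g3, g4⟩ := hz
    rw [hK1, hK2, h1, h2]
    set b := 1 + (V z).1
    set C := (V z).2.1
    set u := 1 + (V z).2.2.1
    set w := (V z).2.2.2
    simp only [E1, E2, E3, E4] at g1 g2 g3 g4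
    generalize k11 z.1 z.2 b C = κ11 at g1 g2 g3 g4 ⊢
    generalize k12 z.1 z.2 b C = κ12 at g1 g2 g3 g4 ⊢
    generalize k2 z.1 z.2 b C = κ2 at g1 g2 g3 g4 ⊢
    constructor
    · linear_combination z.2 * g1 + z.1 ^ 4 * g2
    · linear_combination z.1 ^ 2 * g3 + z.2 ^ 2 * g4

end

end Pool.Agent.Lib.MP_729182_ag
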