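import Pool.Agent.Lib.MP_729182_ag.Coeff

/-!
Hadamard-type division and division by the generic depressed cubic `y ^ 3 - s y - p`.
-/

set_option autoImplicit false
set_option linter.unusedSectionVars false

namespace Pool.Agent.Lib.MP_729182_ag

open Filter Topology Asymptotics
open scoped ContDiff

noncomputable section

theorem exists_split {f : ℂ × ℂ → ℂ} (hf : AnalyticAt ℂ f 0) {N a b : ℕ}
    (hN : f =O[𝓝 0] (fun z => ‖z‖ ^ N)) (ha : 1 ≤ a) (hb : 1 ≤ b) (hab : a + b ≤ N) :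
    ∃ (c1 c2 : ℕ × ℕ → ℂ) (C R : ℝ), 0 < R ∧ (∀ ij, ‖c1 ij‖ ≤ C * R ^ (ij.1 + ij.2)) ∧
      (∀ ij, ‖c2 ij‖ ≤ C * R ^ (ij.1 + ij.2)) ∧ c1 (0, 0) = 0 ∧ c2 (0, 0) = 0 ∧
      ∀ᶠ z in 𝓝 (0 : ℂ × ℂ), f z = z.1 ^ a * lift ℂ c1 z + z.2 ^ b * lift ℂ c2 z := by
  obtain ⟨c, C, R, hR, hc, hsum, hvan⟩ := exists_coeff hf
  have hC : 0 ≤ C := by simpa using (norm_nonneg _).trans (hc (0, 0))
  have hz := hvan N hN
  set c1 : ℕ × ℕ → ℂ := fun ij => c (ij.1 + a, ij.2) with hc1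
  set c2 : ℕ × ℕ → ℂ := fun ij => if ij.1 < a then c (ij.1, ij.2 + b) else 0 with hc2
  set K : ℝ := max (R ^ a) (R ^ b) with hK
  have hK0 : 0 ≤ K := le_max_of_le_left (by positivity)
  have hb1 : ∀ ij, ‖c1 ij‖ ≤ (C * K) * R ^ (ij.1 + ij.2) := by
    intro ij
    refine (hc (ij.1 + a, ij.2)).trans ?_
    have : R ^ a ≤ K := le_max_left _ _
    calc C * R ^ (ij.1 + a + ij.2) = (C * R ^ a) * R ^ (ij.1 + ij.2) := by ring
      _ ≤ (C * K) * R ^ (ij.1 + ij.2) := by gcongr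
  have hb2 : ∀ ij, ‖c2 ij‖ ≤ (C * K) * R ^ (ij.1 + ij.2) := by
    intro ij
    simp only [hc2]
    split_ifs with h
    · refine (hc (ij.1, ij.2 + b)).trans ?_
      have : R ^ b ≤ K := le_max_right _ _
      calc C * R ^ (ij.1 + (ij.2 + b)) = (C * R ^ b) * R ^ (ij.1 + ij.2) := by ring
        _ ≤ (C * K) * R ^ (ij.1 + ij.2) := by gcongr
    · rw [norm_zero]; positivity
  refine ⟨c1, c2, C * K, R, hR, hb1, hb2, ?_, ?_, ?_⟩
  · simp only [hc1]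
    exact hz _ _ (by simp only [zero_add, add_zero]; omega)
  · simp only [hc2]
    rw [if_pos (by omega : (0 : ℕ) < a)]
    exact hz _ _ (by simp only [zero_add]; omega)
  · have e0 := hasSum_lift (𝔸 := ℂ) hR hc
    have e1 := hasSum_lift (𝔸 := ℂ) hR hb1
    have e2 := hasSum_lift (𝔸 := ℂ) hR hb2
    have e3 : ∀ᶠ z in 𝓝 (0 : ℂ × ℂ), HasSum (fun n : ℕ => series ℂ c n fun _ => z)
      ((series ℂ c).sum z) := by
      have := ((series ℂ c).hasFPowerSeriesOnBall (radius_series hR hc)).eventually_hasSum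
      simpa using this
    filter_upwards [e0, e1, e2, e3, hsum] with z h0 h1 h2 h3 h4
    have hfz : f z = lift ℂ c z := by
      refine h4.unique ?_
      have : (fun n : ℕ => ∑ ij ∈ Finset.HasAntidiagonal.antidiagonal n,
          c ij * (z.1 ^ ij.1 * z.2 ^ ij.2)) = (fun n : ℕ => series ℂ c n fun _ => z) := by
        funext n
        rw [series_apply]
        simp only [smul_eq_mul]
      rw [this]
      exact h3
    rw [hfz]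
    set g : ℕ × ℕ → ℂ := fun ij => c ij • (z.1 ^ ij.1 • z.2 ^ ij.2) with hg
    set g1 : ℕ × ℕ → ℂ := fun ij => if a ≤ ij.1 then g ij else 0 with hg1
    set g2 : ℕ × ℕ → ℂ := fun ij => if a ≤ ij.1 then 0 else g ij with hg2
    have hs1 : HasSum g1 (z.1 ^ a * lift ℂ c1 z) := by
      have hinj : Function.Injective (fun ij : ℕ × ℕ => (ij.1 + a, ij.2)) := by
        rintro ⟨i, j⟩ ⟨i', j'⟩ h
        simp only [Prod.mk.injEq] at h
        ext <;> simp <;> omega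
      rw [← hinj.hasSum_iff]
      · have := h1.mul_left (z.1 ^ a)
        refine this.congr_fun ?_ |> fun h => h
        intro ij
        simp only [hg1, hg, hc1, Function.comp_apply, smul_eq_mul]
        rw [if_pos (by omega)]
        ring
      · rintro ⟨i, j⟩ hij
        simp only [hg1]
        rw [if_neg]
        intro h
        exact hij ⟨(i - a, j), by simp; omega⟩
    have hs2 : HasSum g2 (z.2 ^ b * lift ℂ c2 z) := by
      have hinj : Function.Injective (fun ij : ℕ × ℕ => (ij.1, ij.2 + b)) := by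
        rintro ⟨i, j⟩ ⟨i', j'⟩ h
        simp only [Prod.mk.injEq] at h
        ext <;> simp <;> omega
      rw [← hinj.hasSum_iff]
      · have := h2.mul_left (z.2 ^ b)
        refine this.congr_fun ?_ |> fun h => h
        intro ij
        simp only [hg2, hg, hc2, Function.comp_apply, smul_eq_mul]
        by_cases h : a ≤ ij.1
        · rw [if_pos h, if_neg (by omega)]; ring
        · rw [if_neg h, if_pos (by omega)]; ring
      · rintro ⟨i, j⟩ hij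
        simp only [hg2]
        split_ifs with h
        · rfl
        · have hj : j < b := by
            by_contra hj
            exact hij ⟨(i, j - b), by simp; omega⟩
          simp only [hg]
          rw [hz i j (by have : ¬ a ≤ i := h; omega), zero_smul]
    have hs := hs1.add hs2
    have : (fun ij => g1 ij + g2 ij) = g := by
      funext ij
      simp only [hg1, hg2]
      split_ifs <;> simp
    rw [this] at hs
    exact h0.unique hs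

theorem lift_zero (c : ℕ × ℕ → ℂ) {C R : ℝ} (hR : 0 < R)
    (hc : ∀ ij, ‖c ij‖ ≤ C * R ^ (ij.1 + ij.2)) (h : c (0, 0) = 0) : lift ℂ c 0 = 0 := by
  have h1 := (hasSum_lift (𝔸 := ℂ) hR hc).self_of_nhds
  refine h1.unique ?_
  have : (fun ij : ℕ × ℕ => c ij • ((0 : ℂ × ℂ).1 ^ ij.1 • (0 : ℂ × ℂ).2 ^ ij.2))
      = fun _ => (0 : ℂ) := by
    funext ij
    rcases ij with ⟨i, j⟩
    rcases Nat.eq_zero_or_pos i with rfl | hi
    · rcases Nat.eq_zero_or_pos j with rfl | hj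
      · simp [h]
      · simp [hj.ne']
    · simp [hi.ne']
  rw [this]
  exact hasSum_zero

/-- Hadamard-type division: `f = O(‖z‖ ^ N)` with `a + b ≤ N` lies in `(x ^ a, y ^ b) 𝔪`. -/
theorem hadamard {f : ℂ × ℂ → ℂ} (hf : AnalyticAt ℂ f 0) {N a b : ℕ}
    (hN : f =O[𝓝 0] (fun z => ‖z‖ ^ N)) (ha : 1 ≤ a) (hb : 1 ≤ b) (hab : a + b ≤ N) :
    ∃ f1 f2 : ℂ × ℂ → ℂ, AnalyticAt ℂ f1 0 ∧ AnalyticAt ℂ f2 0 ∧ f1 0 = 0 ∧ f2 0 = 0 ∧
      ∀ᶠ z in 𝓝 (0 : ℂ × ℂ), f z = z.1 ^ a * f1 z + z.2 ^ b * f2 z := by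
  obtain ⟨c1, c2, C, R, hR, h1, h2, h10, h20, h⟩ := exists_split hf hN ha hb hab
  exact ⟨lift ℂ c1, lift ℂ c2, analyticAt_lift hR h1, analyticAt_lift hR h2,
    lift_zero c1 hR h1 h10, lift_zero c2 hR h2 h20, h⟩

/-! ### Division by `y ^ 3 - s y - p` -/

/-- The three-dimensional coefficient space. -/
abbrev V3 : Type := ℂ × ℂ × ℂ

/-- The operator algebra. -/
abbrev 𝔼 : Type := V3 →L[ℂ] V3

/-- `(v0, v1, v2) ↦ (0, v0, v1)`. -/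
def N0 : 𝔼 :=
  (0 : V3 →L[ℂ] ℂ).prod ((ContinuousLinearMap.fst ℂ ℂ (ℂ × ℂ)).prod
    ((ContinuousLinearMap.fst ℂ ℂ ℂ).comp (ContinuousLinearMap.snd ℂ ℂ (ℂ × ℂ))))

/-- `(v0, v1, v2) ↦ (0, v2, 0)`. -/
def N1 : 𝔼 :=
  (0 : V3 →L[ℂ] ℂ).prod (((ContinuousLinearMap.snd ℂ ℂ ℂ).comp
    (ContinuousLinearMap.snd ℂ ℂ (ℂ × ℂ))).prod (0 : V3 →L[ℂ] ℂ))

/-- `(v0, v1, v2) ↦ (v2, 0, 0)`. -/
def N2 : 𝔼 :=
  ((ContinuousLinearMap.snd ℂ ℂ ℂ).comp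
    (ContinuousLinearMap.snd ℂ ℂ (ℂ × ℂ))).prod ((0 : V3 →L[ℂ] ℂ).prod (0 : V3 →L[ℂ] ℂ))

@[simp] theorem N0_apply (v : V3) : N0 v = (0, v.1, v.2.1) := rfl
@[simp] theorem N1_apply (v : V3) : N1 v = (0, v.2.2, 0) := rfl
@[simp] theorem N2_apply (v : V3) : N2 v = (v.2.2, 0, 0) := rfl

/-- Multiplication by `γ + y` in `ℂ[y] / (y ^ 3 - s y - p)`, in the basis `1, y/ε, y²/ε²`;
the parameter is `θ = (X, γ, s, p)`. -/
def Yop (ε : ℂ) (θ : ℂ × ℂ × ℂ × ℂ) : 𝔼 :=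
  θ.2.1 • (1 : 𝔼) + ε • N0 + (θ.2.2.1 / ε) • N1 + (θ.2.2.2 / ε ^ 2) • N2

/-- Evaluation at `y` in the scaled basis. -/
def evy (ε y : ℂ) : V3 →L[ℂ] ℂ :=
  ContinuousLinearMap.fst ℂ ℂ (ℂ × ℂ) +
    (y / ε) • ((ContinuousLinearMap.fst ℂ ℂ ℂ).comp (ContinuousLinearMap.snd ℂ ℂ (ℂ × ℂ))) +
    (y ^ 2 / ε ^ 2) • ((ContinuousLinearMap.snd ℂ ℂ ℂ).comp
      (ContinuousLinearMap.snd ℂ ℂ (ℂ × ℂ)))

theorem evy_apply (ε y : ℂ) (v : V3) :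
    evy ε y v = v.1 + (y / ε) * v.2.1 + (y ^ 2 / ε ^ 2) * v.2.2 := rfl

theorem evy_Yop {ε : ℂ} (hε : ε ≠ 0) (θ : ℂ × ℂ × ℂ × ℂ) (y : ℂ)
    (hy : y ^ 3 = θ.2.2.1 * y + θ.2.2.2) (v : V3) :
    evy ε y (Yop ε θ v) = (θ.2.1 + y) * evy ε y v := by
  have h1 : Yop ε θ v = (θ.2.1 * v.1 + θ.2.2.2 / ε ^ 2 * v.2.2,
      θ.2.1 * v.2.1 + ε * v.1 + θ.2.2.1 / ε * v.2.2, θ.2.1 * v.2.2 + ε * v.2.1) := by
    simp [Yop, Prod.ext_iff]
  rw [h1, evy_apply, evy_apply]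
  simp only
  field_simp
  linear_combination (-(v.2.2)) * hy

theorem evy_Yop_pow {ε : ℂ} (hε : ε ≠ 0) (θ : ℂ × ℂ × ℂ × ℂ) (y : ℂ)
    (hy : y ^ 3 = θ.2.2.1 * y + θ.2.2.2) (v : V3) (n : ℕ) :
    evy ε y ((Yop ε θ ^ n) v) = (θ.2.1 + y) ^ n * evy ε y v := by
  induction n with
  | zero => simp
  | succ n ih =>
    rw [pow_succ', mul_apply_eq_comp, evy_Yop hε θ y hy, ih, pow_succ']
    ring

theorem Yop_cube_isBigO (ε : ℂ) :
    (fun θ : ℂ × ℂ × ℂ × ℂ => Yop ε θ ^ 3) =O[𝓝 0] (fun θ => ‖θ‖) := by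
  have hd : DifferentiableAt ℂ (fun θ : ℂ × ℂ × ℂ × ℂ => Yop ε θ ^ 3) 0 := by
    unfold Yop
    fun_prop
  have h0 : Yop ε (0 : ℂ × ℂ × ℂ × ℂ) ^ 3 = 0 := by
    ext <;> simp [Yop, pow_succ]
  have := hd.isBigO_sub
  simp only [h0, sub_zero] at this
  exact this.norm_right

theorem contDiff_Yop (ε : ℂ) : ContDiff ℂ ω (fun θ : ℂ × ℂ × ℂ × ℂ => Yop ε θ) := by
  unfold Yop
  fun_prop

theorem analyticAt_Yop (ε : ℂ) : AnalyticAt ℂ (fun θ : ℂ × ℂ × ℂ × ℂ => (θ.1, Yop ε θ)) 0 :=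
  ((contDiff_fst (𝕜 := ℂ) (n := ω)).prodMk (contDiff_Yop ε)).contDiffAt.analyticAt

theorem Yop_zero (ε : ℂ) : Yop ε 0 = ε • N0 := by
  ext <;> simp [Yop]

/-- evaluation of a lifted series -/
theorem evy_lift {c : ℕ × ℕ → ℂ} {ε : ℂ} (hε : ε ≠ 0) (θ : ℂ × ℂ × ℂ × ℂ) (y : ℂ)
    (hy : y ^ 3 = θ.2.2.1 * y + θ.2.2.2) (v : V3)
    (h1 : HasSum (fun ij : ℕ × ℕ => c ij • (θ.1 ^ ij.1 • Yop ε θ ^ ij.2))
      (lift 𝔼 c (θ.1, Yop ε θ)))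
    (h2 : HasSum (fun ij : ℕ × ℕ => c ij • (θ.1 ^ ij.1 • (θ.2.1 + y) ^ ij.2))
      (lift ℂ c (θ.1, θ.2.1 + y))) :
    evy ε y ((lift 𝔼 c (θ.1, Yop ε θ)) v) = lift ℂ c (θ.1, θ.2.1 + y) * evy ε y v := by
  set T : 𝔼 →L[ℂ] ℂ := (evy ε y).comp (ContinuousLinearMap.apply ℂ V3 v) with hT
  have hT' : ∀ A : 𝔼, T A = evy ε y (A v) := fun A => rfl
  have h3 := h1.mapL T
  have h4 := h2.mul_right (evy ε y v)
  rw [← hT']
  refine h3.unique ?_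
  refine h4.congr_fun ?_ |> fun h => h
  intro ij
  rw [map_smul, map_smul, hT', evy_Yop_pow hε θ y hy]
  simp only [smul_eq_mul]
  ring

/-- Division by the generic depressed cubic. -/
theorem division {f : ℂ × ℂ → ℂ} (hf : AnalyticAt ℂ f 0)
    (hN : f =O[𝓝 0] (fun z => ‖z‖ ^ 20)) :
    ∃ v0 v1 v2 : ℂ × ℂ × ℂ × ℂ → ℂ, AnalyticAt ℂ v0 0 ∧ AnalyticAt ℂ v1 0 ∧ AnalyticAt ℂ v2 0 ∧
      v0 =O[𝓝 0] (fun θ => ‖θ‖ ^ 5) ∧ v1 =O[𝓝 0] (fun θ => ‖θ‖ ^ 5) ∧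
      v2 =O[𝓝 0] (fun θ => ‖θ‖ ^ 5) ∧
      ∀ᶠ w in 𝓝 (0 : (ℂ × ℂ × ℂ × ℂ) × ℂ), w.2 ^ 3 = w.1.2.2.1 * w.2 + w.1.2.2.2 →
        f (w.1.1, w.1.2.1 + w.2) = v0 w.1 + v1 w.1 * w.2 + v2 w.1 * w.2 ^ 2 := by
  obtain ⟨c1, c2, C, R, hR, hc1, hc2, -, -, hsplit⟩ :=
    exists_split (a := 5) (b := 15) hf hN (by norm_num) (by norm_num) (by norm_num)
  -- choose the scaling
  have hA1 := (analyticAt_lift (𝔸 := 𝔼) hR hc1).eventually_analyticAt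
  have hA2 := (analyticAt_lift (𝔸 := 𝔼) hR hc2).eventually_analyticAt
  have hS1 := (hasSum_lift (𝔸 := 𝔼) hR hc1).eventually_nhds
  have hS2 := (hasSum_lift (𝔸 := 𝔼) hR hc2).eventually_nhds
  have htend : Tendsto (fun ε : ℂ => ((0 : ℂ), ε • N0)) (𝓝[≠] 0) (𝓝 (0 : ℂ × 𝔼)) := by
    have : Continuous (fun ε : ℂ => ((0 : ℂ), ε • N0)) := by fun_prop
    have h := this.tendsto 0
    have e : ((0 : ℂ), (0 : ℂ) • N0) = (0 : ℂ × 𝔼) := by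
      rw [zero_smul ℂ (N0 : 𝔼)]; rfl
    rw [e] at h
    exact h.mono_left nhdsWithin_le_nhds
  obtain ⟨ε, ⟨⟨⟨⟨hA1, hA2⟩, hS1⟩, hS2⟩, hε⟩⟩ :=
    (((((htend.eventually hA1).and (htend.eventually hA2)).and (htend.eventually hS1)).and
      (htend.eventually hS2)).and self_mem_nhdsWithin).exists
  have hε : ε ≠ 0 := hε
  have hY0 : (fun θ : ℂ × ℂ × ℂ × ℂ => (θ.1, Yop ε θ)) 0 = ((0 : ℂ), ε • N0) := by
    simp only [Yop_zero]; rfl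
  set F1 : ℂ × ℂ × ℂ × ℂ → 𝔼 := fun θ => lift 𝔼 c1 (θ.1, Yop ε θ) with hF1
  set F2 : ℂ × ℂ × ℂ × ℂ → 𝔼 := fun θ => lift 𝔼 c2 (θ.1, Yop ε θ) with hF2
  have hF1a : AnalyticAt ℂ F1 0 :=
    AnalyticAt.comp_of_eq hA1 (analyticAt_Yop ε) hY0
  have hF2a : AnalyticAt ℂ F2 0 :=
    AnalyticAt.comp_of_eq hA2 (analyticAt_Yop ε) hY0
  have hYa : AnalyticAt ℂ (fun θ : ℂ × ℂ × ℂ × ℂ => Yop ε θ) 0 :=
    (contDiff_Yop ε).contDiffAt.analyticAt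
  set e0 : V3 := (1, 0, 0) with he0
  obtain ⟨Z, hZ⟩ : ∃ Z : ℂ × ℂ × ℂ × ℂ → 𝔼, Z = fun θ => Yop ε θ ^ 15 := ⟨_, rfl⟩
  have hZa : AnalyticAt ℂ Z 0 := by
    rw [hZ]; exact hYa.pow 15
  set W : ℂ × ℂ × ℂ × ℂ → V3 := fun θ =>
    θ.1 ^ 5 • (F1 θ e0) + (Z θ * F2 θ) e0 with hW
  have hWa : AnalyticAt ℂ W 0 := by
    have h1 : AnalyticAt ℂ (fun θ : ℂ × ℂ × ℂ × ℂ => F1 θ e0) 0 :=
      ((ContinuousLinearMap.apply ℂ V3 e0).analyticAt _).comp hF1a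
    have h2 : AnalyticAt ℂ (fun θ : ℂ × ℂ × ℂ × ℂ => (Z θ * F2 θ) e0) 0 :=
      ((ContinuousLinearMap.apply ℂ V3 e0).analyticAt _).comp (hZa.mul hF2a)
    have h3 : AnalyticAt ℂ (fun θ : ℂ × ℂ × ℂ × ℂ => θ.1 ^ 5) 0 := analyticAt_fst.pow 5
    exact (h3.smul h1).add h2
  have hWO : W =O[𝓝 0] (fun θ => ‖θ‖ ^ 5) := by
    have h1 : (fun θ : ℂ × ℂ × ℂ × ℂ => θ.1 ^ 5 • (F1 θ e0)) =O[𝓝 0] (fun θ => ‖θ‖ ^ 5 * 1) := by
      have ha : (fun θ : ℂ × ℂ × ℂ × ℂ => θ.1 ^ 5) =O[𝓝 0] (fun θ => ‖θ‖ ^ 5) := by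
        refine IsBigO.pow (IsBigO.of_bound 1 ?_) 5
        filter_upwards with θ
        rw [one_mul, norm_norm]
        exact norm_fst_le θ
      have hb : (fun θ : ℂ × ℂ × ℂ × ℂ => F1 θ e0) =O[𝓝 0] (fun _ => (1 : ℝ)) := by
        have hcont : ContinuousAt (fun θ : ℂ × ℂ × ℂ × ℂ => F1 θ e0) 0 :=
          ((ContinuousLinearMap.apply ℂ V3 e0).continuous.continuousAt).comp hF1a.continuousAt
        exact hcont.tendsto.isBigO_one ℝ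
      exact ha.smul hb
    have h2 : (fun θ : ℂ × ℂ × ℂ × ℂ => (Z θ * F2 θ) e0) =O[𝓝 0]
        (fun θ => ‖θ‖ ^ 5 * 1) := by
      have ha : Z =O[𝓝 0] (fun θ => ‖θ‖ ^ 5) := by
        have := (Yop_cube_isBigO ε).pow 5
        rw [hZ]
        simpa only [← pow_mul] using this
      have hb : (fun θ : ℂ × ℂ × ℂ × ℂ => F2 θ) =O[𝓝 0] (fun _ => (1 : ℝ)) :=
        hF2a.continuousAt.tendsto.isBigO_one ℝ
      have hab := ha.mul hb
      refine IsBigO.trans ?_ hab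
      refine IsBigO.of_bound ‖e0‖ ?_
      filter_upwards with θ
      rw [mul_comm]
      exact (Z θ * F2 θ).le_opNorm e0
    have := h1.add h2
    simpa only [mul_one] using this
  refine ⟨fun θ => (W θ).1, fun θ => (W θ).2.1 / ε, fun θ => (W θ).2.2 / ε ^ 2,
    ?_, ?_, ?_, ?_, ?_, ?_, ?_⟩
  · exact (ContinuousLinearMap.fst ℂ ℂ (ℂ × ℂ)).analyticAt _ |>.comp hWa
  · exact (((ContinuousLinearMap.fst ℂ ℂ ℂ).comp
      (ContinuousLinearMap.snd ℂ ℂ (ℂ × ℂ))).analyticAt _ |>.comp hWa).div_const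
  · exact (((ContinuousLinearMap.snd ℂ ℂ ℂ).comp
      (ContinuousLinearMap.snd ℂ ℂ (ℂ × ℂ))).analyticAt _ |>.comp hWa).div_const
  · refine IsBigO.trans (IsBigO.of_bound 1 ?_) hWO
    filter_upwards with θ
    rw [one_mul]; exact norm_fst_le _
  · refine IsBigO.trans (IsBigO.of_bound ‖ε‖⁻¹ ?_) hWO
    filter_upwards with θ
    rw [norm_div, div_eq_inv_mul]
    gcongr
    exact (norm_fst_le (W θ).2).trans (norm_snd_le (W θ))
  · refine IsBigO.trans (IsBigO.of_bound ‖ε ^ 2‖⁻¹ ?_) hWO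
    filter_upwards with θ
    rw [norm_div, div_eq_inv_mul]
    gcongr
    exact (norm_snd_le (W θ).2).trans (norm_snd_le (W θ))
  · -- the identity
    have t1 : Tendsto (fun w : (ℂ × ℂ × ℂ × ℂ) × ℂ => (w.1.1, Yop ε w.1)) (𝓝 0)
        (𝓝 ((0 : ℂ), ε • N0)) := by
      have h : ContinuousAt (fun w : (ℂ × ℂ × ℂ × ℂ) × ℂ => (w.1.1, Yop ε w.1)) 0 := by
        unfold Yop; fun_prop
      have h' := h.tendsto
      simp only [Prod.fst_zero, Yop_zero] at h'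
      exact h'
    have t2 : Tendsto (fun w : (ℂ × ℂ × ℂ × ℂ) × ℂ => (w.1.1, w.1.2.1 + w.2)) (𝓝 0)
        (𝓝 (0 : ℂ × ℂ)) := by
      have h : ContinuousAt (fun w : (ℂ × ℂ × ℂ × ℂ) × ℂ => (w.1.1, w.1.2.1 + w.2)) 0 := by
        fun_prop
      have h' := h.tendsto
      simp only [Prod.fst_zero, Prod.snd_zero, add_zero] at h'
      exact h'
    filter_upwards [t1.eventually hS1, t1.eventually hS2,
      t2.eventually (hasSum_lift (𝔸 := ℂ) hR hc1), t2.eventually (hasSum_lift (𝔸 := ℂ) hR hc2),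
      t2.eventually hsplit] with w q1 q2 q3 q4 q5 hy
    have g1 := evy_lift hε w.1 w.2 hy e0 q1 q3
    have g2 := evy_lift hε w.1 w.2 hy e0 q2 q4
    have ee : evy ε w.2 e0 = 1 := by simp [evy_apply, he0]
    rw [ee, mul_one] at g1 g2
    have key : evy ε w.2 (W w.1) = f (w.1.1, w.1.2.1 + w.2) := by
      rw [q5]
      simp only [hW]
      rw [map_add, map_smul]
      have e3 : (Z w.1 * F2 w.1) e0 = (Z w.1) ((F2 w.1) e0) := rfl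
      rw [e3, hZ]
      simp only
      rw [evy_Yop_pow hε w.1 w.2 hy]
      simp only [hF1, hF2, g1, g2, smul_eq_mul]
    rw [← key, evy_apply]
    ring

end

end Pool.Agent.Lib.MP_729182_ag
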