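import Pool.Agent.Lib.MP_729182_ag.Branch

/-!
The paired branches of `Phi` and their topological inequivalence.
-/

set_option autoImplicit false
set_option linter.unusedSectionVars false

namespace Pool.Agent.Lib.MP_729182_ag

open Filter Topology Asymptotics
open scoped ContDiff

noncomputable section

/-- equation of the smooth branch -/
def fS (a : ℂ → ℂ) (z : C2) : ℂ := z.1 * a z.1 ^ 2 - z.2 ^ 2

/-- equation of the cuspidal branch -/
def fC (a : ℂ → ℂ) (z : C2) : ℂ := z.1 ^ 3 - z.2 ^ 2 * a z.1 ^ 2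

theorem Tang.exists_homeo {E : Type*} [NormedAddCommGroup E] [NormedSpace ℂ E] [CompleteSpace E]
    {φ : E → E} (h : Tang φ) :
    ∃ e : OpenPartialHomeomorph E E, (0 : E) ∈ e.source ∧ (e : E → E) = φ := by
  have hcd : ContDiffAt ℂ ω φ 0 := h.1.contDiffAt
  have hfd : HasFDerivAt φ ((ContinuousLinearEquiv.refl ℂ E : E ≃L[ℂ] E) : E →L[ℂ] E) 0 := by
    simpa using h.hasFDerivAt
  exact ⟨hcd.toOpenPartialHomeomorph φ hfd (by simp),
    hcd.mem_toOpenPartialHomeomorph_source hfd (by simp), rfl⟩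

section

variable {a : ℂ → ℂ} (ha : AnalyticAt ℂ a 0) (ha0 : a 0 = 1)
  (haa : ∀ᶠ x in 𝓝 (0 : ℂ), a x ^ 4 - (1 - x) * a x ^ 2 + x ^ 2 = 0)

include ha ha0 haa

theorem an_a1 : ContDiffAt ℂ ω a (0 : C2).1 := ha.contDiffAt

theorem an_fS : AnalyticAt ℂ (fS a) 0 := by
  have h := an_a1 ha ha0 haa
  have : ContDiffAt ℂ ω (fS a) 0 := by unfold fS; fun_prop
  exact this.analyticAt

theorem an_fC : AnalyticAt ℂ (fC a) 0 := by
  have h := an_a1 ha ha0 haa
  have : ContDiffAt ℂ ω (fC a) 0 := by unfold fC; fun_prop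
  exact this.analyticAt

theorem ev_a : ∀ᶠ z in 𝓝 (0 : C2), a z.1 ^ 4 - (1 - z.1) * a z.1 ^ 2 + z.1 ^ 2 = 0 ∧
    a z.1 ≠ 0 ∧ z.1 ≠ -1 ∧ z.1 ≠ 1 / 3 := by
  have ht : Tendsto (fun z : C2 => z.1) (𝓝 0) (𝓝 0) := by
    have := (continuous_fst (X := ℂ) (Y := ℂ)).tendsto 0
    simpa using this
  have h2 : ∀ᶠ x in 𝓝 (0 : ℂ), a x ≠ 0 :=
    ha.continuousAt.eventually_ne (by rw [ha0]; exact one_ne_zero)
  have h3 : ∀ᶠ x in 𝓝 (0 : ℂ), x ≠ -1 := continuousAt_id.eventually_ne (by simp)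
  have h4 : ∀ᶠ x in 𝓝 (0 : ℂ), x ≠ 1 / 3 := continuousAt_id.eventually_ne (by simp)
  filter_upwards [ht.eventually haa, ht.eventually h2, ht.eventually h3, ht.eventually h4]
    with z e1 e2 e3 e4
  exact ⟨e1, e2, e3, e4⟩

/-- factorization of the quartic factor -/
theorem ev_factor : ∀ᶠ z in 𝓝 (0 : C2),
    (z.2 ^ 4 - (z.1 - z.1 ^ 2) * z.2 ^ 2 + z.1 ^ 4) * a z.1 ^ 2 = fS a z * fC a z := by
  filter_upwards [ev_a ha ha0 haa] with z hz
  simp only [fS, fC]
  linear_combination (z.1 * z.2 ^ 2) * hz.1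

theorem ev_DD : ∀ᶠ z in 𝓝 (0 : C2), z ∈ DD ↔
    (z.2 ^ 2 - z.1) * (fS a z * fC a z) = 0 := by
  filter_upwards [ev_factor ha ha0 haa, ev_a ha ha0 haa] with z h1 h2
  rw [← h1]
  have e : (z ∈ DD) = ((z.2 ^ 2 - z.1) * (z.2 ^ 4 - (z.1 - z.1 ^ 2) * z.2 ^ 2 + z.1 ^ 4) = 0) := rfl
  rw [e, ← mul_assoc]
  have h3 : a z.1 ^ 2 ≠ 0 := pow_ne_zero 2 h2.2.1
  constructor
  · intro h; rw [h]; ring
  · intro h
    rcases mul_eq_zero.1 h with h | h
    · exact h
    · exact absurd h h3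

theorem an_param (n : ℕ) (g : ℂ → ℂ) (hg : AnalyticAt ℂ g 0) :
    AnalyticAt ℂ (fun t : ℂ => ((t ^ 2, t ^ n * g (t ^ 2)) : C2)) 0 := by
  have h2 : AnalyticAt ℂ (fun t : ℂ => t ^ 2) 0 :=
    (by fun_prop : ContDiff ℂ ω (fun t : ℂ => t ^ 2)).contDiffAt.analyticAt
  have h3 : AnalyticAt ℂ (fun t : ℂ => t ^ n) 0 :=
    (by fun_prop : ContDiff ℂ ω (fun t : ℂ => t ^ n)).contDiffAt.analyticAt
  have h4 : AnalyticAt ℂ (fun t : ℂ => g (t ^ 2)) 0 := hg.comp_of_eq h2 (by norm_num)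
  exact h2.prod (h3.mul h4)

theorem tendsto_sq : Tendsto (fun t : ℂ => t ^ 2) (𝓝 0) (𝓝 0) := by
  have : Continuous (fun t : ℂ => t ^ 2) := by fun_prop
  exact this.tendsto' 0 0 (by norm_num)

/-- a point with `z.1 = t²` and small `z` has small `t` -/
theorem small_sqrt {V : Set ℂ} (hV : V ∈ 𝓝 (0 : ℂ)) :
    ∀ᶠ z in 𝓝 (0 : C2), ∀ t : ℂ, t ^ 2 = z.1 → t ∈ V := by
  obtain ⟨r, hr, hball⟩ := Metric.mem_nhds_iff.1 hV
  have h2 : ∀ᶠ z in 𝓝 (0 : C2), ‖z.1‖ < r ^ 2 := by
    have hc : Continuous (fun z : C2 => ‖z.1‖) := by fun_prop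
    have : Tendsto (fun z : C2 => ‖z.1‖) (𝓝 0) (𝓝 0) := hc.tendsto' 0 0 (by simp)
    exact this.eventually (eventually_lt_nhds (by positivity))
  filter_upwards [h2] with z hz t ht
  apply hball
  rw [mem_ball_zero_iff]
  have : ‖t‖ ^ 2 < r ^ 2 := by rw [← norm_pow, ht]; exact hz
  exact lt_of_pow_lt_pow_left₀ 2 hr.le this

/-- the smooth branch is a component -/
theorem isComponent_S : IsComponent DD {z | fS a z = 0} := by
  have hSa := an_fS ha ha0 haa
  have hCa := an_fC ha ha0 haa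
  have hq : AnalyticAt ℂ (fun z : C2 => z.2 ^ 2 - z.1) 0 :=
    (by fun_prop : ContDiff ℂ ω (fun z : C2 => z.2 ^ 2 - z.1)).contDiffAt.analyticAt
  have hγ := an_param ha ha0 haa 1 a ha
  have hat := (tendsto_sq ha ha0 haa).eventually haa
  refine isComponent_of_param (f := fS a) (r := fun z => (z.2 ^ 2 - z.1) * fC a z) hSa
    (hq.mul hCa) hγ (by simp) ?_ ?_ ?_ ?_
  · filter_upwards [ev_DD ha ha0 haa] with z hz
    rw [hz]
    constructor
    · intro h
      rcases mul_eq_zero.1 h with h | h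
      · right; rw [h, zero_mul]
      · rcases mul_eq_zero.1 h with h | h
        · left; exact h
        · right; rw [h, mul_zero]
    · rintro (h | h)
      · rw [h]; ring
      · rcases mul_eq_zero.1 h with h | h
        · rw [h, zero_mul]
        · rw [h]; ring
  · filter_upwards with t
    simp only [fS]; ring
  · intro V hV
    have hV' : V ∩ {t | -t ∈ V} ∈ 𝓝 (0 : ℂ) := by
      refine Filter.inter_mem hV ?_
      have : Tendsto (fun t : ℂ => -t) (𝓝 0) (𝓝 0) := by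
        have := (continuous_neg (G := ℂ)).tendsto 0
        simpa using this
      exact this hV
    filter_upwards [small_sqrt ha ha0 haa hV', ev_a ha ha0 haa] with z hz hz2 hfz
    have hf : z.1 * a z.1 ^ 2 - z.2 ^ 2 = 0 := hfz
    have hane := hz2.2.1
    -- `t = z.2 / a`
    refine ⟨z.2 / a z.1, (hz _ ?_).1, ?_⟩
    · field_simp; linear_combination -hf
    · have e : (z.2 / a z.1) ^ 2 = z.1 := by field_simp; linear_combination -hf
      have e2 : z.2 / a z.1 * a z.1 = z.2 := div_mul_cancel₀ _ hane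
      refine Prod.ext ?_ ?_
      · exact e
      · show (z.2 / a z.1) ^ 1 * a ((z.2 / a z.1) ^ 2) = z.2
        rw [e, pow_one, e2]
  · -- off the other components
    have h3 : ∀ᶠ t in 𝓝[≠] (0 : ℂ), a (t ^ 2) ^ 4 - (1 - t ^ 2) * a (t ^ 2) ^ 2 + (t ^ 2) ^ 2 = 0 :=
      hat.filter_mono nhdsWithin_le_nhds
    have ht0 : Tendsto (fun t : ℂ => ((t ^ 2, 0) : C2)) (𝓝 0) (𝓝 0) := by
      have : Continuous (fun t : ℂ => ((t ^ 2, 0) : C2)) := by fun_prop
      exact this.tendsto' 0 0 (by simp [Prod.ext_iff])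
    have h4 := (ht0.eventually (ev_a ha ha0 haa)).filter_mono (nhdsWithin_le_nhds (s := {0}ᶜ))
    filter_upwards [h3, h4, self_mem_nhdsWithin] with t e1 e2 ht
    have ht : t ≠ 0 := ht
    obtain ⟨-, f2, f3, f4⟩ := e2
    intro h
    rcases mul_eq_zero.1 h with h | h
    · -- `a² = 1`
      simp only [pow_one] at h
      have g1 : t ^ 2 * (a (t ^ 2) ^ 2 - 1) = 0 := by linear_combination h
      rcases mul_eq_zero.1 g1 with g | g
      · exact ht (pow_eq_zero_iff (by norm_num) |>.1 g)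
      · have g2 : a (t ^ 2) ^ 2 = 1 := by linear_combination g
        have g3 : a (t ^ 2) ^ 4 = 1 := by
          have : a (t ^ 2) ^ 4 = (a (t ^ 2) ^ 2) ^ 2 := by ring
          rw [this, g2]; norm_num
        rw [g2, g3] at e1
        have g4 : t ^ 2 * (1 + t ^ 2) = 0 := by linear_combination e1
        rcases mul_eq_zero.1 g4 with g5 | g5
        · exact ht (pow_eq_zero_iff (by norm_num) |>.1 g5)
        · exact f3 (by linear_combination g5)
    · simp only [fC, pow_one] at h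
      have g1 : t ^ 2 * ((t ^ 2) ^ 2 - a (t ^ 2) ^ 4) = 0 := by linear_combination h
      rcases mul_eq_zero.1 g1 with g | g
      · exact ht (pow_eq_zero_iff (by norm_num) |>.1 g)
      · -- `a⁴ = x²`, hence `(1 - x) a² = 2 x²`
        have g2 : a (t ^ 2) ^ 4 = (t ^ 2) ^ 2 := by linear_combination -g
        have g3 : (a (t ^ 2) ^ 2 - t ^ 2) * (a (t ^ 2) ^ 2 + t ^ 2) = 0 := by
          linear_combination g2
        rcases mul_eq_zero.1 g3 with g4 | g4
        · -- `a² = x`: then `x² - (1-x) x + x² = 0`, so `x (3x - 1) = 0`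
          have g5 : a (t ^ 2) ^ 2 = t ^ 2 := by linear_combination g4
          rw [g2, g5] at e1
          have g6 : t ^ 2 * (3 * t ^ 2 - 1) = 0 := by linear_combination e1
          rcases mul_eq_zero.1 g6 with g7 | g7
          · exact ht (pow_eq_zero_iff (by norm_num) |>.1 g7)
          · exact f4 (by linear_combination (1 / 3) * g7)
        · have g5 : a (t ^ 2) ^ 2 = -t ^ 2 := by linear_combination g4
          rw [g2, g5] at e1
          have g6 : t ^ 2 * (1 + t ^ 2) = 0 := by linear_combination e1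
          rcases mul_eq_zero.1 g6 with g7 | g7
          · exact ht (pow_eq_zero_iff (by norm_num) |>.1 g7)
          · exact f3 (by linear_combination g7)

/-- the cuspidal branch is a component -/
theorem isComponent_C : IsComponent DD {z | fC a z = 0} := by
  have hSa := an_fS ha ha0 haa
  have hCa := an_fC ha ha0 haa
  have hq : AnalyticAt ℂ (fun z : C2 => z.2 ^ 2 - z.1) 0 :=
    (by fun_prop : ContDiff ℂ ω (fun z : C2 => z.2 ^ 2 - z.1)).contDiffAt.analyticAt
  have hγ := an_param ha ha0 haa 3 (fun x => (a x)⁻¹) (ha.inv (by rw [ha0]; exact one_ne_zero))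
  have hat := (tendsto_sq ha ha0 haa).eventually haa
  have ht0 : Tendsto (fun t : ℂ => ((t ^ 2, 0) : C2)) (𝓝 0) (𝓝 0) := by
    have : Continuous (fun t : ℂ => ((t ^ 2, 0) : C2)) := by fun_prop
    exact this.tendsto' 0 0 (by simp [Prod.ext_iff])
  refine isComponent_of_param (f := fC a) (r := fun z => (z.2 ^ 2 - z.1) * fS a z) hCa
    (hq.mul hSa) hγ (by simp) ?_ ?_ ?_ ?_
  · filter_upwards [ev_DD ha ha0 haa] with z hz
    rw [hz]
    constructor
    · intro h
      rcases mul_eq_zero.1 h with h | h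
      · right; rw [h, zero_mul]
      · rcases mul_eq_zero.1 h with h | h
        · right; rw [h, mul_zero]
        · left; exact h
    · rintro (h | h)
      · rw [h]; ring
      · rcases mul_eq_zero.1 h with h | h
        · rw [h, zero_mul]
        · rw [h]; ring
  · filter_upwards [ht0.eventually (ev_a ha ha0 haa)] with t ht
    have hane : a (t ^ 2) ≠ 0 := ht.2.1
    simp only [fC]
    field_simp
    ring
  · intro V hV
    filter_upwards [small_sqrt ha ha0 haa hV, ev_a ha ha0 haa] with z hz hz2 hfz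
    have hf : z.1 ^ 3 - z.2 ^ 2 * a z.1 ^ 2 = 0 := hfz
    have hane := hz2.2.1
    by_cases hx : z.1 = 0
    · have hy : z.2 = 0 := by
        rw [hx] at hf hane
        have h1 : z.2 ^ 2 * a 0 ^ 2 = 0 := by linear_combination -hf
        rcases mul_eq_zero.1 h1 with h | h
        · exact pow_eq_zero_iff (by norm_num) |>.1 h
        · exact absurd h (pow_ne_zero 2 hane)
      refine ⟨0, hz 0 (by rw [hx]; norm_num), ?_⟩
      refine Prod.ext ?_ ?_
      · rw [hx]; norm_num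
      · rw [hy]; norm_num
    · have e : (z.2 * a z.1 / z.1) ^ 2 = z.1 := by field_simp; linear_combination -hf
      refine ⟨z.2 * a z.1 / z.1, hz _ e, ?_⟩
      refine Prod.ext e ?_
      show (z.2 * a z.1 / z.1) ^ 3 * (a ((z.2 * a z.1 / z.1) ^ 2))⁻¹ = z.2
      have e3 : (z.2 * a z.1 / z.1) ^ 3 = (z.2 * a z.1 / z.1) * (z.2 * a z.1 / z.1) ^ 2 := by ring
      rw [e3, e]
      field_simp
  · -- off the other components
    have h3 : ∀ᶠ t in 𝓝[≠] (0 : ℂ), a (t ^ 2) ^ 4 - (1 - t ^ 2) * a (t ^ 2) ^ 2 + (t ^ 2) ^ 2 = 0 :=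
      hat.filter_mono nhdsWithin_le_nhds
    have h4 := (ht0.eventually (ev_a ha ha0 haa)).filter_mono (nhdsWithin_le_nhds (s := {0}ᶜ))
    filter_upwards [h3, h4, self_mem_nhdsWithin] with t e1 e2 ht
    have ht : t ≠ 0 := ht
    obtain ⟨-, f2, f3, f4⟩ := e2
    have f2 : a (t ^ 2) ≠ 0 := f2
    have ht2 : t ^ 2 ≠ 0 := pow_ne_zero 2 ht
    intro h
    rcases mul_eq_zero.1 h with h | h
    · -- `a² = x²`
      have g1 : t ^ 2 * ((t ^ 2) ^ 2 - a (t ^ 2) ^ 2) = 0 := by
        have : (t ^ 3 * (a (t ^ 2))⁻¹) ^ 2 - t ^ 2 = 0 := h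
        field_simp at this
        linear_combination this
      rcases mul_eq_zero.1 g1 with g | g
      · exact ht2 g
      · have g2 : a (t ^ 2) ^ 2 = (t ^ 2) ^ 2 := by linear_combination -g
        have g3 : a (t ^ 2) ^ 4 = (t ^ 2) ^ 4 := by
          have : a (t ^ 2) ^ 4 = (a (t ^ 2) ^ 2) ^ 2 := by ring
          rw [this, g2]; ring
        rw [g2, g3] at e1
        have g4 : (t ^ 2) ^ 3 * (1 + t ^ 2) = 0 := by linear_combination e1
        rcases mul_eq_zero.1 g4 with g5 | g5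
        · exact pow_ne_zero 3 ht2 g5
        · exact f3 (by linear_combination g5)
    · have g1 : t ^ 2 * ((t ^ 2) ^ 2 - a (t ^ 2) ^ 4) = 0 := by
        have : t ^ 2 * a (t ^ 2) ^ 2 - (t ^ 3 * (a (t ^ 2))⁻¹) ^ 2 = 0 := h
        field_simp at this
        linear_combination -this
      rcases mul_eq_zero.1 g1 with g | g
      · exact ht2 g
      · have g2 : a (t ^ 2) ^ 4 = (t ^ 2) ^ 2 := by linear_combination -g
        have g3 : (a (t ^ 2) ^ 2 - t ^ 2) * (a (t ^ 2) ^ 2 + t ^ 2) = 0 := by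
          linear_combination g2
        rcases mul_eq_zero.1 g3 with g4 | g4
        · have g5 : a (t ^ 2) ^ 2 = t ^ 2 := by linear_combination g4
          rw [g2, g5] at e1
          have g6 : t ^ 2 * (3 * t ^ 2 - 1) = 0 := by linear_combination e1
          rcases mul_eq_zero.1 g6 with g7 | g7
          · exact ht2 g7
          · exact f4 (by linear_combination (1 / 3) * g7)
        · have g5 : a (t ^ 2) ^ 2 = -t ^ 2 := by linear_combination g4
          rw [g2, g5] at e1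
          have g6 : t ^ 2 * (1 + t ^ 2) = 0 := by linear_combination e1
          rcases mul_eq_zero.1 g6 with g7 | g7
          · exact ht2 g7
          · exact f3 (by linear_combination g7)

/-- unique partner -/
theorem unique_partner {U : Set C2} {p : C2} (hx : p.1 ≠ 0) (hx3 : p.1 ≠ 1 / 3) (hy : p.2 ≠ 0)
    (hq : p.2 ^ 4 - (p.1 - p.1 ^ 2) * p.2 ^ 2 + p.1 ^ 4 = 0) (hyx : p.2 ^ 2 ≠ p.1)
    (hU : ∀ y' : ℂ, y' ^ 2 = p.1 - p.1 ^ 2 - p.2 ^ 2 → (p.1, y') ∈ U) :
    ∃! p', p' ∈ U ∧ p' ≠ p ∧ Phi p' = Phi p := by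
  have e1 : p.2 * (p.1 ^ 2 / p.2) = p.1 ^ 2 := mul_div_cancel₀ _ hy
  have e2 : (p.1 ^ 2 / p.2) ^ 2 = p.1 - p.1 ^ 2 - p.2 ^ 2 := by
    field_simp
    linear_combination hq
  refine ⟨(p.1, p.1 ^ 2 / p.2), ⟨hU _ e2, ?_, Phi_partner e1 e2⟩, ?_⟩
  · intro h'
    have h2 : p.1 ^ 2 / p.2 = p.2 := congrArg Prod.snd h'
    rw [h2] at e1
    have e3 : p.2 ^ 2 = p.1 ^ 2 := by linear_combination e1
    have e4 : p.1 ^ 3 * (3 * p.1 - 1) = 0 := by
      have : p.2 ^ 4 = p.1 ^ 4 := by linear_combination (p.2 ^ 2 + p.1 ^ 2) * e3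
      rw [this, e3] at hq
      linear_combination hq
    rcases mul_eq_zero.1 e4 with h5 | h5
    · exact hx (pow_eq_zero_iff (by norm_num) |>.1 h5)
    · exact hx3 (by linear_combination (1 / 3) * h5)
  · rintro p' ⟨-, hne, hPhi⟩
    obtain ⟨h1, h | h⟩ := mem_DD_of_double hne hPhi
    · exact absurd h.2 hyx
    · refine Prod.ext h1 ?_
      show p'.2 = p.1 ^ 2 / p.2
      rw [eq_div_iff hy, mul_comm]
      exact h.1

theorem involution_SC : InvolutionMaps Phi {z | fS a z = 0} {z | fC a z = 0} := by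
  refine ⟨Set.univ, univ_mem, fun U hU _ => ?_⟩
  filter_upwards [partner_small hU, ev_a ha ha0 haa, ev_factor ha ha0 haa] with p h1 h2 h3 hp hp0
  obtain ⟨g1, g2, g3, g4⟩ := h2
  have hf : p.1 * a p.1 ^ 2 - p.2 ^ 2 = 0 := hp
  have hx : p.1 ≠ 0 := by
    intro hx
    apply hp0
    rw [hx] at hf
    have : p.2 ^ 2 = 0 := by linear_combination -hf
    exact Prod.ext hx (pow_eq_zero_iff (by norm_num) |>.1 this)
  have hy : p.2 ≠ 0 := by
    intro hy
    rw [hy] at hf
    have : p.1 * a p.1 ^ 2 = 0 := by linear_combination hf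
    exact (mul_ne_zero hx (pow_ne_zero 2 g2)) this
  have hq : p.2 ^ 4 - (p.1 - p.1 ^ 2) * p.2 ^ 2 + p.1 ^ 4 = 0 := by
    have : fS a p = 0 := hp
    rw [this, zero_mul] at h3
    rcases mul_eq_zero.1 h3 with h | h
    · exact h
    · exact absurd h (pow_ne_zero 2 g2)
  have hyx : p.2 ^ 2 ≠ p.1 := by
    intro h
    have k1 : p.1 * (a p.1 ^ 2 - 1) = 0 := by linear_combination hf + h
    rcases mul_eq_zero.1 k1 with k | k
    · exact hx k
    · have k2 : a p.1 ^ 2 = 1 := by linear_combination k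
      have k3 : a p.1 ^ 4 = 1 := by
        have : a p.1 ^ 4 = (a p.1 ^ 2) ^ 2 := by ring
        rw [this, k2]; norm_num
      rw [k2, k3] at g1
      have k4 : p.1 * (1 + p.1) = 0 := by linear_combination g1
      rcases mul_eq_zero.1 k4 with k5 | k5
      · exact hx k5
      · exact g3 (by linear_combination k5)
  refine ⟨unique_partner ha ha0 haa hx g4 hy hq hyx h1.2, ?_⟩
  intro p' _ hne hPhi
  obtain ⟨k1, k | k⟩ := mem_DD_of_double hne hPhi
  · exact absurd k.2 hyx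
  · show p'.1 ^ 3 - p'.2 ^ 2 * a p'.1 ^ 2 = 0
    rw [k1]
    have k2 : p.1 * (p.1 ^ 3 - p'.2 ^ 2 * a p.1 ^ 2) = 0 := by
      linear_combination (-(p.2 * p'.2) - p.1 ^ 2) * k.1 - p'.2 ^ 2 * hf
    rcases mul_eq_zero.1 k2 with k3 | k3
    · exact absurd k3 hx
    · exact k3

theorem involution_CS : InvolutionMaps Phi {z | fC a z = 0} {z | fS a z = 0} := by
  refine ⟨Set.univ, univ_mem, fun U hU _ => ?_⟩
  filter_upwards [partner_small hU, ev_a ha ha0 haa, ev_factor ha ha0 haa] with p h1 h2 h3 hp hp0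
  obtain ⟨g1, g2, g3, g4⟩ := h2
  have hf : p.1 ^ 3 - p.2 ^ 2 * a p.1 ^ 2 = 0 := hp
  have hx : p.1 ≠ 0 := by
    intro hx
    apply hp0
    have : p.2 ^ 2 * a p.1 ^ 2 = 0 := by
      have h0 : p.1 ^ 3 = 0 := by rw [hx]; norm_num
      linear_combination h0 - hf
    rcases mul_eq_zero.1 this with h | h
    · exact Prod.ext hx (pow_eq_zero_iff (by norm_num) |>.1 h)
    · exact absurd h (pow_ne_zero 2 g2)
  have hy : p.2 ≠ 0 := by
    intro hy
    rw [hy] at hf
    have : p.1 ^ 3 = 0 := by linear_combination hf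
    exact hx (pow_eq_zero_iff (by norm_num) |>.1 this)
  have hq : p.2 ^ 4 - (p.1 - p.1 ^ 2) * p.2 ^ 2 + p.1 ^ 4 = 0 := by
    have : fC a p = 0 := hp
    rw [this, mul_zero] at h3
    rcases mul_eq_zero.1 h3 with h | h
    · exact h
    · exact absurd h (pow_ne_zero 2 g2)
  have hyx : p.2 ^ 2 ≠ p.1 := by
    intro h
    have k1 : p.1 * (p.1 ^ 2 - a p.1 ^ 2) = 0 := by linear_combination hf + a p.1 ^ 2 * h
    rcases mul_eq_zero.1 k1 with k | k
    · exact hx k
    · have k2 : a p.1 ^ 2 = p.1 ^ 2 := by linear_combination -k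
      have k3 : a p.1 ^ 4 = p.1 ^ 4 := by
        have : a p.1 ^ 4 = (a p.1 ^ 2) ^ 2 := by ring
        rw [this, k2]; ring
      rw [k2, k3] at g1
      have k4 : p.1 ^ 3 * (1 + p.1) = 0 := by linear_combination g1
      rcases mul_eq_zero.1 k4 with k5 | k5
      · exact hx (pow_eq_zero_iff (by norm_num) |>.1 k5)
      · exact g3 (by linear_combination k5)
  refine ⟨unique_partner ha ha0 haa hx g4 hy hq hyx h1.2, ?_⟩
  intro p' _ hne hPhi
  obtain ⟨k1, k | k⟩ := mem_DD_of_double hne hPhi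
  · exact absurd k.2 hyx
  · show p'.1 * a p'.1 ^ 2 - p'.2 ^ 2 = 0
    rw [k1]
    have k2 : p.1 ^ 3 * (p.1 * a p.1 ^ 2 - p'.2 ^ 2) = 0 := by
      linear_combination (-(p.2 * p'.2) - p.1 ^ 2) * a p.1 ^ 2 * k.1 - p'.2 ^ 2 * hf
    rcases mul_eq_zero.1 k2 with k3 | k3
    · exact absurd k3 (pow_ne_zero 3 hx)
    · exact k3

theorem not_topEquiv : ¬ TopEquiv {z | fS a z = 0} {z | fC a z = 0} := by
  rintro ⟨h, hs, h0, hC⟩
  have hA1 : ContDiffAt ℂ ω a (0 : C2).1 := ha.contDiffAt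
  have x1 : (fun z : C2 => z.1) =O[𝓝 0] (fun z => ‖z‖ ^ 1) :=
    AnalyticAt.isBigO_id analyticAt_fst rfl
  have y1 : (fun z : C2 => z.2) =O[𝓝 0] (fun z => ‖z‖ ^ 1) :=
    AnalyticAt.isBigO_id analyticAt_snd rfl
  -- straightening of the smooth branch
  have hT1 : Tang (fun z : C2 => (fS a z, z.2)) := by
    refine ⟨(an_fS ha ha0 haa).prod analyticAt_snd, ?_⟩
    have s1 : ContDiffAt ℂ ω (fun z : C2 => a z.1 ^ 2 - 1) 0 := by fun_prop
    have b1 := isBigO_pow_mul x1 (AnalyticAt.isBigO_id s1.analyticAt (by simp [ha0]))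
    have b2 := isBigO_pow_mul y1 y1
    have b4 : (fun _ => (0 : ℂ)) =O[𝓝 0] (fun t : C2 => ‖t‖ ^ 2) := isBigO_zero _ _
    refine (isBigO_prod (b1.sub b2) b4).congr_left fun z => ?_
    simp only [fS, Prod.ext_iff, Prod.fst_sub, Prod.snd_sub]
    constructor <;> ring
  have hT2 : Tang (fun z : C2 => (z.1, z.2 * a z.1)) := by
    have s0 : ContDiffAt ℂ ω (fun z : C2 => z.2 * a z.1) 0 := by fun_prop
    refine ⟨analyticAt_fst.prod s0.analyticAt, ?_⟩
    have s1 : ContDiffAt ℂ ω (fun z : C2 => a z.1 - 1) 0 := by fun_prop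
    have b1 := isBigO_pow_mul y1 (AnalyticAt.isBigO_id s1.analyticAt (by simp [ha0]))
    have b4 : (fun _ => (0 : ℂ)) =O[𝓝 0] (fun t : C2 => ‖t‖ ^ 2) := isBigO_zero _ _
    refine (isBigO_prod b4 b1).congr_left fun z => ?_
    simp only [Prod.ext_iff, Prod.fst_sub, Prod.snd_sub]
    constructor <;> ring
  obtain ⟨e1, e1s, he1⟩ := hT1.exists_homeo
  obtain ⟨e2, e2s, he2⟩ := hT2.exists_homeo
  have he10 : e1 0 = 0 := by rw [he1]; exact hT1.zero
  have he20 : e2 0 = 0 := by rw [he2]; exact hT2.zero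
  have e1t : (0 : C2) ∈ e1.target := by
    have := e1.map_source e1s
    rwa [he10] at this
  have e1s0 : e1.symm 0 = 0 := by
    have := e1.left_inv e1s
    rwa [he10] at this
  set H : OpenPartialHomeomorph C2 C2 := (e1.symm.trans h).trans e2 with hH
  have hHapp : ∀ z, H z = e2 (h (e1.symm z)) := fun z => rfl
  have hHs : (0 : C2) ∈ H.source := by
    rw [hH, OpenPartialHomeomorph.trans_source, OpenPartialHomeomorph.trans_source]
    refine ⟨⟨e1t, ?_⟩, ?_⟩
    · show e1.symm 0 ∈ h.source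
      rw [e1s0]; exact hs
    · show h (e1.symm 0) ∈ e2.source
      rw [e1s0, h0]; exact e2s
  have hH0 : H 0 = 0 := by rw [hHapp, e1s0, h0, he20]
  refine no_homeo H hHs hH0 ?_
  have t1 : Tendsto e1.symm (𝓝 0) (𝓝 0) := by
    have := (e1.continuousAt_symm e1t).tendsto
    rwa [e1s0] at this
  have t2 : Tendsto h (𝓝 0) (𝓝 0) := by
    have := (h.continuousAt hs).tendsto
    rwa [h0] at this
  have r1 : ∀ᶠ z in 𝓝 (0 : C2), e1 (e1.symm z) = z := e1.eventually_right_inverse e1t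
  filter_upwards [r1, t1.eventually hC] with z hz1 hz2
  have k1 : fS a (e1.symm z) = z.1 := by
    have := congrArg Prod.fst hz1
    rw [he1] at this
    exact this
  rw [hHapp, he2]
  constructor
  · intro hz
    have : h (e1.symm z) ∈ {z | fC a z = 0} := hz2.1 (by show fS a _ = 0; rw [k1, hz])
    have k2 : (h (e1.symm z)).1 ^ 3 - (h (e1.symm z)).2 ^ 2 * a (h (e1.symm z)).1 ^ 2 = 0 := this
    show (h (e1.symm z)).1 ^ 3 = ((h (e1.symm z)).2 * a (h (e1.symm z)).1) ^ 2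
    linear_combination k2
  · intro hz
    have hz : (h (e1.symm z)).1 ^ 3 = ((h (e1.symm z)).2 * a (h (e1.symm z)).1) ^ 2 := hz
    have : e1.symm z ∈ {z | fS a z = 0} := hz2.2 (by
      show (h (e1.symm z)).1 ^ 3 - (h (e1.symm z)).2 ^ 2 * a (h (e1.symm z)).1 ^ 2 = 0
      linear_combination hz)
    have k2 : fS a (e1.symm z) = 0 := this
    rw [k1] at k2
    exact k2

end

end

end Pool.Agent.Lib.MP_729182_ag
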