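import Mathlib

/-!
Two-variable power series: expansion of analytic germs on `ℂ × ℂ`, and evaluation of such series
on pairs (scalar, element of a Banach algebra).
-/

set_option autoImplicit false
set_option linter.unusedSectionVars false

namespace Pool.Agent.Lib.MP_729182_ag

open Filter Topology Asymptotics

noncomputable section

section Lift

variable {𝔸 : Type*} [NormedRing 𝔸] [NormedAlgebra ℂ 𝔸] [NormOneClass 𝔸] [CompleteSpace 𝔸]

theorem prod_ofFn_ite {M : Type*} [Monoid M] (a b : M) (n : ℕ) :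
    ∀ i, i ≤ n → (List.ofFn fun k : Fin n => if (k : ℕ) < i then a else b).prod
      = a ^ i * b ^ (n - i) := by
  induction n with
  | zero => intro i hi; obtain rfl : i = 0 := by omega
            simp
  | succ n ih =>
    intro i hi
    rw [List.ofFn_succ]
    rcases i with _ | i
    · have := ih 0 (Nat.zero_le _)
      simp only [Nat.not_lt_zero, if_false, List.prod_cons] at this ⊢
      rw [this]
      simp [pow_succ']
    · have := ih i (by omega)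
      simp only [List.prod_cons, Fin.val_zero, Nat.zero_lt_succ, if_true, Fin.val_succ,
        Nat.succ_lt_succ_iff]
      rw [this, pow_succ', mul_assoc, Nat.succ_sub_succ]

/-- `z ↦ z.1 • 1` on `ℂ × 𝔸`. -/
def L1 (𝔸 : Type*) [NormedRing 𝔸] [NormedAlgebra ℂ 𝔸] : (ℂ × 𝔸) →L[ℂ] 𝔸 :=
  (ContinuousLinearMap.fst ℂ ℂ 𝔸).smulRight (1 : 𝔸)

/-- `z ↦ z.2` on `ℂ × 𝔸`. -/
def L2 (𝔸 : Type*) [NormedRing 𝔸] [NormedAlgebra ℂ 𝔸] : (ℂ × 𝔸) →L[ℂ] 𝔸 :=
  ContinuousLinearMap.snd ℂ ℂ 𝔸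

theorem norm_L1 : ‖L1 𝔸‖ ≤ 1 := by
  refine ContinuousLinearMap.opNorm_le_bound _ zero_le_one fun z => ?_
  simp only [L1, ContinuousLinearMap.smulRight_apply, ContinuousLinearMap.coe_fst', norm_smul,
    norm_one, mul_one, one_mul]
  exact norm_fst_le z

theorem norm_L2 : ‖L2 𝔸‖ ≤ 1 := by
  refine ContinuousLinearMap.opNorm_le_bound _ zero_le_one fun z => ?_
  simp only [L2, ContinuousLinearMap.coe_snd', one_mul]
  exact norm_snd_le z

/-- The monomial `(X, Y) ↦ X ^ i • Y ^ (n - i)` as a multilinear map. -/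
def mono (𝔸 : Type*) [NormedRing 𝔸] [NormedAlgebra ℂ 𝔸] (n i : ℕ) :
    ContinuousMultilinearMap ℂ (fun _ : Fin n => ℂ × 𝔸) 𝔸 :=
  (ContinuousMultilinearMap.mkPiAlgebraFin ℂ n 𝔸).compContinuousLinearMap
    (fun k : Fin n => if (k : ℕ) < i then L1 𝔸 else L2 𝔸)

theorem norm_mono (n i : ℕ) : ‖mono 𝔸 n i‖ ≤ 1 := by
  refine (ContinuousMultilinearMap.norm_compContinuousLinearMap_le _ _).trans ?_
  rw [ContinuousMultilinearMap.norm_mkPiAlgebraFin, one_mul]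
  refine Finset.prod_le_one (fun _ _ => norm_nonneg _) fun k _ => ?_
  split_ifs
  · exact norm_L1
  · exact norm_L2

theorem mono_apply (n i : ℕ) (hi : i ≤ n) (z : ℂ × 𝔸) :
    mono 𝔸 n i (fun _ => z) = z.1 ^ i • z.2 ^ (n - i) := by
  simp only [mono, ContinuousMultilinearMap.compContinuousLinearMap_apply,
    ContinuousMultilinearMap.mkPiAlgebraFin_apply]
  have e : (List.ofFn fun k : Fin n => (if (k : ℕ) < i then L1 𝔸 else L2 𝔸) z)
      = List.ofFn fun k : Fin n => if (k : ℕ) < i then (z.1 • (1 : 𝔸)) else z.2 := by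
    congr 1; funext k; split_ifs <;> simp [L1, L2]
  rw [e, prod_ofFn_ite _ _ _ _ hi, smul_pow, one_pow, smul_mul_assoc, one_mul]

/-- The power series `∑ c i j X ^ i Y ^ j`. -/
def series (𝔸 : Type*) [NormedRing 𝔸] [NormedAlgebra ℂ 𝔸] (c : ℕ × ℕ → ℂ) :
    FormalMultilinearSeries ℂ (ℂ × 𝔸) 𝔸 :=
  fun n => ∑ i ∈ Finset.range (n + 1), c (i, n - i) • mono 𝔸 n i

theorem series_apply (c : ℕ × ℕ → ℂ) (n : ℕ) (z : ℂ × 𝔸) :
    series 𝔸 c n (fun _ => z)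
      = ∑ ij ∈ Finset.HasAntidiagonal.antidiagonal n, c ij • (z.1 ^ ij.1 • z.2 ^ ij.2) := by
  rw [Finset.Nat.sum_antidiagonal_eq_sum_range_succ_mk]
  simp only [series, sum_apply, smul_apply]
  refine Finset.sum_congr rfl fun i hi => ?_
  rw [mono_apply n i (by have := Finset.mem_range.1 hi; omega)]

theorem norm_series {c : ℕ × ℕ → ℂ} {C R : ℝ} (hR : 0 ≤ R)
    (hc : ∀ ij, ‖c ij‖ ≤ C * R ^ (ij.1 + ij.2)) (n : ℕ) :
    ‖series 𝔸 c n‖ ≤ (n + 1) * (C * R ^ n) := by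
  have h0 : 0 ≤ C := by simpa using (norm_nonneg _).trans (hc (0, 0))
  refine ContinuousMultilinearMap.opNorm_le_bound (by positivity) fun v => ?_
  simp only [series, sum_apply, smul_apply]
  refine (norm_sum_le _ _).trans ?_
  have : ∀ i ∈ Finset.range (n + 1), ‖c (i, n - i) • mono 𝔸 n i v‖ ≤ C * R ^ n * ∏ k, ‖v k‖ := by
    intro i hi
    rw [norm_smul]
    have h1 := hc (i, n - i)
    have h2 : i + (n - i) = n := by have := Finset.mem_range.1 hi; omega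
    simp only [h2] at h1
    have h3 : ‖mono 𝔸 n i v‖ ≤ ∏ k, ‖v k‖ := by
      refine ((mono 𝔸 n i).le_opNorm v).trans ?_
      have : 0 ≤ ∏ k, ‖v k‖ := by positivity
      nlinarith [norm_mono (𝔸 := 𝔸) n i]
    exact mul_le_mul h1 h3 (norm_nonneg _) (by positivity)
  refine (Finset.sum_le_card_nsmul _ _ _ this).trans ?_
  simp only [Finset.card_range, nsmul_eq_mul, Nat.cast_add, Nat.cast_one]
  exact le_of_eq (by ring)

theorem radius_series {c : ℕ × ℕ → ℂ} {C R : ℝ} (hR : 0 < R)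
    (hc : ∀ ij, ‖c ij‖ ≤ C * R ^ (ij.1 + ij.2)) : 0 < (series 𝔸 c).radius := by
  have h0 : 0 ≤ C := by simpa using (norm_nonneg _).trans (hc (0, 0))
  set r : NNReal := ⟨(2 * R)⁻¹, by positivity⟩ with hr
  have hr' : (r : ℝ) = (2 * R)⁻¹ := rfl
  have hle : (r : ENNReal) ≤ (series 𝔸 c).radius := by
    refine FormalMultilinearSeries.le_radius_of_bound _ (2 * C) fun n => ?_
    have h1 := norm_series (𝔸 := 𝔸) hR.le hc n
    have h2 : ((n : ℝ) + 1) ≤ 2 * 2 ^ n := by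
      have : (n : ℝ) + 1 ≤ 2 ^ (n + 1) := by
        exact_mod_cast (Nat.lt_two_pow_self (n := n + 1)).le
      rw [pow_succ] at this; linarith
    calc ‖series 𝔸 c n‖ * (r : ℝ) ^ n
        ≤ ((n + 1) * (C * R ^ n)) * (r : ℝ) ^ n := by gcongr
      _ ≤ (2 * 2 ^ n * (C * R ^ n)) * (r : ℝ) ^ n := by gcongr
      _ = 2 * C * ((2 * R) * (r : ℝ)) ^ n := by ring
      _ = 2 * C := by rw [hr', mul_inv_cancel₀ (by positivity), one_pow, mul_one]
  refine lt_of_lt_of_le ?_ hle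
  have : 0 < r := by
    rw [← NNReal.coe_pos, hr']; positivity
  exact_mod_cast this

theorem summable_double {c : ℕ × ℕ → ℂ} {C R : ℝ} (hR : 0 < R)
    (hc : ∀ ij, ‖c ij‖ ≤ C * R ^ (ij.1 + ij.2)) (z : ℂ × 𝔸) (hz : R * ‖z‖ ≤ 1 / 2) :
    Summable fun ij : ℕ × ℕ => c ij • (z.1 ^ ij.1 • z.2 ^ ij.2) := by
  have h0 : 0 ≤ C := by simpa using (norm_nonneg _).trans (hc (0, 0))
  have hg : Summable fun i : ℕ => ((1 : ℝ) / 2) ^ i := summable_geometric_two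
  have hgg : Summable fun ij : ℕ × ℕ => C * (((1 : ℝ) / 2) ^ ij.1 * ((1 : ℝ) / 2) ^ ij.2) :=
    (hg.mul_of_nonneg hg (fun _ => by positivity) (fun _ => by positivity)).mul_left C
  refine Summable.of_norm_bounded hgg fun ij => ?_
  rw [norm_smul, norm_smul, norm_pow]
  have h1 : ‖z.1‖ ≤ ‖z‖ := norm_fst_le z
  have h2 : ‖z.2‖ ≤ ‖z‖ := norm_snd_le z
  have h3 : ‖z.2 ^ ij.2‖ ≤ ‖z.2‖ ^ ij.2 := norm_pow_le _ _
  calc ‖c ij‖ * (‖z.1‖ ^ ij.1 * ‖z.2 ^ ij.2‖)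
      ≤ (C * R ^ (ij.1 + ij.2)) * (‖z‖ ^ ij.1 * ‖z‖ ^ ij.2) := by
        refine mul_le_mul (hc ij) ?_ (by positivity) (by positivity)
        refine mul_le_mul (by gcongr) (h3.trans (by gcongr)) (by positivity) (by positivity)
    _ = C * ((R * ‖z‖) ^ ij.1 * (R * ‖z‖) ^ ij.2) := by ring
    _ ≤ C * (((1 : ℝ) / 2) ^ ij.1 * ((1 : ℝ) / 2) ^ ij.2) := by gcongr

/-- The analytic function `(X, Y) ↦ ∑ c i j X ^ i Y ^ j`. -/
def lift (𝔸 : Type*) [NormedRing 𝔸] [NormedAlgebra ℂ 𝔸] (c : ℕ × ℕ → ℂ) : ℂ × 𝔸 → 𝔸 :=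
  (series 𝔸 c).sum

theorem analyticAt_lift {c : ℕ × ℕ → ℂ} {C R : ℝ} (hR : 0 < R)
    (hc : ∀ ij, ‖c ij‖ ≤ C * R ^ (ij.1 + ij.2)) : AnalyticAt ℂ (lift 𝔸 c) 0 :=
  ((series 𝔸 c).hasFPowerSeriesOnBall (radius_series hR hc)).analyticAt

theorem hasSum_lift {c : ℕ × ℕ → ℂ} {C R : ℝ} (hR : 0 < R)
    (hc : ∀ ij, ‖c ij‖ ≤ C * R ^ (ij.1 + ij.2)) :
    ∀ᶠ z in 𝓝 (0 : ℂ × 𝔸),
      HasSum (fun ij : ℕ × ℕ => c ij • (z.1 ^ ij.1 • z.2 ^ ij.2)) (lift 𝔸 c z) := by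
  have hball := (series 𝔸 c).hasFPowerSeriesOnBall (radius_series hR hc)
  have h1 : ∀ᶠ z in 𝓝 (0 : ℂ × 𝔸), HasSum (fun n : ℕ => series 𝔸 c n fun _ => z)
      ((series 𝔸 c).sum z) := by
    have := hball.eventually_hasSum
    simpa using this
  have h2 : ∀ᶠ z in 𝓝 (0 : ℂ × 𝔸), R * ‖z‖ ≤ 1 / 2 := by
    have : Tendsto (fun z : ℂ × 𝔸 => R * ‖z‖) (𝓝 0) (𝓝 (R * ‖(0 : ℂ × 𝔸)‖)) :=
      (continuous_const.mul continuous_norm).tendsto _
    rw [norm_zero, mul_zero] at this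
    exact (this.eventually (eventually_lt_nhds (by norm_num : (0 : ℝ) < 1 / 2))).mono
      fun _ h => le_of_lt h
  filter_upwards [h1, h2] with z hz1 hz2
  have hs := summable_double hR hc z hz2
  have h3 : HasSum (fun n : ℕ => series 𝔸 c n fun _ => z)
      (∑' ij : ℕ × ℕ, c ij • (z.1 ^ ij.1 • z.2 ^ ij.2)) := by
    have h4 := hs.hasSum
    rw [← Finset.HasAntidiagonal.sigmaAntidiagonalEquivProd.hasSum_iff] at h4
    have h5 := h4.sigma (g := fun n : ℕ => series 𝔸 c n fun _ => z) ?_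
    · exact h5
    · intro n
      rw [series_apply]
      have := hasSum_fintype (fun b : Finset.HasAntidiagonal.antidiagonal n =>
        ((fun ij : ℕ × ℕ => c ij • (z.1 ^ ij.1 • z.2 ^ ij.2)) ∘
          Finset.HasAntidiagonal.sigmaAntidiagonalEquivProd) ⟨n, b⟩)
      rw [← Finset.sum_coe_sort]
      exact this
  have : lift 𝔸 c z = ∑' ij : ℕ × ℕ, c ij • (z.1 ^ ij.1 • z.2 ^ ij.2) := hz1.unique h3
  rw [this]
  exact hs.hasSum

end Lift

end

end Pool.Agent.Lib.MP_729182_ag
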