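import Pool.Agent.Lib.MP_729182_ag.Defs

/-!
The smooth branch and the cusp are not topologically equivalent: monodromy of the roots of the
cubic `z³ - 3 X z + 2 Y`, whose discriminant is a multiple of `X³ - Y²`.
-/

set_option autoImplicit false
set_option linter.unusedSectionVars false

namespace Pool.Agent.Lib.MP_729182_ag

open Filter Topology

noncomputable section

/-- the covering map `(X, z) ↦ (X, Y)` with `z³ - 3 X z + 2 Y = 0` -/
def cubicMap (e : ℂ × ℂ) : ℂ × ℂ := (e.1, (3 * e.1 * e.2 - e.2 ^ 3) / 2)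

theorem continuous_cubicMap : Continuous cubicMap := by
  unfold cubicMap; fun_prop

theorem isProperMap_cubicMap : IsProperMap cubicMap := by
  refine isProperMap_iff_isCompact_preimage.2 ⟨continuous_cubicMap, fun {K} hK => ?_⟩
  refine Metric.isCompact_of_isClosed_isBounded (hK.isClosed.preimage continuous_cubicMap) ?_
  obtain ⟨M, hM⟩ := hK.isBounded.exists_norm_le
  refine (Metric.isBounded_closedBall (x := (0 : ℂ × ℂ)) (r := 1 + 5 * |M|)).subset ?_
  rintro ⟨X, z⟩ hz
  have h1 := hM _ hz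
  have hX : ‖X‖ ≤ |M| := ((norm_fst_le (cubicMap (X, z))).trans h1).trans (le_abs_self M)
  have hY : ‖(3 * X * z - z ^ 3) / 2‖ ≤ |M| :=
    ((norm_snd_le (cubicMap (X, z))).trans h1).trans (le_abs_self M)
  have hM0 : 0 ≤ |M| := abs_nonneg M
  have hz' : ‖z‖ ≤ 1 + 5 * |M| := by
    by_contra hcon
    push Not at hcon
    have hz1 : 1 ≤ ‖z‖ := by linarith
    have e1 : z ^ 3 = 3 * X * z - 2 * ((3 * X * z - z ^ 3) / 2) := by ring
    have e2 : ‖z‖ ^ 3 ≤ 3 * |M| * ‖z‖ + 2 * |M| := by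
      rw [← norm_pow, e1]
      refine (norm_sub_le _ _).trans ?_
      refine add_le_add ?_ ?_
      · rw [norm_mul, norm_mul]
        have : ‖(3 : ℂ)‖ = 3 := by simp
        rw [this]; gcongr
      · rw [norm_mul]
        have : ‖(2 : ℂ)‖ = 2 := by simp
        rw [this]; gcongr
    have e3 : 3 * |M| * ‖z‖ + 2 * |M| ≤ 5 * |M| * ‖z‖ := by nlinarith
    have e4 : ‖z‖ ^ 2 ≤ 5 * |M| := by
      have : ‖z‖ * ‖z‖ ^ 2 ≤ ‖z‖ * (5 * |M|) := by nlinarith
      exact le_of_mul_le_mul_left this (by linarith)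
    nlinarith
  rw [mem_closedBall_zero_iff, Prod.norm_def]
  exact max_le (by simp only; linarith) hz'

theorem isCoveringMapOn_cubicMap : IsCoveringMapOn cubicMap {p : ℂ × ℂ | p.1 ^ 3 ≠ p.2 ^ 2} := by
  refine isProperMap_cubicMap.isClosedMap.isCoveringMapOn_of_isLocalHomeomorphOn ?_ ?_
  · rintro ⟨X, Y⟩ _
    -- finite fibres
    set P : Polynomial ℂ := Polynomial.X ^ 3 - Polynomial.C (3 * X) * Polynomial.X
      + Polynomial.C (2 * Y) with hP
    have hP0 : P ≠ 0 := by
      intro h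
      have h3 : P.coeff 3 = 1 := by
        rw [hP]
        simp
      rw [h] at h3
      simp at h3
    refine ((Polynomial.finite_setOfPred_isRoot hP0).image (fun z => (X, z))).subset ?_
    rintro ⟨X', z⟩ hz
    simp only [cubicMap, Set.mem_preimage, Set.mem_singleton_iff, Prod.mk.injEq] at hz
    obtain ⟨rfl, hz⟩ := hz
    refine ⟨z, ?_, rfl⟩
    simp only [Set.mem_ofPred_eq, Polynomial.IsRoot, hP, Polynomial.eval_add, Polynomial.eval_sub,
      Polynomial.eval_pow, Polynomial.eval_X, Polynomial.eval_mul, Polynomial.eval_C]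
    linear_combination (-2) * hz
  · rintro ⟨X, z⟩ hXz
    have hne : X - z ^ 2 ≠ 0 := by
      intro h
      apply hXz
      simp only [cubicMap]
      have : X = z ^ 2 := by linear_combination h
      rw [this]; ring
    -- derivative
    have hder : HasStrictFDerivAt cubicMap
        ((ContinuousLinearMap.fst ℂ ℂ ℂ).prod
          ((3 * z / 2) • ContinuousLinearMap.fst ℂ ℂ ℂ
            + (3 * (X - z ^ 2) / 2) • ContinuousLinearMap.snd ℂ ℂ ℂ)) (X, z) := by
      have h1 : HasStrictFDerivAt (fun e : ℂ × ℂ => e.1) (ContinuousLinearMap.fst ℂ ℂ ℂ) (X, z) :=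
        hasStrictFDerivAt_fst
      have h2 : HasStrictFDerivAt (fun e : ℂ × ℂ => e.2) (ContinuousLinearMap.snd ℂ ℂ ℂ) (X, z) :=
        hasStrictFDerivAt_snd
      have h3 := (((h1.const_mul (3 : ℂ)).mul h2).sub (h2.pow 3)).mul_const ((2 : ℂ)⁻¹)
      refine h1.prodMk ?_
      have h4 : HasStrictFDerivAt (fun e : ℂ × ℂ => (3 * e.1 * e.2 - e.2 ^ 3) / 2)
          ((3 * z / 2) • ContinuousLinearMap.fst ℂ ℂ ℂ
            + (3 * (X - z ^ 2) / 2) • ContinuousLinearMap.snd ℂ ℂ ℂ) (X, z) := by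
        convert! h3 using 1
        ext <;> simp <;> ring
      exact h4
    -- invertible derivative
    set L : (ℂ × ℂ) →L[ℂ] (ℂ × ℂ) := (ContinuousLinearMap.fst ℂ ℂ ℂ).prod
          ((3 * z / 2) • ContinuousLinearMap.fst ℂ ℂ ℂ
            + (3 * (X - z ^ 2) / 2) • ContinuousLinearMap.snd ℂ ℂ ℂ) with hL
    have hinj : Function.Injective L := by
      rw [injective_iff_map_eq_zero]
      rintro ⟨a, b⟩ hab
      simp only [hL, ContinuousLinearMap.prod_apply, Prod.mk_eq_zero] at hab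
      obtain ⟨ha, hb⟩ := hab
      have ha' : a = 0 := ha
      subst ha'
      have hb' : (3 * z / 2) * 0 + (3 * (X - z ^ 2) / 2) * b = 0 := hb
      have : b = 0 := by
        rcases mul_eq_zero.1 (by linear_combination (2 / 3) * hb' : (X - z ^ 2) * b = 0) with h | h
        · exact absurd h hne
        · exact h
      rw [this]; rfl
    set Le : (ℂ × ℂ) ≃L[ℂ] (ℂ × ℂ) :=
      (LinearEquiv.ofInjectiveEndo (L : (ℂ × ℂ) →ₗ[ℂ] (ℂ × ℂ)) hinj).toContinuousLinearEquiv
    have hLe : (Le : (ℂ × ℂ) →L[ℂ] (ℂ × ℂ)) = L := by ext <;> rfl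
    have hder' : HasStrictFDerivAt cubicMap (Le : (ℂ × ℂ) →L[ℂ] (ℂ × ℂ)) (X, z) := by
      rw [hLe]; exact hder
    exact ⟨hder'.toOpenPartialHomeomorph cubicMap, hder'.mem_toOpenPartialHomeomorph_source, rfl⟩

/-- existence of a continuous root function with prescribed value -/
theorem exists_root {A : Type*} [TopologicalSpace A] [SimplyConnectedSpace A]
    [LocallyPathConnectedSpace A] (g : C(A, ℂ × ℂ)) (hg : ∀ a, (g a).1 ^ 3 ≠ (g a).2 ^ 2)
    (a₀ : A) (z₀ : ℂ) (hz : z₀ ^ 3 - 3 * (g a₀).1 * z₀ + 2 * (g a₀).2 = 0) :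
    ∃ Z : A → ℂ, Continuous Z ∧ Z a₀ = z₀ ∧
      ∀ a, Z a ^ 3 - 3 * (g a).1 * Z a + 2 * (g a).2 = 0 := by
  have he : cubicMap ((g a₀).1, z₀) = g a₀ := by
    simp only [cubicMap, Prod.ext_iff]
    refine ⟨trivial, ?_⟩
    linear_combination (-(1 / 2)) * hz
  obtain ⟨F, ⟨hF0, hF⟩, -⟩ :=
    isCoveringMapOn_cubicMap.existsUnique_continuousMap_lifts g he (fun a => hg a)
  refine ⟨fun a => (F a).2, continuous_snd.comp F.continuous, by simp only [hF0], fun a => ?_⟩
  have h := congrFun hF a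
  simp only [Function.comp_apply, cubicMap, Prod.ext_iff] at h
  obtain ⟨h1, h2⟩ := h
  rw [← h1]
  linear_combination (-2) * h2

/-- uniqueness of continuous root functions -/
theorem root_unique {A : Type*} [TopologicalSpace A] [PreconnectedSpace A] {g : A → ℂ × ℂ}
    (hgc : Continuous g) (hg : ∀ a, (g a).1 ^ 3 ≠ (g a).2 ^ 2) {Z₁ Z₂ : A → ℂ}
    (h1 : Continuous Z₁) (h2 : Continuous Z₂)
    (r1 : ∀ a, Z₁ a ^ 3 - 3 * (g a).1 * Z₁ a + 2 * (g a).2 = 0)
    (r2 : ∀ a, Z₂ a ^ 3 - 3 * (g a).1 * Z₂ a + 2 * (g a).2 = 0)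
    (a₀ : A) (h0 : Z₁ a₀ = Z₂ a₀) : Z₁ = Z₂ := by
  set T : Set A := {a | Z₁ a = Z₂ a} with hT
  have hclosed : IsClosed T := isClosed_eq h1 h2
  have hopen : IsOpen T := by
    rw [isOpen_iff_mem_nhds]
    intro a ha
    have ha' : Z₁ a = Z₂ a := ha
    have hne : Z₁ a ^ 2 + Z₁ a * Z₂ a + Z₂ a ^ 2 - 3 * (g a).1 ≠ 0 := by
      intro h
      apply hg a
      rw [← ha'] at h
      have hX : (g a).1 = Z₁ a ^ 2 := by linear_combination (-(1 / 3)) * h
      have hY : (g a).2 = Z₁ a ^ 3 := by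
        have := r1 a
        rw [hX] at this
        linear_combination (1 / 2) * this
      rw [hX, hY]; ring
    have hcont : Continuous fun a => Z₁ a ^ 2 + Z₁ a * Z₂ a + Z₂ a ^ 2 - 3 * (g a).1 := by
      fun_prop
    filter_upwards [hcont.continuousAt.eventually_ne hne] with b hb
    have : (Z₁ b - Z₂ b) * (Z₁ b ^ 2 + Z₁ b * Z₂ b + Z₂ b ^ 2 - 3 * (g b).1) = 0 := by
      linear_combination r1 b - r2 b
    rcases mul_eq_zero.1 this with h | h
    · exact sub_eq_zero.1 h
    · exact absurd h hb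
  have huniv : T = Set.univ := IsClopen.eq_univ ⟨hclosed, hopen⟩ ⟨a₀, h0⟩
  funext a
  have : a ∈ T := by rw [huniv]; trivial
  exact this

/-- the half plane times a disc, the universal cover of the punctured polydisc -/
def SS (ε : ℝ) : Set (ℂ × ℂ) := {p | p.1.re < Real.log ε ∧ ‖p.2‖ < ε}

theorem convex_SS (ε : ℝ) : Convex ℝ (SS ε) := by
  have h1 : Convex ℝ {p : ℂ × ℂ | p.1.re < Real.log ε} := by
    have : IsLinearMap ℝ (fun p : ℂ × ℂ => p.1.re) :=
      { map_add := fun x y => by simp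
        map_smul := fun c x => by simp }
    exact convex_halfSpace_lt this _
  have h2 : Convex ℝ {p : ℂ × ℂ | ‖p.2‖ < ε} := by
    have h3 : Convex ℝ (Metric.ball (0 : ℂ) ε) := convex_ball 0 ε
    have h4 := h3.is_linear_preimage (f := fun p : ℂ × ℂ => p.2)
      { map_add := fun x y => rfl, map_smul := fun c x => rfl }
    convert! h4 using 1
    ext p
    simp
  exact h1.inter h2

theorem isOpen_SS (ε : ℝ) : IsOpen (SS ε) := by
  have h1 : IsOpen {p : ℂ × ℂ | p.1.re < Real.log ε} :=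
    isOpen_lt (by fun_prop) continuous_const
  have h2 : IsOpen {p : ℂ × ℂ | ‖p.2‖ < ε} := isOpen_lt (by fun_prop) continuous_const
  exact h1.inter h2

theorem nonempty_SS {ε : ℝ} (hε : 0 < ε) : (SS ε).Nonempty :=
  ⟨((Real.log ε - 1 : ℝ), 0), by
    constructor
    · simp
    · simpa using hε⟩

/-- translation by `2πi n` -/
def trans (ε : ℝ) (n : ℤ) (s : SS ε) : SS ε :=
  ⟨(s.1.1 + n * (2 * Real.pi * Complex.I), s.1.2), by
    constructor
    · have := s.2.1
      simpa using this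
    · exact s.2.2⟩

theorem continuous_trans (ε : ℝ) (n : ℤ) : Continuous (trans ε n) := by
  unfold trans; fun_prop

theorem trans_trans (ε : ℝ) (m n : ℤ) (s : SS ε) :
    trans ε m (trans ε n s) = trans ε n (trans ε m s) := by
  apply Subtype.ext
  simp only [trans, Prod.mk.injEq, and_true]
  ring

theorem trans_zero (ε : ℝ) (s : SS ε) : trans ε 0 s = s := by
  apply Subtype.ext
  simp [trans]

theorem trans_add (ε : ℝ) (m n : ℤ) (s : SS ε) :
    trans ε (m + n) s = trans ε m (trans ε n s) := by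
  apply Subtype.ext
  simp only [trans, Prod.mk.injEq, and_true]
  push_cast
  ring

/-- No homeomorphism germ of `(ℂ², 0)` maps the line `u = 0` onto the cusp `X³ = Y²`. -/
theorem no_homeo (h : OpenPartialHomeomorph C2 C2) (h0 : (0 : C2) ∈ h.source) (hz : h 0 = 0)
    (hC : ∀ᶠ z in 𝓝 (0 : C2), z.1 = 0 ↔ (h z).1 ^ 3 = (h z).2 ^ 2) : False := by
  -- a small polydisc
  have hs : ∀ᶠ z in 𝓝 (0 : C2), z ∈ h.source := h.open_source.mem_nhds h0
  obtain ⟨ε, hε, hball⟩ := Metric.eventually_nhds_iff.1 (hs.and hC)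
  have ht0 : (0 : C2) ∈ h.target := by
    have := h.map_source h0
    rwa [hz] at this
  have hsymm0 : h.symm 0 = 0 := by
    have := h.left_inv h0
    rwa [hz] at this
  have hsc : ContinuousAt h.symm 0 := h.continuousAt_symm ht0
  have htn : ∀ᶠ z in 𝓝 (0 : C2), z ∈ h.target ∧ ‖h.symm z‖ < ε := by
    have h1 : ∀ᶠ z in 𝓝 (0 : C2), z ∈ h.target := h.open_target.mem_nhds ht0
    refine h1.and ?_
    have : Tendsto (fun z => ‖h.symm z‖) (𝓝 0) (𝓝 ‖h.symm 0‖) := hsc.norm
    rw [hsymm0, norm_zero] at this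
    exact this.eventually (eventually_lt_nhds hε)
  obtain ⟨δ, hδ, hδb⟩ := Metric.eventually_nhds_iff.1 htn
  -- the map on the universal cover
  have hexp : ∀ s : SS ε, dist ((Complex.exp s.1.1, s.1.2) : C2) 0 < ε := by
    rintro ⟨⟨w, v⟩, hw, hv⟩
    rw [dist_zero_right, Prod.norm_def]
    refine max_lt ?_ hv
    rw [Complex.norm_exp]
    calc Real.exp w.re < Real.exp (Real.log ε) := Real.exp_lt_exp.2 hw
      _ = ε := Real.exp_log hε
  have hsrc : ∀ s : SS ε, ((Complex.exp s.1.1, s.1.2) : C2) ∈ h.source := fun s =>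
    (hball (hexp s)).1
  set g : SS ε → C2 := fun s => h (Complex.exp s.1.1, s.1.2) with hg
  have hgc : Continuous g := by
    refine h.continuousOn.comp_continuous ?_ hsrc
    fun_prop
  have hgn : ∀ s, (g s).1 ^ 3 ≠ (g s).2 ^ 2 := by
    intro s hs'
    have := (hball (hexp s)).2.2 hs'
    exact Complex.exp_ne_zero _ this
  have hgT : ∀ n s, g (trans ε n s) = g s := by
    intro n s
    simp only [hg, trans]
    rw [Complex.exp_add, Complex.exp_int_mul_two_pi_mul_I, mul_one]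
  have : ContractibleSpace (SS ε) := (convex_SS ε).contractibleSpace (nonempty_SS hε)
  have : LocallyPathConnectedSpace (SS ε) := (isOpen_SS ε).locallyPathConnectedSpace
  -- lifting loops
  have hloop : ∀ a : C(unitInterval, C2), a 0 = a 1 → (∀ t, ‖a t‖ < δ) →
      (∀ t, (a t).1 ^ 3 ≠ (a t).2 ^ 2) →
      ∃ (σ : unitInterval → SS ε) (n : ℤ), Continuous σ ∧ (∀ t, g (σ t) = a t) ∧
        σ 1 = trans ε n (σ 0) := by
    intro a ha01 hasmall hane
    have hat : ∀ t, a t ∈ h.target ∧ ‖h.symm (a t)‖ < ε := fun t =>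
      hδb (by rw [dist_zero_right]; exact hasmall t)
    set β : C(unitInterval, C2) := ⟨fun t => h.symm (a t),
      h.continuousOn_symm.comp_continuous a.continuous (fun t => (hat t).1)⟩ with hβ
    have hβ' : ∀ t, β t = h.symm (a t) := fun t => rfl
    have hhβ : ∀ t, h (β t) = a t := fun t => h.right_inv (hat t).1
    have hu : ∀ t, (β t).1 ≠ 0 := by
      intro t h0'
      have h1 : dist (β t) 0 < ε := by rw [dist_zero_right]; exact (hat t).2
      have := (hball h1).2.1 h0'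
      rw [hhβ t] at this
      exact hane t this
    obtain ⟨F, hF, -⟩ := Complex.isCoveringMap_exp.exists_path_lifts
      ⟨fun t => (⟨(β t).1, hu t⟩ : {z : ℂ // z ≠ 0}), by fun_prop⟩
      (Complex.log (β 0).1) (Subtype.ext (Complex.exp_log (hu 0)).symm)
    have hF' : ∀ t, Complex.exp (F t) = (β t).1 := fun t => congrArg Subtype.val (congrFun hF t)
    have hmem : ∀ t, ((F t, (β t).2) : ℂ × ℂ) ∈ SS ε := by
      intro t
      constructor
      · have h1 : Real.exp (F t).re = ‖(β t).1‖ := by rw [← hF' t, Complex.norm_exp]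
        have h2 : ‖(β t).1‖ < ε := lt_of_le_of_lt (norm_fst_le _) (hat t).2
        show (F t).re < Real.log ε
        rw [Real.lt_log_iff_exp_lt hε, h1]
        exact h2
      · show ‖(β t).2‖ < ε
        exact lt_of_le_of_lt (norm_snd_le (β t)) (hat t).2
    have h01 : β 0 = β 1 := by rw [hβ', hβ', ha01]
    have hexp01 : Complex.exp (F 1) = Complex.exp (F 0) := by rw [hF', hF', h01]
    obtain ⟨n, hn⟩ := Complex.exp_eq_exp_iff_exists_int.1 hexp01
    refine ⟨fun t => ⟨(F t, (β t).2), hmem t⟩, n, by fun_prop, ?_, ?_⟩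
    · intro t
      simp only [hg]
      rw [hF' t]
      exact hhβ t
    · apply Subtype.ext
      simp only [trans, Prod.mk.injEq]
      exact ⟨hn, by rw [h01]⟩
  -- root functions on the universal cover
  have hR : ∀ Z : SS ε → ℂ, (∀ s, Z s ^ 3 - 3 * (g s).1 * Z s + 2 * (g s).2 = 0) → ∀ n s,
      Z (trans ε n s) ^ 3 - 3 * (g s).1 * Z (trans ε n s) + 2 * (g s).2 = 0 := by
    intro Z hZ n s
    have := hZ (trans ε n s)
    rwa [hgT] at this
  -- the constant
  set c : ℝ := min (1 / 2) (δ / 4) with hc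
  have hc0 : 0 < c := lt_min (by norm_num) (by linarith)
  have hc1 : c ≤ 1 / 2 := min_le_left _ _
  have hcδ : c ≤ δ / 4 := min_le_right _ _
  have hcC : (c : ℂ) ≠ 0 := by exact_mod_cast hc0.ne'
  have hnc : ‖(c : ℂ)‖ = c := by rw [Complex.norm_real, Real.norm_of_nonneg hc0.le]
  -- `E t = exp (2 π i t)`, `E' t = exp (π i t)`, `E'' t = exp (2 π i t / 3)`
  set e1 : unitInterval → ℂ := fun t => Complex.exp ((t : ℝ) * (Real.pi * Complex.I)) with he1
  set e3 : unitInterval → ℂ :=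
    fun t => Complex.exp ((t : ℝ) * (2 * Real.pi * Complex.I / 3)) with he3
  have he1c : Continuous e1 := by rw [he1]; fun_prop
  have he3c : Continuous e3 := by rw [he3]; fun_prop
  have he1n : ∀ t, ‖e1 t‖ = 1 := by
    intro t
    simp only [he1]
    rw [Complex.norm_exp]
    simp
  have he3n : ∀ t, ‖e3 t‖ = 1 := by
    intro t
    simp only [he3]
    rw [Complex.norm_exp]
    simp
  have he10 : e1 0 = 1 := by simp [he1]
  have he11 : e1 1 = -1 := by simp [he1, Complex.exp_pi_mul_I]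
  have he30 : e3 0 = 1 := by simp [he3]
  have he31 : e3 1 ^ 3 = 1 := by
    simp only [he3]
    rw [← Complex.exp_nat_mul]
    have : ((3 : ℕ) : ℂ) * (((1 : unitInterval) : ℝ) * (2 * Real.pi * Complex.I / 3))
        = 2 * Real.pi * Complex.I := by push_cast; ring
    rw [this, Complex.exp_two_pi_mul_I]
  have he31' : e3 1 ≠ 1 := by
    intro h1
    simp only [he3] at h1
    rw [Complex.exp_eq_one_iff] at h1
    obtain ⟨n, hn⟩ := h1
    have hpi : (2 * Real.pi * Complex.I : ℂ) ≠ 0 := Complex.two_pi_I_ne_zero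
    have h2 : (2 * Real.pi * Complex.I : ℂ) * (1 / 3 - n) = 0 := by
      have : (((1 : unitInterval) : ℝ) : ℂ) = 1 := by simp
      rw [this] at hn
      linear_combination hn
    rcases mul_eq_zero.1 h2 with h3 | h3
    · exact hpi h3
    · have h4 : (3 * n : ℂ) = 1 := by linear_combination (-3) * h3
      have h5 : (3 * n : ℤ) = 1 := by exact_mod_cast h4
      omega
  -- loop `b`
  set b : C(unitInterval, C2) := ⟨fun t => ((c : ℂ) ^ 2 * (1 + e1 t ^ 2 / 3),
    (c : ℂ) ^ 3 * (1 - e1 t ^ 2)), by fun_prop⟩ with hb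
  have hb' : ∀ t, b t = ((c : ℂ) ^ 2 * (1 + e1 t ^ 2 / 3), (c : ℂ) ^ 3 * (1 - e1 t ^ 2)) :=
    fun t => rfl
  have hb01 : b 0 = b 1 := by rw [hb', hb', he10, he11]; norm_num
  have hbsmall : ∀ t, ‖b t‖ < δ := by
    intro t
    rw [hb', Prod.norm_def]
    have hE : ‖e1 t ^ 2‖ = 1 := by rw [norm_pow, he1n, one_pow]
    refine max_lt ?_ ?_
    · simp only
      rw [norm_mul, norm_pow, hnc]
      have : ‖1 + e1 t ^ 2 / 3‖ ≤ 2 := by
        refine (norm_add_le _ _).trans ?_
        rw [norm_div, hE]; norm_num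
      have h2 : c ^ 2 * ‖1 + e1 t ^ 2 / 3‖ ≤ c ^ 2 * 2 := by gcongr
      nlinarith
    · simp only
      rw [norm_mul, norm_pow, hnc]
      have : ‖1 - e1 t ^ 2‖ ≤ 2 := by
        refine (norm_sub_le _ _).trans ?_
        rw [hE]; norm_num
      have h2 : c ^ 3 * ‖1 - e1 t ^ 2‖ ≤ c ^ 3 * 2 := by gcongr
      have h3 : c ^ 3 ≤ c := by
        have : c ^ 2 ≤ 1 := by nlinarith
        nlinarith
      nlinarith
  have hbne : ∀ t, (b t).1 ^ 3 ≠ (b t).2 ^ 2 := by
    intro t ht
    rw [hb'] at ht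
    simp only at ht
    have hE : e1 t ≠ 0 := by
      intro h'; have := he1n t; rw [h', norm_zero] at this; norm_num at this
    have h1 : (c : ℂ) ^ 6 * (e1 t ^ 2) * (e1 t ^ 2 / 3 - 3) ^ 2 = 0 := by
      linear_combination 3 * ht
    have h2 : e1 t ^ 2 / 3 - 3 ≠ 0 := by
      intro h'
      have h3 : e1 t ^ 2 = 9 := by linear_combination 3 * h'
      have h4 : ‖e1 t ^ 2‖ = 9 := by rw [h3]; norm_num
      rw [norm_pow, he1n] at h4; norm_num at h4
    have := mul_ne_zero (mul_ne_zero (pow_ne_zero 6 hcC) (pow_ne_zero 2 hE)) (pow_ne_zero 2 h2)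
    exact this h1
  obtain ⟨σb, nb, hσbc, hσb, hσb1⟩ := hloop b hb01 hbsmall hbne
  -- tracking a root along a loop
  have htrack : ∀ (a : C(unitInterval, C2)), (∀ t, (a t).1 ^ 3 ≠ (a t).2 ^ 2) →
      ∀ σ : unitInterval → SS ε, Continuous σ → (∀ t, g (σ t) = a t) →
      ∀ Z : SS ε → ℂ, Continuous Z → (∀ s, Z s ^ 3 - 3 * (g s).1 * Z s + 2 * (g s).2 = 0) →
      ∀ r : unitInterval → ℂ, Continuous r →
        (∀ t, r t ^ 3 - 3 * (a t).1 * r t + 2 * (a t).2 = 0) →
        Z (σ 0) = r 0 → Z (σ 1) = r 1 := by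
    intro a hane σ hσ hga Z hZc hZ r hrc hr h00
    have := root_unique (g := a) a.continuous hane (Z₁ := fun t => Z (σ t)) (Z₂ := r)
      (hZc.comp hσ) hrc (fun t => by have := hZ (σ t); rwa [hga t] at this) hr 0 h00
    exact congrFun this 1
  -- the root function `Z0` equal to `-2c` over `b 0`
  obtain ⟨Z0, hZ0c, hZ00, hZ0⟩ := exists_root ⟨g, hgc⟩ hgn (σb 0) (-2 * c) (by
    show (-2 * (c : ℂ)) ^ 3 - 3 * (g (σb 0)).1 * (-2 * c) + 2 * (g (σb 0)).2 = 0
    rw [hσb 0, hb', he10]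
    simp only
    ring)
  have hZ0' : ∀ s, Z0 s ^ 3 - 3 * (g s).1 * Z0 s + 2 * (g s).2 = 0 := hZ0
  have hkeyb : Z0 (σb 1) = -2 * c := by
    refine htrack b hbne σb hσbc hσb Z0 hZ0c hZ0' (fun _ => -2 * c) continuous_const ?_ hZ00
    intro t
    rw [hb']
    simp only
    ring
  have hZ0nb : (fun s => Z0 (trans ε nb s)) = Z0 := by
    refine root_unique hgc hgn (hZ0c.comp (continuous_trans ε nb)) hZ0c (hR Z0 hZ0' nb) hZ0'
      (σb 0) ?_
    show Z0 (trans ε nb (σb 0)) = Z0 (σb 0)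
    rw [← hσb1, hkeyb, hZ00]
  -- `G = Z0 ∘ T`
  set G : SS ε → ℂ := fun s => Z0 (trans ε 1 s) with hG
  have hGc : Continuous G := hZ0c.comp (continuous_trans ε 1)
  have hGr : ∀ s, G s ^ 3 - 3 * (g s).1 * G s + 2 * (g s).2 = 0 := hR Z0 hZ0' 1
  have hGnb : ∀ s, G (trans ε nb s) = G s := by
    intro s
    simp only [hG]
    rw [trans_trans]
    exact congrFun hZ0nb (trans ε 1 s)
  have hG1 : G (σb 1) = G (σb 0) := by rw [hσb1, hGnb]
  have hGb0 : G (σb 0) = -2 * c := by
    have h1 := hGr (σb 0)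
    rw [hσb 0, hb', he10] at h1
    simp only at h1
    have h2 : (G (σb 0) + 2 * c) * (G (σb 0) * (G (σb 0) - 2 * c)) = 0 := by
      linear_combination h1
    rcases mul_eq_zero.1 h2 with h3 | h3
    · linear_combination h3
    · exfalso
      rcases mul_eq_zero.1 h3 with h4 | h4
      · -- root `0`, which moves to `2c`
        have h5 : G (σb 1) = (c : ℂ) * (1 - e1 1) := by
          refine htrack b hbne σb hσbc hσb G hGc hGr (fun t => (c : ℂ) * (1 - e1 t))
            (by fun_prop) ?_ ?_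
          · intro t; rw [hb']; simp only; ring
          · rw [h4, he10]; ring
        rw [hG1, h4, he11] at h5
        have : (c : ℂ) = 0 := by linear_combination (-(1 / 2)) * h5
        exact hcC this
      · have h4' : G (σb 0) = 2 * c := by linear_combination h4
        have h5 : G (σb 1) = (c : ℂ) * (1 + e1 1) := by
          refine htrack b hbne σb hσbc hσb G hGc hGr (fun t => (c : ℂ) * (1 + e1 t))
            (by fun_prop) ?_ ?_
          · intro t; rw [hb']; simp only; ring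
          · rw [h4', he10]; ring
        rw [hG1, h4', he11] at h5
        have : (c : ℂ) = 0 := by linear_combination (1 / 2) * h5
        exact hcC this
  have hGZ0 : G = Z0 := root_unique hgc hgn hGc hZ0c hGr hZ0' (σb 0) (by rw [hGb0, hZ00])
  have hT1 : ∀ s, Z0 (trans ε 1 s) = Z0 s := fun s => congrFun hGZ0 s
  have hTn : ∀ (n : ℤ) s, Z0 (trans ε n s) = Z0 s := by
    intro n
    induction n using Int.induction_on with
    | zero => intro s; rw [trans_zero]
    | succ k ih => intro s; rw [trans_add, ih, hT1]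
    | pred k ih =>
      intro s
      have h1 := hT1 (trans ε (-(k : ℤ) - 1) s)
      rw [← trans_add] at h1
      have : (1 + (-(k : ℤ) - 1)) = -(k : ℤ) := by ring
      rw [this, ih] at h1
      exact h1.symm
  -- loop `a`
  set a : C(unitInterval, C2) := ⟨fun t => (0, (c : ℂ) ^ 3 * e3 t ^ 3), by fun_prop⟩ with ha
  have ha' : ∀ t, a t = (0, (c : ℂ) ^ 3 * e3 t ^ 3) := fun t => rfl
  have ha01 : a 0 = a 1 := by rw [ha', ha', he30, he31]; norm_num
  have hasmall : ∀ t, ‖a t‖ < δ := by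
    intro t
    rw [ha', Prod.norm_def]
    refine max_lt ?_ ?_
    · simpa using hδ
    · simp only
      rw [norm_mul, norm_pow, norm_pow, hnc, he3n, one_pow, mul_one]
      have h3 : c ^ 3 ≤ c := by
        have : c ^ 2 ≤ 1 := by nlinarith
        nlinarith
      linarith
  have hane : ∀ t, (a t).1 ^ 3 ≠ (a t).2 ^ 2 := by
    intro t ht
    rw [ha'] at ht
    simp only at ht
    have hE : e3 t ≠ 0 := by
      intro h'; have := he3n t; rw [h', norm_zero] at this; norm_num at this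
    have : ((c : ℂ) ^ 3 * e3 t ^ 3) ^ 2 ≠ 0 :=
      pow_ne_zero 2 (mul_ne_zero (pow_ne_zero 3 hcC) (pow_ne_zero 3 hE))
    apply this
    rw [← ht]; norm_num
  obtain ⟨σa, na, hσac, hσa, hσa1⟩ := hloop a ha01 hasmall hane
  have hZa0 : Z0 (σa 0) ^ 3 = -2 * (c : ℂ) ^ 3 := by
    have := hZ0' (σa 0)
    rw [hσa 0, ha', he30] at this
    simp only at this
    linear_combination this
  have h5 : Z0 (σa 1) = Z0 (σa 0) * e3 1 := by
    refine htrack a hane σa hσac hσa Z0 hZ0c hZ0' (fun t => Z0 (σa 0) * e3 t) (by fun_prop) ?_ ?_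
    · intro t
      rw [ha']
      simp only
      linear_combination e3 t ^ 3 * hZa0
    · rw [he30, mul_one]
  rw [hσa1, hTn] at h5
  have hne : Z0 (σa 0) ≠ 0 := by
    intro h'
    rw [h'] at hZa0
    have : (c : ℂ) ^ 3 = 0 := by linear_combination (1 / 2) * hZa0
    exact pow_ne_zero 3 hcC this
  have h6 : Z0 (σa 0) * (e3 1 - 1) = 0 := by linear_combination -h5
  rcases mul_eq_zero.1 h6 with h7 | h7
  · exact hne h7
  · exact he31' (sub_eq_zero.1 h7)

end

end Pool.Agent.Lib.MP_729182_ag
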